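import Mathlib

/-! The local expansion from the expansions at all scales. -/

set_option autoImplicit false

namespace Pool.Agent.Q218.AL

open Filter Topology

theorem scales {T : ℝ → ℝ} {A : ℕ → ℝ} {C b : ℝ} (hC : 0 ≤ C) (hb : 0 < b)
    (h : ∀ n : ℕ, 1 ≤ n → ∀ s : ℝ, |s| ≤ b * (n:ℝ) ^ (-(3 / 4) : ℝ) →
      |T s - T 0 - s * A n| ≤ C * (n:ℝ) ^ (-(5 / 4) : ℝ)) :
    ∃ L C' : ℝ, 0 ≤ C' ∧ ∀ s : ℝ, |s| ≤ b → |T s - T 0 - s * L| ≤ C' * |s| ^ (5 / 3 : ℝ) := by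
  obtain ⟨r, hr⟩ : ∃ r : ℝ, r = (2:ℝ) ^ (-(1 / 2) : ℝ) := ⟨_, rfl⟩
  have hr0 : 0 < r := by rw [hr]; positivity
  have hr1 : r < 1 := by
    rw [hr]
    exact Real.rpow_lt_one_of_one_lt_of_neg (by norm_num) (by norm_num)
  have hpow : ∀ (k : ℕ) (x : ℝ), ((2:ℝ) ^ k) ^ x = ((2:ℝ) ^ x) ^ k := by
    intro k x
    rw [← Real.rpow_natCast, ← Real.rpow_mul (by norm_num), ← Real.rpow_natCast,
      ← Real.rpow_mul (by norm_num), mul_comm]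
  obtain ⟨K, hK⟩ : ∃ K : ℝ, K = 4 * C / b := ⟨_, rfl⟩
  have hK0 : 0 ≤ K := by rw [hK]; positivity
  -- the differences
  have hdiff : ∀ k : ℕ, dist (A (2 ^ k)) (A (2 ^ (k + 1))) ≤ K * r ^ k := by
    intro k
    obtain ⟨X, hX⟩ : ∃ X : ℝ, X = (2:ℝ) ^ k := ⟨_, rfl⟩
    have hX0 : 0 < X := by rw [hX]; positivity
    have h1 : (1:ℕ) ≤ 2 ^ k := Nat.one_le_two_pow
    have h2 : (1:ℕ) ≤ 2 ^ (k + 1) := Nat.one_le_two_pow
    have c1 : ((2 ^ k : ℕ) : ℝ) = X := by rw [hX]; push_cast; rfl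
    have c2 : ((2 ^ (k + 1) : ℕ) : ℝ) = 2 * X := by rw [hX]; push_cast; ring
    obtain ⟨s, hs⟩ : ∃ s : ℝ, s = b * (2 * X) ^ (-(3 / 4) : ℝ) := ⟨_, rfl⟩
    have hs0 : 0 < s := by rw [hs]; positivity
    have g1 := h (2 ^ (k + 1)) h2 s (by rw [c2, abs_of_pos hs0, hs])
    have g2 := h (2 ^ k) h1 s (by
      rw [c1, abs_of_pos hs0, hs]
      apply mul_le_mul_of_nonneg_left _ hb.le
      exact Real.rpow_le_rpow_of_nonpos hX0 (by linarith) (by norm_num))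
    rw [c2] at g1
    rw [c1] at g2
    have g3 : (2 * X) ^ (-(5 / 4) : ℝ) ≤ X ^ (-(5 / 4) : ℝ) :=
      Real.rpow_le_rpow_of_nonpos hX0 (by linarith) (by norm_num)
    have g4 : s * |A (2 ^ k) - A (2 ^ (k + 1))| ≤ 2 * C * X ^ (-(5 / 4) : ℝ) := by
      have e1 : s * |A (2 ^ k) - A (2 ^ (k + 1))| =
          |(T s - T 0 - s * A (2 ^ (k + 1))) - (T s - T 0 - s * A (2 ^ k))| := by
        rw [← abs_of_pos hs0, ← abs_mul, abs_of_pos hs0]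
        congr 1
        ring
      rw [e1]
      refine (abs_sub _ _).trans ?_
      have := mul_le_mul_of_nonneg_left g3 hC
      linarith
    have g5 : X ^ (-(5 / 4) : ℝ) = X ^ (-(1 / 2) : ℝ) * X ^ (-(3 / 4) : ℝ) := by
      rw [← Real.rpow_add hX0]
      norm_num
    have g6 : (2 * X) ^ (-(3 / 4) : ℝ) = (2:ℝ) ^ (-(3 / 4) : ℝ) * X ^ (-(3 / 4) : ℝ) :=
      Real.mul_rpow (by norm_num) hX0.le
    have g7 : (1:ℝ) / 2 ≤ (2:ℝ) ^ (-(3 / 4) : ℝ) := by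
      have : (2:ℝ) ^ (-(1:ℝ)) ≤ (2:ℝ) ^ (-(3 / 4) : ℝ) :=
        Real.rpow_le_rpow_of_exponent_le (by norm_num) (by norm_num)
      rw [Real.rpow_neg_one] at this
      linarith
    have g8 : r ^ k = X ^ (-(1 / 2) : ℝ) := by rw [hX, hpow, hr]
    rw [Real.dist_eq, g8, hK]
    have hY : 0 < X ^ (-(3 / 4) : ℝ) := by positivity
    have hZ : 0 < X ^ (-(1 / 2) : ℝ) := by positivity
    rw [hs, g6, g5] at g4
    have g9 : b * (1 / 2 * X ^ (-(3 / 4) : ℝ)) * |A (2 ^ k) - A (2 ^ (k + 1))| ≤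
        b * ((2:ℝ) ^ (-(3 / 4) : ℝ) * X ^ (-(3 / 4) : ℝ)) * |A (2 ^ k) - A (2 ^ (k + 1))| := by
      apply mul_le_mul_of_nonneg_right _ (abs_nonneg _)
      apply mul_le_mul_of_nonneg_left _ hb.le
      exact mul_le_mul_of_nonneg_right g7 hY.le
    have g10 := g9.trans g4
    have g11 : (b * |A (2 ^ k) - A (2 ^ (k + 1))|) * X ^ (-(3 / 4) : ℝ) ≤
        (4 * C * X ^ (-(1 / 2) : ℝ)) * X ^ (-(3 / 4) : ℝ) := by linarith
    have g12 := le_of_mul_le_mul_right g11 hY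
    rw [div_mul_eq_mul_div, le_div_iff₀ hb]
    linarith
  obtain ⟨L, hL⟩ := cauchySeq_tendsto_of_complete (cauchySeq_of_le_geometric r K hr1 hdiff)
  have hlim : ∀ k : ℕ, |A (2 ^ k) - L| ≤ K / (1 - r) * r ^ k := by
    intro k
    have := dist_le_of_le_geometric_of_tendsto r K hr1 hdiff hL k
    rw [Real.dist_eq] at this
    refine this.trans (le_of_eq ?_)
    ring
  obtain ⟨K', hK'⟩ : ∃ K' : ℝ, K' = K / (1 - r) := ⟨_, rfl⟩
  have hK'0 : 0 ≤ K' := by rw [hK']; exact div_nonneg hK0 (by linarith)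
  rw [← hK'] at hlim
  refine ⟨L, C * (4 * (b⁻¹) ^ (5 / 3 : ℝ)) + K' * (2 * (b⁻¹) ^ (2 / 3 : ℝ)), by positivity, ?_⟩
  intro s hs
  rcases eq_or_ne s 0 with rfl | hs0
  · simp
  have habs : 0 < |s| := abs_pos.2 hs0
  obtain ⟨x, hx⟩ : ∃ x : ℝ, x = (b / |s|) ^ (4 / 3 : ℝ) := ⟨_, rfl⟩
  have hbs : 1 ≤ b / |s| := by rw [le_div_iff₀ habs, one_mul]; exact hs
  have hx1 : 1 ≤ x := by rw [hx]; exact Real.one_le_rpow hbs (by norm_num)
  obtain ⟨k, hk1, hk2⟩ := exists_nat_pow_near hx1 (by norm_num : (1:ℝ) < 2)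
  obtain ⟨X, hX⟩ : ∃ X : ℝ, X = (2:ℝ) ^ k := ⟨_, rfl⟩
  have hX0 : 0 < X := by rw [hX]; positivity
  have hx0 : 0 < x := by linarith
  rw [← hX] at hk1
  have hk3 : x < 2 * X := by
    rw [hX]
    calc x < 2 ^ (k + 1) := hk2
      _ = 2 * 2 ^ k := by ring
  have c1 : ((2 ^ k : ℕ) : ℝ) = X := by rw [hX]; push_cast; rfl
  have g1 := h (2 ^ k) Nat.one_le_two_pow s (by
    rw [c1]
    have e1 : X ^ (3 / 4 : ℝ) ≤ b / |s| := by
      calc X ^ (3 / 4 : ℝ) ≤ x ^ (3 / 4 : ℝ) := Real.rpow_le_rpow hX0.le hk1 (by norm_num)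
        _ = b / |s| := by
          rw [hx, ← Real.rpow_mul (by positivity)]
          norm_num
    rw [Real.rpow_neg hX0.le, ← div_eq_mul_inv, le_div_iff₀ (by positivity)]
    rw [le_div_iff₀ habs] at e1
    linarith)
  rw [c1] at g1
  have hXx : x / 2 ≤ X := by linarith
  have hsb : x⁻¹ = (|s| * b⁻¹) ^ (4 / 3 : ℝ) := by
    rw [hx, ← Real.inv_rpow (by positivity)]
    congr 1
    rw [inv_div]
    rfl
  have g2 : X ^ (-(5 / 4) : ℝ) ≤ 4 * (|s| ^ (5 / 3 : ℝ) * (b⁻¹) ^ (5 / 3 : ℝ)) := by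
    calc X ^ (-(5 / 4) : ℝ) ≤ (x / 2) ^ (-(5 / 4) : ℝ) :=
          Real.rpow_le_rpow_of_nonpos (by positivity) hXx (by norm_num)
      _ = (2 * x⁻¹) ^ (5 / 4 : ℝ) := by
          rw [Real.rpow_neg (by positivity), ← Real.inv_rpow (by positivity)]
          congr 1
          rw [inv_div, div_eq_mul_inv]
      _ = (2:ℝ) ^ (5 / 4 : ℝ) * (x⁻¹) ^ (5 / 4 : ℝ) := Real.mul_rpow (by norm_num) (by positivity)
      _ = (2:ℝ) ^ (5 / 4 : ℝ) * (|s| ^ (5 / 3 : ℝ) * (b⁻¹) ^ (5 / 3 : ℝ)) := by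
          rw [hsb, ← Real.rpow_mul (by positivity), ← Real.mul_rpow (by positivity) (by positivity)]
          norm_num
      _ ≤ 4 * (|s| ^ (5 / 3 : ℝ) * (b⁻¹) ^ (5 / 3 : ℝ)) := by
          apply mul_le_mul_of_nonneg_right _ (by positivity)
          calc (2:ℝ) ^ (5 / 4 : ℝ) ≤ (2:ℝ) ^ (2 : ℝ) :=
                Real.rpow_le_rpow_of_exponent_le (by norm_num) (by norm_num)
            _ = 4 := by norm_num
  have g3 : X ^ (-(1 / 2) : ℝ) ≤ 2 * (|s| ^ (2 / 3 : ℝ) * (b⁻¹) ^ (2 / 3 : ℝ)) := by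
    calc X ^ (-(1 / 2) : ℝ) ≤ (x / 2) ^ (-(1 / 2) : ℝ) :=
          Real.rpow_le_rpow_of_nonpos (by positivity) hXx (by norm_num)
      _ = (2 * x⁻¹) ^ (1 / 2 : ℝ) := by
          rw [Real.rpow_neg (by positivity), ← Real.inv_rpow (by positivity)]
          congr 1
          rw [inv_div, div_eq_mul_inv]
      _ = (2:ℝ) ^ (1 / 2 : ℝ) * (x⁻¹) ^ (1 / 2 : ℝ) := Real.mul_rpow (by norm_num) (by positivity)
      _ = (2:ℝ) ^ (1 / 2 : ℝ) * (|s| ^ (2 / 3 : ℝ) * (b⁻¹) ^ (2 / 3 : ℝ)) := by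
          rw [hsb, ← Real.rpow_mul (by positivity), ← Real.mul_rpow (by positivity) (by positivity)]
          norm_num
      _ ≤ 2 * (|s| ^ (2 / 3 : ℝ) * (b⁻¹) ^ (2 / 3 : ℝ)) := by
          apply mul_le_mul_of_nonneg_right _ (by positivity)
          calc (2:ℝ) ^ (1 / 2 : ℝ) ≤ (2:ℝ) ^ (1 : ℝ) :=
                Real.rpow_le_rpow_of_exponent_le (by norm_num) (by norm_num)
            _ = 2 := Real.rpow_one _
  have g4 := hlim k
  have g5 : r ^ k = X ^ (-(1 / 2) : ℝ) := by rw [hX, hpow, hr]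
  rw [g5] at g4
  have e1 : T s - T 0 - s * L = (T s - T 0 - s * A (2 ^ k)) + s * (A (2 ^ k) - L) := by ring
  have e2 : |s| ^ (5 / 3 : ℝ) = |s| * |s| ^ (2 / 3 : ℝ) := by
    nth_rewrite 2 [← Real.rpow_one |s|]
    rw [← Real.rpow_add habs]
    norm_num
  calc |T s - T 0 - s * L| ≤ |T s - T 0 - s * A (2 ^ k)| + |s * (A (2 ^ k) - L)| := by
        rw [e1]; exact abs_add_le _ _
    _ ≤ C * X ^ (-(5 / 4) : ℝ) + |s| * (K' * X ^ (-(1 / 2) : ℝ)) := by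
        rw [abs_mul]
        exact add_le_add g1 (mul_le_mul_of_nonneg_left g4 habs.le)
    _ ≤ C * (4 * (|s| ^ (5 / 3 : ℝ) * (b⁻¹) ^ (5 / 3 : ℝ))) +
        |s| * (K' * (2 * (|s| ^ (2 / 3 : ℝ) * (b⁻¹) ^ (2 / 3 : ℝ)))) := by
        apply add_le_add
        · exact mul_le_mul_of_nonneg_left g2 hC
        · apply mul_le_mul_of_nonneg_left _ habs.le
          exact mul_le_mul_of_nonneg_left g3 hK'0
    _ = _ := by rw [e2]; ring

end Pool.Agent.Q218.AL
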