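import Pool.Agent.Q218.AL.Lim

/-! The number of clusters in a box: derivative of the expectation. -/

set_option autoImplicit false

namespace Pool.Agent.Q218.AL

open H974 H12S Finset

/-! ### components and one more edge -/

section Comp

variable {V : Type*}

theorem card_cc_eq {G G' : SimpleGraph V}
    (h : ∀ u v, G'.Reachable u v ↔ G.Reachable u v) :
    Nat.card G'.ConnectedComponent = Nat.card G.ConnectedComponent :=
  Nat.card_congr (Quot.congrRight h)

theorem card_cc_succ [Finite V] {G G' : SimpleGraph V} {a b : V}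
    (h : ∀ u v, G'.Reachable u v ↔ G.Reachable u v ∨ (G.Reachable u a ∧ G.Reachable b v) ∨
      (G.Reachable u b ∧ G.Reachable a v)) (hab : ¬ G.Reachable a b) :
    Nat.card G.ConnectedComponent = Nat.card G'.ConnectedComponent + 1 := by
  classical
  have e1 : Nat.card G.ConnectedComponent =
      Nat.card (Option {c : G.ConnectedComponent // c ≠ G.connectedComponentMk b}) :=
    Nat.card_congr (Equiv.optionSubtypeNe (G.connectedComponentMk b)).symm
  rw [e1, Finite.card_option]
  congr 1
  have hle : ∀ u v, G.Reachable u v → G'.Reachable u v := fun u v huv => (h u v).2 (Or.inl huv)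
  let f : G.ConnectedComponent → G'.ConnectedComponent :=
    Quot.map id hle
  have hf : ∀ u, f (G.connectedComponentMk u) = G'.connectedComponentMk u := fun _ => rfl
  apply Nat.card_congr
  refine Equiv.ofBijective (fun c => f c.1) ⟨?_, ?_⟩
  · rintro ⟨c, hc⟩ ⟨d, hd⟩ hcd
    induction c using SimpleGraph.ConnectedComponent.ind with
    | _ u =>
      induction d using SimpleGraph.ConnectedComponent.ind with
      | _ v =>
        simp only [hf] at hcd
        rw [SimpleGraph.ConnectedComponent.eq, h] at hcd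
        rw [Ne, SimpleGraph.ConnectedComponent.eq] at hc hd
        rw [Subtype.mk.injEq, SimpleGraph.ConnectedComponent.eq]
        rcases hcd with h1 | ⟨-, h2⟩ | ⟨h1, -⟩
        · exact h1
        · exact absurd h2.symm hd
        · exact absurd h1 hc
  · intro d
    induction d using SimpleGraph.ConnectedComponent.ind with
    | _ v =>
      by_cases hv : G.Reachable v b
      · refine ⟨⟨G.connectedComponentMk a, ?_⟩, ?_⟩
        · rw [Ne, SimpleGraph.ConnectedComponent.eq]
          exact hab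
        · simp only [hf]
          rw [SimpleGraph.ConnectedComponent.eq, h]
          exact Or.inr (Or.inl ⟨SimpleGraph.Reachable.refl _, hv.symm⟩)
      · refine ⟨⟨G.connectedComponentMk v, ?_⟩, ?_⟩
        · rw [Ne, SimpleGraph.ConnectedComponent.eq]
          exact hv
        · simp only [hf]

end Comp

/-! ### the model in a box -/

/-- the `n × n` box of vertices -/
noncomputable def vbox (n : ℕ) : Finset Vtx := Finset.Ico (0:ℤ) n ×ˢ Finset.Ico (0:ℤ) n

/-- the edges of the `n × n` box -/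
noncomputable def ebox (n : ℕ) : Finset Edg :=
  (Finset.Ico (0:ℤ) n ×ˢ (Finset.Ico (0:ℤ) n ×ˢ Finset.univ)).filter (fun e => tgt e ∈ vbox n)

theorem mem_ebox {n : ℕ} {e : Edg} : e ∈ ebox n ↔ src e ∈ vbox n ∧ tgt e ∈ vbox n := by
  unfold ebox vbox
  rw [mem_filter, mem_product, mem_product, mem_product, mem_product]
  simp only [mem_univ, and_true, src]

theorem ebox_eq (n : ℕ) : ebox n = RE 0 ((n:ℤ) - 1) 0 ((n:ℤ) - 1) := by
  ext ⟨x, y, b⟩
  rw [mem_ebox]
  unfold vbox
  rw [mem_product, mem_product, mem_Ico, mem_Ico, mem_Ico, mem_Ico]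
  cases b
  · rw [mem_RE_false]
    simp only [src_mk, tgt_false]
    omega
  · rw [mem_RE_true]
    simp only [src_mk, tgt_true]
    omega

/-- the graph of the open edges on the vertices of the box -/
def ogr (n : ℕ) (F : Finset Edg) : SimpleGraph (vbox n) :=
  SimpleGraph.fromRel (fun u v => ∃ e ∈ F, src e = u.1 ∧ tgt e = v.1)

/-- the number of clusters -/
noncomputable def ncl (n : ℕ) (F : Finset Edg) : ℕ := Nat.card (ogr n F).ConnectedComponent

theorem src_ne_tgt (e : Edg) : src e ≠ tgt e := by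
  obtain ⟨x, y, b⟩ := e
  cases b
  · rw [src_mk, tgt_false, Ne, Prod.mk.injEq]; omega
  · rw [src_mk, tgt_true, Ne, Prod.mk.injEq]; omega

theorem ogr_adj {n : ℕ} {F : Finset Edg} {u v : vbox n} :
    (ogr n F).Adj u v ↔ Adj (↑F : Set Edg) u.1 v.1 := by
  unfold ogr
  rw [SimpleGraph.fromRel_adj]
  constructor
  · rintro ⟨-, ⟨e, he, h1, h2⟩ | ⟨e, he, h1, h2⟩⟩
    · exact ⟨e, he, Or.inl ⟨h1, h2⟩⟩
    · exact ⟨e, he, Or.inr ⟨h1, h2⟩⟩
  · rintro ⟨e, he, h⟩
    refine ⟨?_, ?_⟩
    · rintro rfl
      rcases h with ⟨h1, h2⟩ | ⟨h1, h2⟩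
      · exact src_ne_tgt e (h1.trans h2.symm)
      · exact src_ne_tgt e (h1.trans h2.symm)
    · rcases h with ⟨h1, h2⟩ | ⟨h1, h2⟩
      · exact Or.inl ⟨e, he, h1, h2⟩
      · exact Or.inr ⟨e, he, h1, h2⟩

theorem ogr_reach {n : ℕ} {F : Finset Edg} (hF : F ⊆ ebox n) {u v : vbox n} :
    (ogr n F).Reachable u v ↔ Reach (↑F : Set Edg) u.1 v.1 := by
  rw [SimpleGraph.reachable_iff_reflTransGen]
  constructor
  · intro h
    induction h with
    | refl => exact Reach.refl _ _
    | tail _ hs ih => exact Relation.ReflTransGen.tail ih (ogr_adj.1 hs)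
  · intro h
    obtain ⟨u, hu⟩ := u
    obtain ⟨v, hv⟩ := v
    simp only at h
    have key : ∀ w, Reach (↑F : Set Edg) u w → ∃ hw : w ∈ vbox n,
        Relation.ReflTransGen (ogr n F).Adj ⟨u, hu⟩ ⟨w, hw⟩ := by
      intro w hw
      induction hw with
      | refl => exact ⟨hu, Relation.ReflTransGen.refl⟩
      | @tail x y _ hs ih =>
        obtain ⟨hx, h1⟩ := ih
        have hy : y ∈ vbox n := by
          obtain ⟨e, he, h2⟩ := hs
          have h3 := mem_ebox.1 (hF (mem_coe.1 he))
          rcases h2 with ⟨h4, h5⟩ | ⟨h4, h5⟩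
          · rw [← h5]; exact h3.2
          · rw [← h4]; exact h3.1
        exact ⟨hy, Relation.ReflTransGen.tail h1 (ogr_adj.2 hs)⟩
    obtain ⟨_, h1⟩ := key v h
    exact h1

theorem reach_insert {e : Edg} {G : Set Edg} (he : e ∉ G) {u z : Vtx} :
    Reach (insert e G) u z ↔ Reach G u z ∨
      (Reach G u (src e) ∧ Reach G (tgt e) z) ∨ (Reach G u (tgt e) ∧ Reach G (src e) z) := by
  have hsub : G ⊆ insert e G := Set.subset_insert _ _
  have hadj : Reach (insert e G) (src e) (tgt e) :=
    Relation.ReflTransGen.single ⟨e, Set.mem_insert _ _, Or.inl ⟨rfl, rfl⟩⟩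
  constructor
  · intro hz
    induction hz with
    | refl => exact Or.inl (Reach.refl _ _)
    | @tail x y _ hs ih =>
      obtain ⟨g, hg, hc⟩ := hs
      by_cases hge : g = e
      · subst hge
        have h4 : (x = src g ∧ y = tgt g) ∨ (x = tgt g ∧ y = src g) := by
          rcases hc with ⟨h5, h6⟩ | ⟨h5, h6⟩
          · exact Or.inl ⟨h5.symm, h6.symm⟩
          · exact Or.inr ⟨h6.symm, h5.symm⟩
        rcases h4 with ⟨rfl, rfl⟩ | ⟨rfl, rfl⟩
        · rcases ih with ih | ⟨ih1, ih2⟩ | ⟨ih1, ih2⟩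
          · exact Or.inr (Or.inl ⟨ih, Reach.refl _ _⟩)
          · exact Or.inr (Or.inl ⟨ih1, Reach.refl _ _⟩)
          · exact Or.inl ih1
        · rcases ih with ih | ⟨ih1, ih2⟩ | ⟨ih1, ih2⟩
          · exact Or.inr (Or.inr ⟨ih, Reach.refl _ _⟩)
          · exact Or.inl ih1
          · exact Or.inr (Or.inr ⟨ih1, Reach.refl _ _⟩)
      · have hadj : Adj G x y := ⟨g, hg.resolve_left hge, hc⟩
        have step : ∀ {p : Vtx}, Reach G p x → Reach G p y :=
          fun hp => Relation.ReflTransGen.tail hp hadj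
        rcases ih with ih | ⟨ih1, ih2⟩ | ⟨ih1, ih2⟩
        · exact Or.inl (step ih)
        · exact Or.inr (Or.inl ⟨ih1, step ih2⟩)
        · exact Or.inr (Or.inr ⟨ih1, step ih2⟩)
  · rintro (h | ⟨h1, h2⟩ | ⟨h1, h2⟩)
    · exact h.mono hsub
    · exact (h1.mono hsub).trans (hadj.trans (h2.mono hsub))
    · exact (h1.mono hsub).trans (hadj.symm.trans (h2.mono hsub))

/-- The effect of one more open edge on the number of clusters. -/
theorem ncl_insert {n : ℕ} {e : Edg} (he : e ∈ ebox n) {F : Finset Edg}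
    (hF : F ⊆ (ebox n).erase e) : (ncl n (insert e F) : ℝ) - ncl n F =
      -(1 - ind (Reach (↑F : Set Edg) (src e) (tgt e))) := by
  have heF : e ∉ (↑F : Set Edg) := fun h => (notMem_erase e _) (hF (mem_coe.1 h))
  have hF1 : F ⊆ ebox n := hF.trans (erase_subset _ _)
  have hF2 : insert e F ⊆ ebox n := insert_subset he hF1
  obtain ⟨hs, ht⟩ := mem_ebox.1 he
  have hiff : ∀ u v : vbox n, (ogr n (insert e F)).Reachable u v ↔ (ogr n F).Reachable u v ∨
      ((ogr n F).Reachable u ⟨src e, hs⟩ ∧ (ogr n F).Reachable ⟨tgt e, ht⟩ v) ∨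
      ((ogr n F).Reachable u ⟨tgt e, ht⟩ ∧ (ogr n F).Reachable ⟨src e, hs⟩ v) := by
    intro u v
    rw [ogr_reach hF2, ogr_reach hF1, ogr_reach hF1, ogr_reach hF1, ogr_reach hF1, ogr_reach hF1,
      coe_insert, reach_insert heF]
  by_cases h : Reach (↑F : Set Edg) (src e) (tgt e)
  · have h1 : (ogr n F).Reachable ⟨src e, hs⟩ ⟨tgt e, ht⟩ := (ogr_reach hF1).2 h
    have h2 : ncl n (insert e F) = ncl n F := by
      apply card_cc_eq
      intro u v
      rw [hiff]
      constructor
      · rintro (h3 | ⟨h3, h4⟩ | ⟨h3, h4⟩)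
        · exact h3
        · exact h3.trans (h1.trans h4)
        · exact h3.trans (h1.symm.trans h4)
      · exact Or.inl
    rw [h2, ind_of h]
    ring
  · have h1 : ¬ (ogr n F).Reachable ⟨src e, hs⟩ ⟨tgt e, ht⟩ := fun h' => h ((ogr_reach hF1).1 h')
    have h2 : ncl n F = ncl n (insert e F) + 1 := card_cc_succ hiff h1
    rw [h2, ind_not_of h]
    push_cast
    ring

theorem ncl_empty (n : ℕ) : ncl n ∅ = n ^ 2 := by
  have h1 : ∀ u v : vbox n, (ogr n ∅).Reachable u v ↔ u = v := by
    intro u v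
    rw [ogr_reach (empty_subset _)]
    constructor
    · intro h
      apply Subtype.ext
      have key : ∀ w, Reach (↑(∅ : Finset Edg) : Set Edg) u.1 w → u.1 = w := by
        intro w hw
        induction hw with
        | refl => rfl
        | tail _ hs _ =>
          obtain ⟨e, he, _⟩ := hs
          simp at he
      exact key _ h
    · rintro rfl
      exact Reach.refl _ _
  have h2 : Nat.card (vbox n) = Nat.card (ogr n ∅).ConnectedComponent := by
    apply Nat.card_congr
    refine Equiv.ofBijective (fun u => (ogr n ∅).connectedComponentMk u) ⟨?_, ?_⟩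
    · intro u v huv
      simp only at huv
      rw [SimpleGraph.ConnectedComponent.eq] at huv
      exact (h1 u v).1 huv
    · intro c
      induction c using SimpleGraph.ConnectedComponent.ind with
      | _ v => exact ⟨v, rfl⟩
  unfold ncl
  rw [← h2, Nat.card_eq_fintype_card, Fintype.card_coe]
  unfold vbox
  rw [card_product, Int.card_Ico]
  simp
  ring

/-- the mean number of clusters -/
noncomputable def mcl (n : ℕ) (p : ℝ) : ℝ := Ex (fun _ => p) (ebox n) (fun F => (ncl n F : ℝ))

theorem mcl_zero (n : ℕ) : mcl n 0 = (n:ℝ) ^ 2 := by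
  unfold mcl Ex
  rw [Finset.sum_eq_single_of_mem ∅ (empty_mem_powerset _)]
  · simp [ncl_empty]
  · intro F _ hF
    obtain ⟨e, he⟩ := Finset.nonempty_iff_ne_empty.2 hF
    rw [Finset.prod_eq_zero he rfl, zero_mul, zero_mul]

/-- the mean number of edges which are not needed -/
noncomputable def dcl (n : ℕ) (p : ℝ) : ℝ := ∑ e ∈ ebox n, (1 - cr e (ebox n) p)

theorem mcl_deriv (n : ℕ) (p : ℝ) : HasDerivAt (mcl n) (-(dcl n p)) p := by
  have h := Ex_hasDerivAt (fun (q : ℝ) (_ : Edg) => q) (fun _ => 1) p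
    (fun _ => hasDerivAt_id p) (ebox n) (fun F => (ncl n F : ℝ))
  refine h.congr_deriv ?_
  unfold dcl
  rw [← sum_neg_distrib]
  apply sum_congr rfl
  intro e he
  rw [one_mul, Ex_congr (g := fun F => (-1) + ind (Reach (↑F : Set Edg) (src e) (tgt e)))]
  · rw [Ex_add, Ex_const]
    unfold cr PQ Pr
    ring
  · intro F hF
    rw [ncl_insert he (by exact hF)]
    ring

end Pool.Agent.Q218.AL
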