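import Pool.Agent.Y554.NE.Merge
import Pool.Agent.Y968.NE.Key
import Pool.Agent.Y381.SN.AF4

/-!
The connection of the two ends of an edge `b`, off the edge `b`: sets of edges which are jointly
pivotal (at the critical point). Definitions and the chain of annuli.
-/

set_option autoImplicit false

namespace Pool.Agent.Q218.AL

open H974 H12S H389NS Finset
open Pool.Agent.Y554.NE (ds dm nb conn cap pos cap_mul dm_le_of dm_mono dm_union)
open Pool.Agent.Y239.NE.Dec (okh ds_comm ds_tri mem_blk mem_blk_pos)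
open Pool.Agent.Y239.NE.Out (blk_sub mem_blk_of ds_le_dm pos_le)

/-- bound for the four arm event from an edge to the distance `s` -/
noncomputable def ps (n s : ℕ) : ℝ := ((cap n s : ℕ) : ℝ) ^ (-(5 / 4) : ℝ)

theorem cap_pos (n s : ℕ) : 1 ≤ cap n s := by unfold cap; omega

theorem ps_pos (n s : ℕ) : 0 < ps n s := by
  unfold ps
  have : (0:ℝ) < cap n s := by exact_mod_cast cap_pos n s
  positivity

theorem ps_le_one (n s : ℕ) : ps n s ≤ 1 := by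
  unfold ps
  have : (1:ℝ) ≤ cap n s := by exact_mod_cast cap_pos n s
  exact Real.rpow_le_one_of_one_le_of_nonpos this (by norm_num)

theorem ps_anti {n s s' : ℕ} (h : s ≤ s') : ps n s' ≤ ps n s := by
  unfold ps
  have h1 : (0:ℝ) < cap n s := by exact_mod_cast cap_pos n s
  have h2 : cap n s ≤ cap n s' := by unfold cap; omega
  exact Real.rpow_le_rpow_of_nonpos h1 (by exact_mod_cast h2) (by norm_num)

theorem ps_cmp {n s s' M : ℕ} (hM : 1 ≤ M) (h2 : s' ≤ M * max 1 s) :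
    ps n s ≤ (M:ℝ) ^ 2 * ps n s' := by
  have h1 : (0:ℝ) < cap n s := by exact_mod_cast cap_pos n s
  have h1' : (0:ℝ) < cap n s' := by exact_mod_cast cap_pos n s'
  have hM0 : (1:ℝ) ≤ M := by exact_mod_cast hM
  have h3 : (cap n s' : ℝ) ≤ M * cap n s := by exact_mod_cast cap_mul (n := n) hM h2
  unfold ps
  have h4 : ((M:ℝ) * cap n s) ^ (-(5 / 4) : ℝ) ≤ (cap n s' : ℝ) ^ (-(5 / 4) : ℝ) :=
    Real.rpow_le_rpow_of_nonpos h1' h3 (by norm_num)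
  have h5 : ((M:ℝ) * cap n s) ^ (-(5 / 4) : ℝ) =
      (M:ℝ) ^ (-(5 / 4) : ℝ) * (cap n s : ℝ) ^ (-(5 / 4) : ℝ) :=
    Real.mul_rpow (by linarith) h1.le
  have h6 : (1:ℝ) ≤ (M:ℝ) ^ 2 * (M:ℝ) ^ (-(5 / 4) : ℝ) := by
    rw [← Real.rpow_natCast, ← Real.rpow_add (by linarith)]
    apply Real.one_le_rpow hM0
    norm_num
  have h7 : 0 < (cap n s : ℝ) ^ (-(5 / 4) : ℝ) := by positivity
  calc (cap n s : ℝ) ^ (-(5 / 4) : ℝ) = 1 * (cap n s : ℝ) ^ (-(5 / 4) : ℝ) := (one_mul _).symm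
    _ ≤ ((M:ℝ) ^ 2 * (M:ℝ) ^ (-(5 / 4) : ℝ)) * (cap n s : ℝ) ^ (-(5 / 4) : ℝ) :=
        mul_le_mul_of_nonneg_right h6 h7.le
    _ = (M:ℝ) ^ 2 * (((M:ℝ) * cap n s) ^ (-(5 / 4) : ℝ)) := by rw [h5]; ring
    _ ≤ _ := mul_le_mul_of_nonneg_left h4 (by positivity)

/-- The set `S` contains `b`, and every other edge of `S` is pivotal for the connection of the two
ends of `b` off `b`, for some choice of the configuration in `S`. -/
def Qp (b : Edg) (S F : Finset Edg) : Prop :=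
  b ∈ S ∧ ∀ e ∈ S, e ≠ b → ∃ T ⊆ S.erase b,
    Pv {src b} {tgt b} e (↑((F \ S) ∪ T) : Set Edg)

/-- `Gd w b n t τ s a k S x`: there are an event and a tree on `S` with root `x` (see
`Pool.Agent.Y554.NE.Good`). If `w` is false only proper supersets are considered. -/
def Gd (w : Prop) (b : Edg) (n t τ s : ℕ) (a : ℝ) (k : ℕ) (S : Finset Edg) (x : Edg) : Prop :=
  ∃ (Ev : Finset Edg → Prop) (par : Edg → Edg) (rk : Edg → ℕ),
    (∀ F F' : Finset Edg, F ∩ (nb S (t / 2) \ S) = F' ∩ (nb S (t / 2) \ S) → (Ev F ↔ Ev F')) ∧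
    (∀ S' : Finset Edg, S ⊆ S' → S' ⊆ boxE n → (w ∨ (S' \ S).Nonempty) →
      (∀ v ∈ S, ∀ w ∈ S' \ S, t < ds v w) →
      ∀ F : Finset Edg, F ⊆ boxE (2 * n) → Qp b S' F → Ev F) ∧
    (∀ y ∈ S, y ≠ x → par y ∈ S ∧ rk (par y) < rk y ∧ ds y (par y) ≤ τ) ∧
    PQ (1 / 2) (boxE (2 * n)) Ev ≤
      a ^ k * (∏ y ∈ S.erase x, ps n (ds y (par y))) * ps n s

theorem Gd.weak {w : Prop} {b : Edg} {n t τ s : ℕ} {a : ℝ} {k : ℕ} {S : Finset Edg} {x : Edg}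
    (h : Gd True b n t τ s a k S x) : Gd w b n t τ s a k S x := by
  obtain ⟨Ev, par, rk, h1, h2, h3, h4⟩ := h
  exact ⟨Ev, par, rk, h1, fun S' g1 g2 _ g4 => h2 S' g1 g2 (Or.inl trivial) g4, h3, h4⟩

theorem gd_mono {w : Prop} {b : Edg} {n t τ τ' s : ℕ} {a : ℝ} {k k' : ℕ} {S : Finset Edg}
    {x : Edg} (h : Gd w b n t τ s a k S x) (hτ : τ ≤ τ') (hk : k ≤ k') (ha : 1 ≤ a) :
    Gd w b n t τ' s a k' S x := by
  obtain ⟨Ev, par, rk, h1, h2, h3, h4⟩ := h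
  refine ⟨Ev, par, rk, h1, h2, fun y hy hx => ?_, h4.trans ?_⟩
  · obtain ⟨e1, e2, e3⟩ := h3 y hy hx
    exact ⟨e1, e2, e3.trans hτ⟩
  · refine mul_le_mul_of_nonneg_right ?_ (ps_pos _ _).le
    refine mul_le_mul_of_nonneg_right ?_ (Finset.prod_nonneg fun _ _ => (ps_pos _ _).le)
    exact pow_le_pow_right₀ ha hk

/-- the two ends of an edge of the block -/
theorem ends_blk {c : ℤ × ℤ} {r : ℕ} {e : Edg} (he : e ∈ blk c r) :
    inR (c.1 - r) (c.1 + r) (c.2 - r) (c.2 + r) (src e) ∧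
      inR (c.1 - r) (c.1 + r) (c.2 - r) (c.2 + r) (tgt e) := BS_adj_box he

/-- an edge far from `c` has its ends far from `c` -/
theorem ends_far {c : ℤ × ℤ} {D : ℕ} {e : Edg}
    (he : (D:ℤ) + 1 ≤ |e.1 - c.1| ∨ (D:ℤ) + 1 ≤ |e.2.1 - c.2|) (v : Vtx)
    (hv : v = src e ∨ v = tgt e) :
    v.1 ≤ c.1 - D ∨ c.1 + D ≤ v.1 ∨ v.2 ≤ c.2 - D ∨ c.2 + D ≤ v.2 := by
  obtain ⟨x, y, β⟩ := e
  simp only at he
  rw [le_abs, le_abs] at he
  rcases hv with rfl | rfl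
  · simp only [src_mk]
    omega
  · cases β
    · simp only [tgt_false]
      omega
    · simp only [tgt_true]
      omega

/-- Two paths which cross an annulus and are not connected. -/
theorem annulus {c : ℤ × ℤ} {r D : ℕ} (hrD : r ≤ D) {G : Set Edg} {u u' v v' : Vtx}
    (hu : inR (c.1 - r) (c.1 + r) (c.2 - r) (c.2 + r) u)
    (hu' : inR (c.1 - r) (c.1 + r) (c.2 - r) (c.2 + r) u')
    (hv : v.1 ≤ c.1 - D ∨ c.1 + D ≤ v.1 ∨ v.2 ≤ c.2 - D ∨ c.2 + D ≤ v.2)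
    (hv' : v'.1 ≤ c.1 - D ∨ c.1 + D ≤ v'.1 ∨ v'.2 ≤ c.2 - D ∨ c.2 + D ≤ v'.2)
    (h : Reach G u v) (h' : Reach G u' v') (hn : ¬ Reach G u u') : A4a c r D G := by
  have hin : ∀ {z : Vtx}, inR (c.1 - r) (c.1 + r) (c.2 - r) (c.2 + r) z →
      inR (c.1 - D) (c.1 + D) (c.2 - D) (c.2 + D) z := by
    intro z hz
    unfold inR at hz ⊢
    omega
  obtain ⟨w, hw1, hw2, hw3⟩ := first_exit (hin hu) h hv
  obtain ⟨w', hw1', hw2', hw3'⟩ := first_exit (hin hu') h' hv'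
  have hout : ∀ {z : Vtx}, (z.1 = c.1 - D ∨ z.1 = c.1 + D ∨ z.2 = c.2 - D ∨ z.2 = c.2 + D) →
      (z.1 ≤ c.1 - D ∨ c.1 + D ≤ z.1 ∨ z.2 ≤ c.2 - D ∨ c.2 + D ≤ z.2) := by
    intro z hz
    omega
  obtain ⟨y, hy1, hy2, hy3⟩ := E1b.last_exit (c := c) (d := r) (k := D) hrD
    (G := G ∩ ↑(RE (c.1 - D) (c.1 + D) (c.2 - D) (c.2 + D))) (F := G)
    (fun x hx => hx.1) (fun x hx => mem_coe.1 hx.2) (hout hw2) hw3.symm hu
  obtain ⟨y', hy1', hy2', hy3'⟩ := E1b.last_exit (c := c) (d := r) (k := D) hrD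
    (G := G ∩ ↑(RE (c.1 - D) (c.1 + D) (c.2 - D) (c.2 + D))) (F := G)
    (fun x hx => hx.1) (fun x hx => mem_coe.1 hx.2) (hout hw2') hw3'.symm hu'
  refine ⟨y, E1b.bdB_iff.2 ⟨hy1, hy2⟩, y', E1b.bdB_iff.2 ⟨hy1', hy2'⟩,
    ⟨w, E1b.bdB_iff.2 ⟨hw1, hw2⟩, hy3⟩, ⟨w', E1b.bdB_iff.2 ⟨hw1', hw2'⟩, hy3'⟩, fun hr => hn ?_⟩
  have m1 : G ∩ ↑(RE (c.1 - D) (c.1 + D) (c.2 - D) (c.2 + D)) ⊆ G := Set.inter_subset_left
  have m2 : G ∩ ↑(blk c D \ blk c r) ⊆ G := Set.inter_subset_left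
  exact (hw3.mono m1).trans ((hy3.mono m2).symm.trans ((hr.mono m2).trans
    ((hy3'.mono m2).trans (hw3'.mono m1).symm)))

/-- the four arms around a pivotal edge -/
theorem pv_split {I J : Vtx} {e : Edg} {G : Set Edg} (h : Pv {I} {J} e G) :
    ¬ Reach (G \ {e}) I J ∧
      ((Reach (G \ {e}) I (src e) ∧ Reach (G \ {e}) (tgt e) J) ∨
        (Reach (G \ {e}) I (tgt e) ∧ Reach (G \ {e}) (src e) J)) := by
  obtain ⟨⟨u, hu, v, hv, h1⟩, h2⟩ := h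
  rw [Set.mem_singleton_iff] at hu hv
  subst hu hv
  have h3 : ¬ Reach (G \ {e}) u v := fun h => h2 ⟨u, rfl, v, rfl, h⟩
  refine ⟨h3, ?_⟩
  have key : ∀ z, Reach (insert e G) u z → Reach (G \ {e}) u z ∨
      ((Reach (G \ {e}) u (src e) ∧ Reach (G \ {e}) (tgt e) z) ∨
        (Reach (G \ {e}) u (tgt e) ∧ Reach (G \ {e}) (src e) z)) := by
    intro z hz
    induction hz with
    | refl => exact Or.inl (Reach.refl _ _)
    | @tail x y _ hs ih =>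
      obtain ⟨g, hg, hc⟩ := hs
      by_cases hge : g = e
      · subst hge
        have h4 : (x = src g ∧ y = tgt g) ∨ (x = tgt g ∧ y = src g) := by
          rcases hc with ⟨h5, h6⟩ | ⟨h5, h6⟩
          · exact Or.inl ⟨h5.symm, h6.symm⟩
          · exact Or.inr ⟨h6.symm, h5.symm⟩
        rcases h4 with ⟨rfl, rfl⟩ | ⟨rfl, rfl⟩
        · rcases ih with ih | ⟨ih1, ih2⟩ | ⟨ih1, ih2⟩
          · exact Or.inr (Or.inl ⟨ih, Reach.refl _ _⟩)
          · exact Or.inr (Or.inl ⟨ih1, Reach.refl _ _⟩)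
          · exact Or.inl ih1
        · rcases ih with ih | ⟨ih1, ih2⟩ | ⟨ih1, ih2⟩
          · exact Or.inr (Or.inr ⟨ih, Reach.refl _ _⟩)
          · exact Or.inl ih1
          · exact Or.inr (Or.inr ⟨ih1, Reach.refl _ _⟩)
      · have hadj : Adj (G \ {e}) x y := by
          refine ⟨g, ⟨?_, ?_⟩, hc⟩
          · rcases hg with hg | hg
            · exact absurd hg hge
            · exact hg
          · exact hge
        have step : ∀ {p : Vtx}, Reach (G \ {e}) p x → Reach (G \ {e}) p y :=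
          fun hp => Relation.ReflTransGen.tail hp hadj
        rcases ih with ih | ⟨ih1, ih2⟩ | ⟨ih1, ih2⟩
        · exact Or.inl (step ih)
        · exact Or.inr (Or.inl ⟨ih1, step ih2⟩)
        · exact Or.inr (Or.inr ⟨ih1, step ih2⟩)
  rcases key v h1 with h | h
  · exact absurd h h3
  · exact h

/-- The chain: the annulus around a part `S` of a jointly pivotal set `S'` is crossed by four
arms. -/
theorem chain {b : Edg} {S S' F : Finset Edg} {c : ℤ × ℤ} {r D : ℕ} {x : Edg} (hrD : r ≤ D)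
    (hx : x ∈ S) (hS : S ⊆ blk c r) (hSS' : S ⊆ S') (hne : (S' \ S).Nonempty)
    (hfar : ∀ w ∈ S' \ S, (D:ℤ) + 1 ≤ |w.1 - c.1| ∨ (D:ℤ) + 1 ≤ |w.2.1 - c.2|)
    (hQ : Qp b S' F) : A4a c r D (↑F : Set Edg) := by
  obtain ⟨hb, hQ⟩ := hQ
  have hdis : ∀ e ∈ blk c D \ blk c r, e ∉ S' := by
    intro e he heS
    obtain ⟨he1, he2⟩ := mem_sdiff.mp he
    have h1 : e ∉ S := fun h => he2 (hS h)
    have h2 := hfar e (mem_sdiff.mpr ⟨heS, h1⟩)
    have h3 := mem_blk he1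
    rw [le_abs, le_abs] at h2
    omega
  -- locality
  have hloc : ∀ T ⊆ S'.erase b, ∀ e : Edg, e ∈ S' →
      A4a c r D ((↑((F \ S') ∪ T) : Set Edg) \ {e}) → A4a c r D (↑F : Set Edg) := by
    intro T hT e he h
    have e1 : ((↑((F \ S') ∪ T) : Set Edg) \ {e}) ∩ ↑(blk c D \ blk c r) =
        (↑F : Set Edg) ∩ ↑(blk c D \ blk c r) := by
      ext g
      constructor
      · rintro ⟨⟨h1, h2⟩, h3⟩
        refine ⟨?_, h3⟩
        rcases mem_union.1 (mem_coe.1 h1) with h4 | h4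
        · exact mem_coe.2 (mem_sdiff.1 h4).1
        · exact absurd (mem_of_mem_erase (hT h4)) (hdis g (mem_coe.1 h3))
      · rintro ⟨h1, h3⟩
        have h4 := hdis g (mem_coe.1 h3)
        refine ⟨⟨mem_coe.2 (mem_union_left _ (mem_sdiff.2 ⟨mem_coe.1 h1, h4⟩)), ?_⟩, h3⟩
        rintro rfl
        exact h4 he
    unfold A4a at h ⊢
    rwa [e1] at h
  by_cases hbS : b ∈ S
  · obtain ⟨e, he⟩ := hne
    obtain ⟨he1, he2⟩ := mem_sdiff.1 he
    have heb : e ≠ b := fun h => he2 (h ▸ hbS)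
    obtain ⟨T, hT, hPv⟩ := hQ e he1 heb
    refine hloc T hT e he1 ?_
    obtain ⟨h1, h2⟩ := pv_split hPv
    obtain ⟨k1, k2⟩ := ends_blk (hS hbS)
    have k3 := ends_far (hfar e he)
    rcases h2 with ⟨h3, h4⟩ | ⟨h3, h4⟩
    · exact annulus hrD k1 k2 (k3 _ (Or.inl rfl)) (k3 _ (Or.inr rfl)) h3 h4.symm h1
    · exact annulus hrD k1 k2 (k3 _ (Or.inr rfl)) (k3 _ (Or.inl rfl)) h3 h4.symm h1
  · have hxb : x ≠ b := fun h => hbS (h ▸ hx)
    obtain ⟨T, hT, hPv⟩ := hQ x (hSS' hx) hxb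
    refine hloc T hT x (hSS' hx) ?_
    obtain ⟨h1, h2⟩ := pv_split hPv
    obtain ⟨k1, k2⟩ := ends_blk (hS hx)
    have k3 := ends_far (hfar b (mem_sdiff.2 ⟨hb, hbS⟩))
    rcases h2 with ⟨h3, h4⟩ | ⟨h3, h4⟩
    · refine annulus hrD k1 k2 (k3 _ (Or.inl rfl)) (k3 _ (Or.inr rfl)) h3.symm h4 ?_
      intro h
      exact h1 (h3.trans (h.trans h4))
    · refine annulus hrD k2 k1 (k3 _ (Or.inl rfl)) (k3 _ (Or.inr rfl)) h3.symm h4 ?_
      intro h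
      exact h1 (h3.trans (h.trans h4))

end Pool.Agent.Q218.AL
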