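import Pool.Agent.Q218.AL.Tay
import Pool.Agent.H12R2.Sep.Key1

/-! The connection probabilities in large boxes. -/

set_option autoImplicit false

namespace Pool.Agent.Q218.AL

open H974 H12S H389NS Finset
open Pool.Agent.Y554.NE (pos)

/-- A path which starts in a rectangle stays inside or visits the boundary. -/
theorem stay {G : Set Edg} {a b c d : ℤ} {u v : Vtx} (hu : inR a b c d u) (h : Reach G u v) :
    (∃ w ∈ bdR a b c d, Reach (G ∩ ↑(RE a b c d)) u w) ∨ Reach (G ∩ ↑(RE a b c d)) u v := by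
  have key : ∀ w, Reach G u w → (∃ w ∈ bdR a b c d, Reach (G ∩ ↑(RE a b c d)) u w) ∨
      ((a < w.1 ∧ w.1 < b) ∧ (c < w.2 ∧ w.2 < d) ∧ Reach (G ∩ ↑(RE a b c d)) u w) := by
    intro w hw
    by_cases hb : w.1 ≤ a ∨ b ≤ w.1 ∨ w.2 ≤ c ∨ d ≤ w.2
    · left
      obtain ⟨z, h1, h2, h3⟩ := first_exit hu hw hb
      exact ⟨z, ⟨h1, h2⟩, h3⟩
    · induction hw with
      | refl => exact Or.inr ⟨by omega, by omega, Reach.refl _ _⟩
      | @tail w w' hw hs ih =>
        by_cases hb' : w.1 ≤ a ∨ b ≤ w.1 ∨ w.2 ≤ c ∨ d ≤ w.2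
        · left
          obtain ⟨z, h1, h2, h3⟩ := first_exit hu hw hb'
          exact ⟨z, ⟨h1, h2⟩, h3⟩
        · rcases ih hb' with ih | ⟨ih1, ih2, ih3⟩
          · exact Or.inl ih
          · right
            refine ⟨by omega, by omega, ih3.trans ?_⟩
            obtain ⟨⟨x0, y0, bo⟩, heG, hcase⟩ := hs
            have hmem : ((x0, y0, bo) : Edg) ∈ RE a b c d := by
              cases bo
              · simp only [src_mk, tgt_false] at hcase
                rw [mem_RE_false]
                rcases hcase with ⟨h3, h4⟩ | ⟨h3, h4⟩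
                · rw [← h3] at ih1 ih2; simp only at ih1 ih2; omega
                · rw [← h4] at ih1 ih2; simp only at ih1 ih2; omega
              · simp only [src_mk, tgt_true] at hcase
                rw [mem_RE_true]
                rcases hcase with ⟨h3, h4⟩ | ⟨h3, h4⟩
                · rw [← h3] at ih1 ih2; simp only at ih1 ih2; omega
                · rw [← h4] at ih1 ih2; simp only at ih1 ih2; omega
            have hadj : Adj (G ∩ ↑(RE a b c d)) w w' := ⟨_, ⟨heG, hmem⟩, hcase⟩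
            exact hadj.reach
  rcases key v h with h1 | ⟨-, -, h1⟩
  · exact Or.inl h1
  · exact Or.inr h1

/-- four arms or a local connection -/
theorem esc {a b c d : ℤ} {o : Edg} (ho : o ∈ RE a b c d) {G : Set Edg} (hG : o ∉ G)
    (h : Reach G (src o) (tgt o)) :
    Reach (G ∩ ↑(RE a b c d)) (src o) (tgt o) ∨ A4 a b c d o G := by
  by_cases h1 : Reach (G ∩ ↑(RE a b c d)) (src o) (tgt o)
  · exact Or.inl h1
  · right
    obtain ⟨hs, ht⟩ := ends_RE ho
    have e1 : (G ∩ ↑(RE a b c d)) \ {o} = G ∩ ↑(RE a b c d) := by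
      rw [Set.sdiff_singleton_eq_self]
      exact fun h => hG h.1
    unfold A4
    rw [e1]
    refine ⟨?_, ?_, h1⟩
    · exact (stay hs h).resolve_right h1
    · exact (stay ht h.symm).resolve_right (fun h2 => h1 h2.symm)

theorem Pr_param {p p' : Edg → ℝ} {S : Finset Edg} (h : ∀ e ∈ S, p e = p' e)
    (A : Finset Edg → Prop) : Pr p S A = Pr p' S A := by
  unfold Pr Ex
  refine Finset.sum_congr rfl fun F hF => ?_
  rw [mem_powerset] at hF
  have h1 : ∏ e ∈ F, p e = ∏ e ∈ F, p' e := Finset.prod_congr rfl (fun e he => h e (hF he))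
  have h2 : ∏ e ∈ S \ F, (1 - p e) = ∏ e ∈ S \ F, (1 - p' e) :=
    Finset.prod_congr rfl (fun e he => by rw [h e (mem_sdiff.1 he).1])
  rw [h1, h2]

/-- the connection probability in a rectangle, off the edge -/
noncomputable def cr (o : Edg) (B : Finset Edg) (q : ℝ) : ℝ :=
  PQ q (B.erase o) (fun F => Reach (↑F : Set Edg) (src o) (tgt o))

theorem cr_nonneg {o : Edg} {B : Finset Edg} {q : ℝ} (h0 : 0 ≤ q) (h1 : q ≤ 1) : 0 ≤ cr o B q :=
  Pr_nonneg (okq h0 h1) _ _

theorem cr_le_one {o : Edg} {B : Finset Edg} {q : ℝ} (h0 : 0 ≤ q) (h1 : q ≤ 1) : cr o B q ≤ 1 :=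
  Pr_le_one (okq h0 h1) _ _

theorem cr_mono {o : Edg} {B B' : Finset Edg} (hB : B ⊆ B') {q : ℝ} (h0 : 0 ≤ q) (h1 : q ≤ 1) :
    cr o B q ≤ cr o B' q := by
  unfold cr PQ
  exact Pr_mono_set (okq h0 h1) (erase_subset_erase _ hB)
    (fun F G h _ hF => hF.mono (by exact_mod_cast h))

/-- comparison of the connection probabilities in two regions -/
theorem sandwich {a b c d : ℤ} {o : Edg} (ho : o ∈ RE a b c d) {U : Finset Edg}
    (hU : RE a b c d ⊆ U) {p : Edg → ℝ} (hp : Ok p) {q : ℝ} (hpq : ∀ e ∈ RE a b c d, p e = q) :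
    cr o (RE a b c d) q ≤ Pr p (U.erase o) (fun F => Reach (↑F : Set Edg) (src o) (tgt o)) ∧
    Pr p (U.erase o) (fun F => Reach (↑F : Set Edg) (src o) (tgt o)) ≤
      cr o (RE a b c d) q + PQ q (RE a b c d) (fun F => A4 a b c d o ↑F) := by
  have hsub : (RE a b c d).erase o ⊆ U.erase o := erase_subset_erase _ hU
  have e1 : cr o (RE a b c d) q = Pr p ((RE a b c d).erase o)
      (fun F => Reach (↑F : Set Edg) (src o) (tgt o)) :=
    Pr_param (fun e he => (hpq e (mem_of_mem_erase he)).symm) _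
  have hinter : ∀ F : Finset Edg, F ⊆ U.erase o →
      (↑(F ∩ (RE a b c d).erase o) : Set Edg) = (↑F : Set Edg) ∩ ↑(RE a b c d) := by
    intro F hF
    ext e
    simp only [coe_inter, coe_erase, Set.mem_inter_iff, mem_coe, Set.mem_sdiff,
      Set.mem_singleton_iff]
    constructor
    · rintro ⟨h1, h2, -⟩
      exact ⟨h1, h2⟩
    · rintro ⟨h1, h2⟩
      exact ⟨h1, h2, (mem_erase.1 (hF h1)).1⟩
  have e2 : Pr p (U.erase o) (fun F => Reach ((↑F : Set Edg) ∩ ↑(RE a b c d)) (src o) (tgt o)) =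
      cr o (RE a b c d) q := by
    rw [e1, Pr_local hsub (A := fun F => Reach ((↑F : Set Edg) ∩ ↑(RE a b c d)) (src o) (tgt o))]
    · apply Pr_congr
      intro F hF
      have : (↑F : Set Edg) ∩ ↑(RE a b c d) = ↑F := by
        rw [Set.inter_eq_left]
        intro e he
        exact mem_coe.2 (mem_of_mem_erase (hF (mem_coe.1 he)))
      rw [this]
    · intro F hF
      rw [← hinter F hF]
      have : (↑(F ∩ (RE a b c d).erase o) : Set Edg) ∩ ↑(RE a b c d) =
          ↑(F ∩ (RE a b c d).erase o) := by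
        rw [Set.inter_eq_left]
        intro e he
        exact mem_coe.2 (mem_of_mem_erase (mem_inter.1 (mem_coe.1 he)).2)
      rw [this]
  have e3 : Pr p (U.erase o) (fun F => A4 a b c d o (↑F : Set Edg)) =
      PQ q (RE a b c d) (fun F => A4 a b c d o ↑F) := by
    have hloc : ∀ F : Finset Edg, A4 a b c d o (↑F : Set Edg) ↔
        A4 a b c d o (↑(F ∩ (RE a b c d).erase o) : Set Edg) := by
      intro F
      have : ((↑(F ∩ (RE a b c d).erase o) : Set Edg) ∩ ↑(RE a b c d)) \ {o} =
          ((↑F : Set Edg) ∩ ↑(RE a b c d)) \ {o} := by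
        ext e
        simp only [coe_inter, coe_erase, Set.mem_inter_iff, mem_coe, Set.mem_sdiff,
          Set.mem_singleton_iff]
        tauto
      unfold A4
      rw [this]
    rw [Pr_local hsub (A := fun F => A4 a b c d o (↑F : Set Edg)) (fun F _ => hloc F)]
    unfold PQ
    rw [Pr_local (erase_subset o _) (A := fun F => A4 a b c d o (↑F : Set Edg))
      (fun F _ => hloc F)]
    exact Pr_param (fun e he => hpq e (mem_of_mem_erase he)) _
  constructor
  · rw [← e2]
    apply Pr_mono hp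
    intro F _ hF
    exact hF.mono Set.inter_subset_left
  · calc Pr p (U.erase o) (fun F => Reach (↑F : Set Edg) (src o) (tgt o))
        ≤ Pr p (U.erase o) (fun F => Reach ((↑F : Set Edg) ∩ ↑(RE a b c d)) (src o) (tgt o) ∨
          A4 a b c d o (↑F : Set Edg)) := by
          apply Pr_mono hp
          intro F hF h
          exact esc ho (fun h2 => (notMem_erase o U) (hF (mem_coe.1 h2))) h
      _ ≤ _ := by
          rw [← e2, ← e3]
          exact Pr_or_le hp _ _ _

/-- translation invariance -/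
theorem cr_trl (a b c d s t : ℤ) (o : Edg) (q : ℝ) :
    cr (o.1 + s, o.2.1 + t, o.2.2) (RE (a + s) (b + s) (c + t) (d + t)) q =
      cr o (RE a b c d) q := by
  have e1 : (RE (a + s) (b + s) (c + t) (d + t)).erase (o.1 + s, o.2.1 + t, o.2.2) =
      (trl s t).mp ((RE a b c d).erase o) := by
    rw [← trl_RE]
    ext e
    rw [mem_erase, LSym.mem_mp, LSym.mem_mp, mem_erase]
    refine and_congr ?_ Iff.rfl
    rw [Ne, Ne, not_iff_not]
    constructor
    · rintro rfl
      exact ((trl s t).φ.symm_apply_apply o)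
    · intro h
      have := congrArg (trl s t).φ h
      rw [Equiv.apply_symm_apply] at this
      rw [this]
      rfl
  unfold cr
  rw [e1]
  refine (LSym.pr _ _ _ _).trans ?_
  apply Pr_congr
  intro F _
  have h1 : src ((o.1 + s, o.2.1 + t, o.2.2) : Edg) = (trl s t).ψ (src o) := LP_src_trl s t o
  have h2 : tgt ((o.1 + s, o.2.1 + t, o.2.2) : Edg) = (trl s t).ψ (tgt o) := LP_tgt_trl s t o
  rw [h1, h2, LSym.coe_mp]
  exact (trl s t).reach_iff

end Pool.Agent.Q218.AL
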