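import Pool.Agent.Q218.AL.Kap

/-! The singularity of the mean cluster density at the critical point. -/

set_option autoImplicit false

namespace Pool.Agent.Q218.AL

open H974 H12S Finset Filter Topology MeasureTheory Asymptotics

theorem cr_mono_param {o : Edg} {B : Finset Edg} {q q' : ℝ} (h0 : 0 ≤ q) (h : q ≤ q')
    (h1 : q' ≤ 1) : cr o B q ≤ cr o B q' :=
  Pr_mono_param (okq h0 (h.trans h1)) (okq (h0.trans h) h1) (fun _ => h)
    (fun F G hFG _ hF => hF.mono (by exact_mod_cast hFG))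

theorem Tl_mono {β : Bool} {q q' : ℝ} (h0 : 0 ≤ q) (h : q ≤ q') (h1 : q' ≤ 1) :
    Tl β q ≤ Tl β q' :=
  ciSup_le fun n => (cr_mono_param h0 h h1).trans (cr_le_Tl (h0.trans h) h1 n)

theorem DD_anti : AntitoneOn DD (Set.Icc 0 1) := by
  intro x hx y hy hxy
  unfold DD TT
  have a1 := Tl_mono (β := true) hx.1 hxy hy.2
  have a2 := Tl_mono (β := false) hx.1 hxy hy.2
  linarith

theorem DD_bd {x : ℝ} (h0 : 0 ≤ x) (h1 : x ≤ 1) : 0 ≤ DD x ∧ DD x ≤ 2 := by
  unfold DD TT
  have a1 := Tl_le_one (β := true) h0 h1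
  have a2 := Tl_le_one (β := false) h0 h1
  have a3 := Tl_nonneg (β := true) h0 h1
  have a4 := Tl_nonneg (β := false) h0 h1
  constructor <;> linarith

theorem DD_int {a b : ℝ} (ha0 : 0 ≤ a) (ha1 : a ≤ 1) (hb0 : 0 ≤ b) (hb1 : b ≤ 1) :
    IntervalIntegrable DD volume a b := by
  apply AntitoneOn.intervalIntegrable
  intro x hx y hy hxy
  have h : Set.uIcc a b ⊆ Set.Icc 0 1 := by
    exact Set.uIcc_subset_Icc ⟨ha0, ha1⟩ ⟨hb0, hb1⟩
  exact DD_anti (h hx) (h hy) hxy

theorem DD_cont : ContinuousOn DD (Set.Icc (1 / 4) (3 / 4)) := by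
  unfold DD TT
  exact continuousOn_const.sub ((Tl_cont true).add (Tl_cont false))

theorem kap0_diff {p q : ℝ} (hp0 : 0 ≤ p) (hp1 : p ≤ 1) (hq0 : 0 ≤ q) (hq1 : q ≤ 1) :
    kap0 q - kap0 p = -∫ t in p..q, DD t := by
  unfold kap0
  have h := intervalIntegral.integral_add_adjacent_intervals
    (DD_int (a := 0) (b := p) le_rfl (by norm_num) hp0 hp1) (DD_int hp0 hp1 hq0 hq1)
  linarith

theorem kap0_deriv {p : ℝ} (hp : p ∈ Set.Ioo (1 / 4 : ℝ) (3 / 4)) :
    HasDerivAt kap0 (-(DD p)) p := by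
  have hcont : ContinuousOn DD (Set.Ioo (1 / 4) (3 / 4)) := DD_cont.mono Set.Ioo_subset_Icc_self
  have h := intervalIntegral.integral_hasDerivAt_right (a := 0) (b := p)
    (DD_int le_rfl (by norm_num) (by linarith [hp.1]) (by linarith [hp.2]))
    (hcont.stronglyMeasurableAtFilter isOpen_Ioo p hp)
    (hcont.continuousAt (isOpen_Ioo.mem_nhds hp))
  exact h.const_sub 1

/-- the local expansion of the derivative -/
theorem DD_exp : ∃ L C b : ℝ, 0 < b ∧ b ≤ 1 / 4 ∧ 0 ≤ C ∧ ∀ s : ℝ, |s| ≤ b →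
    |-(DD (1 / 2 + s)) - -(DD (1 / 2)) - s * L| ≤ C * |s| ^ (5 / 3 : ℝ) := by
  obtain ⟨L1, C1, b1, hb1, hb14, hC1, h1⟩ := local_exp true
  obtain ⟨L2, C2, b2, hb2, hb24, hC2, h2⟩ := local_exp false
  refine ⟨L1 + L2, C1 + C2, min b1 b2, lt_min hb1 hb2, (min_le_left _ _).trans hb14,
    add_nonneg hC1 hC2, ?_⟩
  intro s hs
  have g1 := h1 s (hs.trans (min_le_left _ _))
  have g2 := h2 s (hs.trans (min_le_right _ _))
  have e1 : -(DD (1 / 2 + s)) - -(DD (1 / 2)) - s * (L1 + L2) =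
      (Tl true (1 / 2 + s) - Tl true (1 / 2) - s * L1) +
        (Tl false (1 / 2 + s) - Tl false (1 / 2) - s * L2) := by
    unfold DD TT
    ring
  rw [e1]
  refine (abs_add_le _ _).trans ?_
  linarith

/-- **The mean cluster density is twice differentiable at the critical point, and the remainder of
the Taylor expansion of order two is at most of order `|p - 1/2|^(8/3)`.** -/
theorem main : ∃ C : ℝ,
    (∀ p ∈ Set.Ioo (1 / 4 : ℝ) (3 / 4), DifferentiableAt ℝ kap0 p) ∧
    ContinuousOn (deriv kap0) (Set.Ioo (1 / 4) (3 / 4)) ∧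
    DifferentiableAt ℝ (deriv kap0) (1 / 2) ∧
    (∀ p ∈ Set.Ioo (1 / 4 : ℝ) (3 / 4),
      |deriv kap0 p - deriv kap0 (1 / 2) - deriv (deriv kap0) (1 / 2) * (p - 1 / 2)| ≤
        C * |p - 1 / 2| ^ (5 / 3 : ℝ)) ∧
    (∀ p ∈ Set.Icc (0 : ℝ) 1,
      |kap0 p - kap0 (1 / 2) - deriv kap0 (1 / 2) * (p - 1 / 2) -
        1 / 2 * deriv (deriv kap0) (1 / 2) * (p - 1 / 2) ^ 2| ≤
        C * |p - 1 / 2| ^ (8 / 3 : ℝ)) := by
  obtain ⟨L, C, b, hb, hb4, hC, hexp⟩ := DD_exp
  have hhalf : (1 / 2 : ℝ) ∈ Set.Ioo (1 / 4 : ℝ) (3 / 4) := by constructor <;> norm_num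
  have hd : ∀ p ∈ Set.Ioo (1 / 4 : ℝ) (3 / 4), deriv kap0 p = -(DD p) :=
    fun p hp => (kap0_deriv hp).deriv
  have hdev : deriv kap0 =ᶠ[𝓝 (1 / 2)] fun p => -(DD p) := by
    filter_upwards [isOpen_Ioo.mem_nhds hhalf] with p hp
    exact hd p hp
  have hder : HasDerivAt (fun p => -(DD p)) L (1 / 2) := by
    rw [hasDerivAt_iff_isLittleO_nhds_zero]
    apply IsLittleO.of_bound
    intro c hc
    have hlim : Tendsto (fun h : ℝ => C * |h| ^ (2 / 3 : ℝ)) (𝓝 0) (𝓝 0) := by
      have h1 : Tendsto (fun h : ℝ => |h|) (𝓝 0) (𝓝 0) := by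
        have := (continuous_abs (G := ℝ)).tendsto 0
        rwa [abs_zero] at this
      have h2 := (h1.rpow_const (p := (2 / 3 : ℝ)) (Or.inr (by norm_num))).const_mul C
      rw [Real.zero_rpow (by norm_num), mul_zero] at h2
      exact h2
    have hb' : ∀ᶠ h : ℝ in 𝓝 0, |h| ≤ b := by
      have : Metric.closedBall (0:ℝ) b ∈ 𝓝 (0:ℝ) := Metric.closedBall_mem_nhds _ hb
      filter_upwards [this] with h hh
      rwa [Metric.mem_closedBall, dist_zero_right, Real.norm_eq_abs] at hh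
    filter_upwards [hb', hlim.eventually (gt_mem_nhds hc)] with h h1 h2
    rw [Real.norm_eq_abs, Real.norm_eq_abs, smul_eq_mul]
    rcases eq_or_ne h 0 with rfl | hne
    · simp
    have habs : 0 < |h| := abs_pos.2 hne
    refine (hexp h h1).trans ?_
    have e2 : |h| ^ (5 / 3 : ℝ) = |h| ^ (2 / 3 : ℝ) * |h| := by
      nth_rewrite 3 [← Real.rpow_one |h|]
      rw [← Real.rpow_add habs]
      norm_num
    rw [e2, ← mul_assoc]
    exact mul_le_mul_of_nonneg_right h2.le habs.le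
  have hder2 : HasDerivAt (deriv kap0) L (1 / 2) := hder.congr_of_eventuallyEq hdev
  have hL : deriv (deriv kap0) (1 / 2) = L := hder2.deriv
  have hd0 : deriv kap0 (1 / 2) = -(DD (1 / 2)) := hd _ hhalf
  -- far from the critical point
  obtain ⟨M, hM⟩ : ∃ M : ℝ, M = 8 + |L| := ⟨_, rfl⟩
  have hM0 : 0 ≤ M := by rw [hM]; positivity
  have hbp5 : 0 < b ^ (5 / 3 : ℝ) := by positivity
  have hbp8 : 0 < b ^ (8 / 3 : ℝ) := by positivity
  have h1C : C ≤ C + M / b ^ (5 / 3 : ℝ) + M / b ^ (8 / 3 : ℝ) := by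
    have h1 : 0 ≤ M / b ^ (5 / 3 : ℝ) := by positivity
    have h2 : 0 ≤ M / b ^ (8 / 3 : ℝ) := by positivity
    linarith
  refine ⟨C + M / b ^ (5 / 3 : ℝ) + M / b ^ (8 / 3 : ℝ), fun p hp => (kap0_deriv hp).differentiableAt, ?_,
    hder2.differentiableAt, ?_, ?_⟩
  · apply ContinuousOn.congr (f := fun p => -(DD p)) _ hd
    exact (DD_cont.mono Set.Ioo_subset_Icc_self).neg
  · intro p hp
    rw [hL, hd0, hd p hp]
    obtain ⟨s, hs⟩ : ∃ s : ℝ, s = p - 1 / 2 := ⟨_, rfl⟩
    have hp' : p = 1 / 2 + s := by rw [hs]; ring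
    rw [← hs, hp', mul_comm L s]
    rcases le_or_gt |s| b with h | h
    · refine (hexp s h).trans ?_
      exact mul_le_mul_of_nonneg_right h1C (by positivity)
    · have hs1 : |s| ≤ 1 := by
        rw [hs, abs_le]
        constructor <;> linarith [hp.1, hp.2]
      have a1 := DD_bd (x := 1 / 2 + s) (by rw [← hp']; linarith [hp.1])
        (by rw [← hp']; linarith [hp.2])
      have a2 := DD_bd (x := 1 / 2) (by norm_num) (by norm_num)
      have h2 : |-(DD (1 / 2 + s)) - -(DD (1 / 2)) - s * L| ≤ M := by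
        have h3 : |s * L| ≤ |L| := by
          rw [abs_mul]
          nlinarith [abs_nonneg L]
        have h4 : |-(DD (1 / 2 + s)) - -(DD (1 / 2))| ≤ 2 := by
          rw [abs_le]
          constructor <;> linarith [a1.1, a1.2, a2.1, a2.2]
        calc |-(DD (1 / 2 + s)) - -(DD (1 / 2)) - s * L| ≤
              |-(DD (1 / 2 + s)) - -(DD (1 / 2))| + |s * L| := abs_sub _ _
          _ ≤ M := by rw [hM]; linarith
      have h5 : b ^ (5 / 3 : ℝ) ≤ |s| ^ (5 / 3 : ℝ) := Real.rpow_le_rpow hb.le h.le (by norm_num)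
      have h6 : M ≤ M / b ^ (5 / 3 : ℝ) * |s| ^ (5 / 3 : ℝ) := by
        calc M = M / b ^ (5 / 3 : ℝ) * b ^ (5 / 3 : ℝ) := by field_simp
          _ ≤ _ := mul_le_mul_of_nonneg_left h5 (by positivity)
      have h7 : 0 ≤ (C + M / b ^ (8 / 3 : ℝ)) * |s| ^ (5 / 3 : ℝ) := by positivity
      linarith
  · intro p hp
    rw [hL, hd0]
    obtain ⟨s, hs⟩ : ∃ s : ℝ, s = p - 1 / 2 := ⟨_, rfl⟩
    have hp' : p = 1 / 2 + s := by rw [hs]; ring
    rw [← hs]
    have hdf := kap0_diff (p := 1 / 2) (q := p) (by norm_num) (by norm_num) hp.1 hp.2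
    have hbd : ∀ x ∈ Set.uIoc (1 / 2) p, 0 ≤ x ∧ x ≤ 1 ∧ |x - 1 / 2| ≤ |s| := by
      intro x hx
      have hx' : x ∈ Set.uIcc (1 / 2) p := Set.uIoc_subset_uIcc hx
      have h3 := Set.abs_sub_left_of_mem_uIcc hx'
      have h4 : Set.uIcc (1 / 2) p ⊆ Set.Icc 0 1 := by
        exact Set.uIcc_subset_Icc ⟨by norm_num, by norm_num⟩ hp
      have h5 := h4 hx'
      refine ⟨h5.1, h5.2, ?_⟩
      rw [hs]
      exact h3
    rcases le_or_gt |s| b with h | h
    · -- integration of the local expansion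
      have e1 : kap0 p - kap0 (1 / 2) - -(DD (1 / 2)) * s - 1 / 2 * L * s ^ 2 =
          ∫ x in (1 / 2 : ℝ)..p, (-(DD x) - -(DD (1 / 2)) - (x - 1 / 2) * L) := by
        have i1 : IntervalIntegrable (fun x => -(DD x)) volume (1 / 2) p :=
          (DD_int (by norm_num) (by norm_num) hp.1 hp.2).neg
        have i2 : IntervalIntegrable (fun _ : ℝ => -(DD (1 / 2))) volume (1 / 2) p :=
          intervalIntegrable_const
        have i3 : IntervalIntegrable (fun x : ℝ => (x - 1 / 2) * L) volume (1 / 2) p :=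
          (Continuous.intervalIntegrable (by fun_prop) _ _)
        rw [intervalIntegral.integral_sub (i1.sub i2) i3, intervalIntegral.integral_sub i1 i2,
          intervalIntegral.integral_neg, intervalIntegral.integral_const]
        have e2 : ∫ x in (1 / 2 : ℝ)..p, (x - 1 / 2) * L = 1 / 2 * L * s ^ 2 := by
          rw [intervalIntegral.integral_mul_const, intervalIntegral.integral_sub
            (Continuous.intervalIntegrable (by fun_prop) _ _) intervalIntegrable_const,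
            integral_id, intervalIntegral.integral_const, hs]
          simp only [smul_eq_mul]
          ring
        rw [e2, ← hdf, ← hs, smul_eq_mul]
        ring
      rw [e1]
      have h2 := intervalIntegral.norm_integral_le_of_norm_le_const (a := 1 / 2) (b := p)
        (f := fun x => -(DD x) - -(DD (1 / 2)) - (x - 1 / 2) * L) (C := C * |s| ^ (5 / 3 : ℝ)) (by
        intro x hx
        obtain ⟨-, -, h5⟩ := hbd x hx
        have h6 := hexp (x - 1 / 2) (h5.trans h)
        have h7 : (1:ℝ) / 2 + (x - 1 / 2) = x := by ring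
        rw [h7] at h6
        rw [Real.norm_eq_abs]
        refine h6.trans (mul_le_mul_of_nonneg_left ?_ hC)
        exact Real.rpow_le_rpow (abs_nonneg _) h5 (by norm_num))
      rw [Real.norm_eq_abs, ← hs] at h2
      refine h2.trans ?_
      rcases eq_or_ne s 0 with hs0 | hs0
      · rw [hs0]
        simp
      have habs : 0 < |s| := abs_pos.2 hs0
      have e3 : |s| ^ (5 / 3 : ℝ) * |s| = |s| ^ (8 / 3 : ℝ) := by
        nth_rewrite 2 [← Real.rpow_one |s|]
        rw [← Real.rpow_add habs]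
        norm_num
      rw [mul_assoc, e3]
      exact mul_le_mul_of_nonneg_right h1C (by positivity)
    · have hs1 : |s| ≤ 1 := by
        rw [hs, abs_le]
        constructor <;> linarith [hp.1, hp.2]
      have a2 := DD_bd (x := 1 / 2) (by norm_num) (by norm_num)
      have h2 : |kap0 p - kap0 (1 / 2)| ≤ 2 := by
        rw [hdf, abs_neg]
        have h3 := intervalIntegral.norm_integral_le_of_norm_le_const (a := 1 / 2) (b := p)
          (f := DD) (C := 2) (by
          intro x hx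
          obtain ⟨h4, h5, -⟩ := hbd x hx
          have h6 := DD_bd h4 h5
          rw [Real.norm_eq_abs, abs_le]
          constructor <;> linarith [h6.1, h6.2])
        rw [Real.norm_eq_abs, ← hs] at h3
        linarith
      have h3 : |kap0 p - kap0 (1 / 2) - -(DD (1 / 2)) * s - 1 / 2 * L * s ^ 2| ≤ M := by
        have h4 : |-(DD (1 / 2)) * s| ≤ 2 := by
          rw [abs_mul, abs_neg, abs_of_nonneg a2.1]
          nlinarith [a2.2, a2.1, abs_nonneg s]
        have h5 : |1 / 2 * L * s ^ 2| ≤ |L| := by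
          rw [abs_mul, abs_mul, abs_of_nonneg (by norm_num : (0:ℝ) ≤ 1 / 2), abs_pow]
          have : |s| ^ 2 ≤ 1 := by nlinarith [abs_nonneg s]
          nlinarith [abs_nonneg L]
        calc |kap0 p - kap0 (1 / 2) - -(DD (1 / 2)) * s - 1 / 2 * L * s ^ 2| ≤
              |kap0 p - kap0 (1 / 2) - -(DD (1 / 2)) * s| + |1 / 2 * L * s ^ 2| := abs_sub _ _
          _ ≤ (|kap0 p - kap0 (1 / 2)| + |-(DD (1 / 2)) * s|) + |1 / 2 * L * s ^ 2| := by
              have := abs_sub (kap0 p - kap0 (1 / 2)) (-(DD (1 / 2)) * s)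
              linarith
          _ ≤ M := by rw [hM]; linarith
      have h5 : b ^ (8 / 3 : ℝ) ≤ |s| ^ (8 / 3 : ℝ) := Real.rpow_le_rpow hb.le h.le (by norm_num)
      have h6 : M ≤ M / b ^ (8 / 3 : ℝ) * |s| ^ (8 / 3 : ℝ) := by
        calc M = M / b ^ (8 / 3 : ℝ) * b ^ (8 / 3 : ℝ) := by field_simp
          _ ≤ _ := mul_le_mul_of_nonneg_left h5 (by positivity)
      have h7 : 0 ≤ (C + M / b ^ (5 / 3 : ℝ)) * |s| ^ (8 / 3 : ℝ) := by positivity
      linarith

end Pool.Agent.Q218.AL
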