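import Pool.Agent.Q218.AL.Clu

/-! The mean cluster density. -/

set_option autoImplicit false

namespace Pool.Agent.Q218.AL

open H974 H12S Finset Filter Topology MeasureTheory

/-- sum of the two connection probabilities -/
noncomputable def TT (q : ℝ) : ℝ := Tl true q + Tl false q

/-- minus the derivative of the density -/
noncomputable def DD (q : ℝ) : ℝ := 2 - TT q

/-- the density -/
noncomputable def kap0 (p : ℝ) : ℝ := 1 - ∫ t in (0:ℝ)..p, DD t

theorem cr_ebox (x y : ℤ) (β : Bool) (n : ℕ) (q : ℝ) :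
    cr (x, y, β) (ebox n) q =
      cr (e0 β) (RE (-x) ((n:ℤ) - 1 - x) (-y) ((n:ℤ) - 1 - y)) q := by
  have h := cr_trl (-x) ((n:ℤ) - 1 - x) (-y) ((n:ℤ) - 1 - y) x y (e0 β) q
  have e1 : ((e0 β).1 + x, (e0 β).2.1 + y, (e0 β).2.2) = ((x, y, β) : Edg) := by
    unfold e0
    simp
  have e2 : RE (-x + x) ((n:ℤ) - 1 - x + x) (-y + y) ((n:ℤ) - 1 - y + y) = ebox n := by
    rw [ebox_eq]
    congr 1 <;> ring
  rw [e1, e2] at h
  exact h

theorem sum_cr_le {n : ℕ} {q : ℝ} (h0 : 0 ≤ q) (h1 : q ≤ 1) :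
    ∑ e ∈ ebox n, cr e (ebox n) q ≤ (n:ℝ) ^ 2 * TT q := by
  have hsub : ebox n ⊆ Finset.Ico (0:ℤ) n ×ˢ (Finset.Ico (0:ℤ) n ×ˢ Finset.univ) :=
    Finset.filter_subset _ _
  calc ∑ e ∈ ebox n, cr e (ebox n) q ≤ ∑ e ∈ ebox n, Tl e.2.2 q := by
        apply sum_le_sum
        rintro ⟨x, y, β⟩ he
        rw [cr_ebox]
        have h := mem_ebox.1 he
        unfold vbox at h
        rw [mem_product, mem_Ico, mem_Ico] at h
        simp only [src_mk] at h
        refine (cr_mono ?_ h0 h1).trans (cr_le_Tl h0 h1 n)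
        unfold boxE
        apply RE_subset <;> omega
    _ ≤ ∑ e ∈ Finset.Ico (0:ℤ) n ×ˢ (Finset.Ico (0:ℤ) n ×ˢ (Finset.univ : Finset Bool)),
        Tl e.2.2 q :=
        sum_le_sum_of_subset_of_nonneg hsub (fun e _ _ => Tl_nonneg h0 h1)
    _ = (n:ℝ) ^ 2 * TT q := by
        rw [sum_product]
        simp only [sum_product, sum_const, Int.card_Ico, Fintype.sum_bool, nsmul_eq_mul]
        unfold TT
        simp
        ring

theorem inner_sub {n k : ℕ} (hk : 1 ≤ k) :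
    Finset.Ico (k:ℤ) (n - k) ×ˢ (Finset.Ico (k:ℤ) (n - k) ×ˢ (Finset.univ : Finset Bool)) ⊆
      ebox n := by
  rintro ⟨x, y, β⟩ he
  rw [mem_product, mem_product, mem_Ico, mem_Ico] at he
  simp only at he
  rw [mem_ebox]
  unfold vbox
  rw [mem_product, mem_product, mem_Ico, mem_Ico, mem_Ico, mem_Ico]
  cases β
  · simp only [src_mk, tgt_false]
    omega
  · simp only [src_mk, tgt_true]
    omega

theorem sum_cr_ge {n k : ℕ} (hk : 1 ≤ k) (hn : 2 * k ≤ n) {q : ℝ} (h0 : 0 ≤ q) (h1 : q ≤ 1) :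
    ((n:ℝ) - 2 * k) ^ 2 * (cr (e0 true) (boxE k) q + cr (e0 false) (boxE k) q) ≤
      ∑ e ∈ ebox n, cr e (ebox n) q := by
  calc ((n:ℝ) - 2 * k) ^ 2 * (cr (e0 true) (boxE k) q + cr (e0 false) (boxE k) q) =
        ∑ e ∈ Finset.Ico (k:ℤ) (n - k) ×ˢ (Finset.Ico (k:ℤ) (n - k) ×ˢ (Finset.univ : Finset Bool)),
        cr (e0 e.2.2) (boxE k) q := by
        rw [sum_product]
        simp only [sum_product, sum_const, Int.card_Ico, Fintype.sum_bool, nsmul_eq_mul]
        have e1 : (((n:ℤ) - k - k).toNat : ℝ) = (n:ℝ) - 2 * k := by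
          have : ((n:ℤ) - k - k).toNat = n - 2 * k := by omega
          rw [this]
          push_cast [hn]
          ring
        rw [e1]
        ring
    _ ≤ ∑ e ∈ Finset.Ico (k:ℤ) (n - k) ×ˢ (Finset.Ico (k:ℤ) (n - k) ×ˢ
        (Finset.univ : Finset Bool)), cr e (ebox n) q := by
        apply sum_le_sum
        rintro ⟨x, y, β⟩ he
        rw [mem_product, mem_product, mem_Ico, mem_Ico] at he
        simp only at he
        rw [cr_ebox]
        refine cr_mono ?_ h0 h1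
        unfold boxE
        apply RE_subset <;> omega
    _ ≤ ∑ e ∈ ebox n, cr e (ebox n) q :=
        sum_le_sum_of_subset_of_nonneg (inner_sub hk) (fun e _ _ => cr_nonneg h0 h1)

theorem card_ebox_le (n : ℕ) : ((ebox n).card : ℝ) ≤ 2 * (n:ℝ) ^ 2 := by
  have h : (ebox n).card ≤ n * (n * 2) := by
    refine (Finset.card_filter_le _ _).trans ?_
    rw [card_product, card_product, Int.card_Ico]
    simp
  have h2 : ((ebox n).card : ℝ) ≤ ((n * (n * 2) : ℕ) : ℝ) := by exact_mod_cast h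
  refine h2.trans (le_of_eq ?_)
  push_cast
  ring

theorem card_ebox_ge {n k : ℕ} (hk : 1 ≤ k) (hn : 2 * k ≤ n) :
    2 * ((n:ℝ) - 2 * k) ^ 2 ≤ ((ebox n).card : ℝ) := by
  have h := card_le_card (inner_sub (n := n) hk)
  rw [card_product, card_product, Int.card_Ico] at h
  have e1 : ((n:ℤ) - k - k).toNat = n - 2 * k := by omega
  rw [e1] at h
  have h2 : (((n - 2 * k) * ((n - 2 * k) * (Finset.univ : Finset Bool).card) : ℕ) : ℝ) ≤
      ((ebox n).card : ℝ) := by exact_mod_cast h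
  refine le_trans (le_of_eq ?_) h2
  push_cast [hn]
  simp
  ring

theorem dcl_eq (n : ℕ) (q : ℝ) :
    dcl n q = ((ebox n).card : ℝ) - ∑ e ∈ ebox n, cr e (ebox n) q := by
  unfold dcl
  rw [sum_sub_distrib, sum_const, nsmul_eq_mul, mul_one]

theorem dcl_nonneg {n : ℕ} {q : ℝ} (h0 : 0 ≤ q) (h1 : q ≤ 1) : 0 ≤ dcl n q :=
  sum_nonneg (fun e _ => by linarith [cr_le_one (o := e) (B := ebox n) h0 h1])

theorem dcl_le {n : ℕ} {q : ℝ} (h0 : 0 ≤ q) (h1 : q ≤ 1) : dcl n q ≤ 2 * (n:ℝ) ^ 2 := by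
  rw [dcl_eq]
  have := card_ebox_le n
  have h2 : 0 ≤ ∑ e ∈ ebox n, cr e (ebox n) q := sum_nonneg (fun e _ => cr_nonneg h0 h1)
  linarith

theorem Tk_tendsto {q : ℝ} (h0 : 0 ≤ q) (h1 : q ≤ 1) :
    Tendsto (fun k => cr (e0 true) (boxE k) q + cr (e0 false) (boxE k) q) atTop (𝓝 (TT q)) := by
  have h : ∀ β : Bool, Tendsto (fun k => cr (e0 β) (boxE k) q) atTop (𝓝 (Tl β q)) := by
    intro β
    apply tendsto_atTop_ciSup _ (Tl_bdd h0 h1)
    intro m n hmn
    exact cr_mono (boxE_mono hmn) h0 h1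
  exact (h true).add (h false)

theorem dcl_tendsto {q : ℝ} (h0 : 0 ≤ q) (h1 : q ≤ 1) :
    Tendsto (fun n : ℕ => dcl n q / (n:ℝ) ^ 2) atTop (𝓝 (DD q)) := by
  rw [Metric.tendsto_atTop]
  intro ε hε
  obtain ⟨K, hK⟩ := Metric.tendsto_atTop.1 (Tk_tendsto h0 h1) (ε / 2) (by linarith)
  obtain ⟨k, hk⟩ : ∃ k, k = K + 1 := ⟨_, rfl⟩
  have hkK := hK k (by omega)
  rw [Real.dist_eq] at hkK
  obtain ⟨Tk, hTk⟩ : ∃ Tk : ℝ, Tk = cr (e0 true) (boxE k) q + cr (e0 false) (boxE k) q := ⟨_, rfl⟩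
  rw [← hTk] at hkK
  have hTk0 : 0 ≤ Tk := by rw [hTk]; exact add_nonneg (cr_nonneg h0 h1) (cr_nonneg h0 h1)
  have hTk2 : Tk ≤ 2 := by
    rw [hTk]
    have a1 := cr_le_one (o := e0 true) (B := boxE k) h0 h1
    have a2 := cr_le_one (o := e0 false) (B := boxE k) h0 h1
    linarith
  obtain ⟨N, hN⟩ := exists_nat_gt (16 * k / ε)
  refine ⟨N + 2 * k + 1, fun n hn => ?_⟩
  have hn2 : 2 * k ≤ n := by omega
  have hn0 : (0:ℝ) < n := by
    have : 0 < n := by omega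
    exact_mod_cast this
  have hnN : (N:ℝ) ≤ n := by exact_mod_cast (by omega : N ≤ n)
  have hsmall : 16 * (k:ℝ) < ε * n := by
    rw [div_lt_iff₀ hε] at hN
    nlinarith
  have l1 := sum_cr_le (n := n) h0 h1
  have l2 := sum_cr_ge (n := n) (k := k) (by omega) hn2 h0 h1
  rw [← hTk] at l2
  have l3 := card_ebox_le n
  have l4 := card_ebox_ge (n := n) (k := k) (by omega) hn2
  have hk0 : (0:ℝ) ≤ k := Nat.cast_nonneg k
  have hT := abs_lt.1 hkK
  rw [Real.dist_eq, abs_lt, dcl_eq]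
  unfold DD
  have hn20 : 0 < (n:ℝ) ^ 2 := by positivity
  constructor
  · rw [lt_sub_iff_add_lt, lt_div_iff₀ hn20]
    nlinarith [mul_nonneg hk0 hn0.le]
  · rw [sub_lt_iff_lt_add, div_lt_iff₀ hn20]
    have e1 : ((n:ℝ) - 2 * k) ^ 2 * Tk ≥ ((n:ℝ) ^ 2 - 4 * k * n) * Tk := by
      apply mul_le_mul_of_nonneg_right _ hTk0
      nlinarith
    have e2 : 4 * (k:ℝ) * n * Tk ≤ 8 * k * n := by nlinarith [mul_nonneg hk0 hn0.le]
    have e3 : 8 * (k:ℝ) * n < ε / 2 * (n:ℝ) ^ 2 := by nlinarith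
    have e4 : (TT q - ε / 2) * (n:ℝ) ^ 2 < Tk * (n:ℝ) ^ 2 := by
      apply mul_lt_mul_of_pos_right _ hn20
      linarith
    nlinarith

theorem dcl_cont (n : ℕ) : Continuous (dcl n) := by
  unfold dcl
  exact continuous_finsetSum _ (fun e _ => continuous_const.sub (cr_continuous _ _))

theorem mcl_eq {n : ℕ} (hn : 1 ≤ n) (p : ℝ) :
    mcl n p / (n:ℝ) ^ 2 = 1 - ∫ t in (0:ℝ)..p, dcl n t / (n:ℝ) ^ 2 := by
  have hn0 : (0:ℝ) < n := by exact_mod_cast hn
  have h := intervalIntegral.integral_eq_sub_of_hasDerivAt (a := 0) (b := p)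
    (fun x _ => mcl_deriv n x) ((dcl_cont n).neg.intervalIntegrable 0 p)
  rw [intervalIntegral.integral_neg, mcl_zero] at h
  rw [intervalIntegral.integral_div]
  have h2 : ∫ t in (0:ℝ)..p, dcl n t = (n:ℝ) ^ 2 - mcl n p := by linarith
  rw [h2]
  field_simp
  ring

theorem kap0_tendsto {p : ℝ} (h0 : 0 ≤ p) (h1 : p ≤ 1) :
    Tendsto (fun n : ℕ => mcl n p / (n:ℝ) ^ 2) atTop (𝓝 (kap0 p)) := by
  have hlim : Tendsto (fun n : ℕ => ∫ t in (0:ℝ)..p, dcl n t / (n:ℝ) ^ 2) atTop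
      (𝓝 (∫ t in (0:ℝ)..p, DD t)) := by
    apply intervalIntegral.tendsto_integral_filter_of_dominated_convergence (fun _ => (2:ℝ))
    · exact Filter.Eventually.of_forall
        (fun n => ((dcl_cont n).div_const _).aestronglyMeasurable)
    · filter_upwards [eventually_ge_atTop 1] with n hn
      refine Filter.Eventually.of_forall (fun x hx => ?_)
      rw [Set.uIoc_of_le h0] at hx
      have hn0 : (0:ℝ) < n := by exact_mod_cast hn
      have a1 := dcl_nonneg (n := n) (q := x) hx.1.le (hx.2.trans h1)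
      have a2 := dcl_le (n := n) (q := x) hx.1.le (hx.2.trans h1)
      rw [Real.norm_of_nonneg (by positivity), div_le_iff₀ (by positivity)]
      exact a2
    · exact intervalIntegrable_const
    · refine Filter.Eventually.of_forall (fun x hx => ?_)
      rw [Set.uIoc_of_le h0] at hx
      exact dcl_tendsto hx.1.le (hx.2.trans h1)
  have h2 := hlim.const_sub 1
  refine h2.congr' ?_
  filter_upwards [eventually_ge_atTop 1] with n hn
  exact (mcl_eq hn p).symm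

end Pool.Agent.Q218.AL
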