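import Pool.Agent.Q218.AL.Out

/-! The bound for a `t`-connected set: see `Pool.Agent.Y968.NE.Key`. -/

set_option autoImplicit false

namespace Pool.Agent.Q218.AL

open H974 H12S H389NS Finset
open Pool.Agent.Y554.NE (ds dm nb conn cap pos cap_mul dm_le_of dm_mono dm_union)
open Pool.Agent.Y239.NE.Out (blk_sub mem_blk_of ds_le_dm pos_le)
open Pool.Agent.Y968.NE (ds_comm ds_zero ds_self cmp cmp_sub mem_cmp self_cmp cmp_step cmp_far
  cmp_ind cmp_conn)

/-- Growth from the component of the root. -/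
theorem grow {o : Edg} {a : ℝ} {n t : ℕ} {S : Finset Edg} {x : Edg} (ha : 1 ≤ a) (ha3 : 72 ≤ a)
    (hx : x ∈ S) (hc : conn (t + 1) S) (hall : cmp t S x ≠ S)
    (hcmp : ∀ b ∈ S, Gd False o n t (t + 1) (max t (dm (cmp t S b))) a
      (4 * (cmp t S b).card - 3) (cmp t S b) b) :
    Gd True o n t (t + 1) (max (t + 1) (dm S)) a (4 * S.card - 4) S x := by
  classical
  have grow : ∀ m : ℕ, ∀ U : Finset Edg, (S \ U).card = m → U ⊆ S → U ≠ S → x ∈ U →
      (∀ y ∈ U, ∀ z ∈ S, z ∉ U → t < ds y z) →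
      Gd False o n t (t + 1) (max (t + 1) (dm U)) a (4 * U.card - 2) U x →
      Gd True o n t (t + 1) (max (t + 1) (dm S)) a (4 * S.card - 4) S x := by
    intro m
    induction m using Nat.strong_induction_on with
    | _ m ihm =>
      intro U hUm hUS hUne hxU hcl hG
      have hne : (S \ U).Nonempty := by
        rw [Finset.sdiff_nonempty]
        intro h
        exact hUne (Finset.Subset.antisymm hUS h)
      obtain ⟨u, hu, b, hb', hub⟩ := hc U hUS ⟨x, hxU⟩ hne
      obtain ⟨hbS, hbU⟩ := Finset.mem_sdiff.1 hb'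
      have hRS := cmp_sub t S b
      have hbR : b ∈ cmp t S b := self_cmp hbS
      have hRU : ∀ z ∈ cmp t S b, z ∉ U := by
        refine cmp_ind hbS hbU ?_
        intro v hv w hw hvU hvw hwU
        have := hcl w hwU v (hRS hv) hvU
        rw [ds_comm] at this
        omega
      have hdisj : Disjoint U (cmp t S b) := by
        rw [Finset.disjoint_right]
        exact hRU
      have hfar : ∀ v ∈ U, ∀ w ∈ cmp t S b, t < ds v w := fun v hv w hw =>
        hcl v hv w (hRS hw) (hRU w hw)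
      have hM := merge ha3 hxU hu hbR (by rw [ds_comm]; exact hub) hfar hG (hcmp b hbS)
      have hcard : (U ∪ cmp t S b).card = U.card + (cmp t S b).card :=
        Finset.card_union_of_disjoint hdisj
      have hc1 : 1 ≤ U.card := Finset.card_pos.2 ⟨x, hxU⟩
      have hc2 : 1 ≤ (cmp t S b).card := Finset.card_pos.2 ⟨b, hbR⟩
      have e : 4 * U.card - 2 + (4 * (cmp t S b).card - 3) + 1 =
          4 * (U ∪ cmp t S b).card - 4 := by omega
      rw [e] at hM
      have hU'S : U ∪ cmp t S b ⊆ S := Finset.union_subset hUS hRS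
      by_cases hfin : U ∪ cmp t S b = S
      · rw [hfin] at hM
        exact hM
      · refine ihm (S \ (U ∪ cmp t S b)).card ?_ (U ∪ cmp t S b) rfl hU'S hfin
          (Finset.mem_union_left _ hxU) ?_ (gd_mono hM.weak le_rfl (by omega) ha)
        · rw [← hUm]
          apply Finset.card_lt_card
          rw [Finset.ssubset_iff_of_subset
            (Finset.sdiff_subset_sdiff (Finset.Subset.refl S) Finset.subset_union_left)]
          exact ⟨b, hb', fun h => (Finset.mem_sdiff.1 h).2 (Finset.mem_union_right _ hbR)⟩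
        · intro y hy z hz hzn
          rw [Finset.mem_union, not_or] at hzn
          rcases Finset.mem_union.1 hy with hy | hy
          · exact hcl y hy z hz hzn.1
          · exact cmp_far hy hz hzn.2
  have h1 := start (by linarith) (hcmp x hx)
  have hc1 : 1 ≤ (cmp t S x).card := Finset.card_pos.2 ⟨x, self_cmp hx⟩
  have e1 : 4 * (cmp t S x).card - 3 + 1 = 4 * (cmp t S x).card - 2 := by omega
  rw [e1] at h1
  exact grow _ (cmp t S x) rfl (cmp_sub t S x) hall (self_cmp hx)
    (fun y hy z hz hzn => cmp_far hy hz hzn) h1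

/-- KEY, for proper parts. -/
theorem key : ∃ a : ℝ, 144 ≤ a ∧ ∀ (o : Edg) (n t t' : ℕ) (S : Finset Edg) (x : Edg),
    t ≤ t' → t' ≤ n → S ⊆ boxE n → x ∈ S → conn t S →
    Gd False o n t' t (max t' (dm S)) a (4 * S.card - 3) S x := by
  classical
  obtain ⟨C1, hC1, hb⟩ := base
  obtain ⟨C4, hC4, ho⟩ := out
  obtain ⟨a, ha1, ha3, ha4⟩ : ∃ a : ℝ, C1 ≤ a ∧ 144 ≤ a ∧ C4 ≤ a :=
    ⟨max C1 (max 144 C4), le_max_left _ _, (le_max_left _ _).trans (le_max_right _ _),
      (le_max_right _ _).trans (le_max_right _ _)⟩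
  have ha : 1 ≤ a := hC1.trans ha1
  refine ⟨a, ha3, ?_⟩
  intro o n t
  induction t with
  | zero =>
    intro t' S x _ ht' hS hx hc
    have h0 : ∀ y ∈ S, ds y x = 0 := by
      by_contra hcon
      push Not at hcon
      obtain ⟨z, hz, hzx⟩ := hcon
      obtain ⟨u, hu, v, hv, huv⟩ := hc (S.filter (fun y => ds y x = 0)) (Finset.filter_subset _ _)
        ⟨x, Finset.mem_filter.2 ⟨hx, ds_self x⟩⟩
        ⟨z, Finset.mem_sdiff.2 ⟨hz, fun h => hzx (Finset.mem_filter.1 h).2⟩⟩
      rw [Finset.mem_filter] at hu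
      rw [Finset.mem_sdiff, Finset.mem_filter] at hv
      exact hv.2 ⟨hv.1, ds_zero (Nat.le_zero.1 huv) hu.2⟩
    have hcard : 1 ≤ S.card := Finset.card_pos.2 ⟨x, hx⟩
    exact gd_mono (hb o a n t' S x ha1 ht' hS hx h0) le_rfl (by omega) ha
  | succ t ih =>
    intro t' S x htt' ht' hS hx hc
    by_cases hall : cmp t S x = S
    · have hct : conn t S := by
        rw [← hall]
        exact cmp_conn hx
      exact gd_mono (ih t' S x (by omega) ht' hS hx hct) (Nat.le_succ t) le_rfl ha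
    · have hcmp : ∀ b ∈ S, Gd False o n t (t + 1) (max t (dm (cmp t S b))) a
          (4 * (cmp t S b).card - 3) (cmp t S b) b := by
        intro b hb'
        exact gd_mono (ih t (cmp t S b) b le_rfl (by omega) ((cmp_sub t S b).trans hS)
          (self_cmp hb') (cmp_conn hb')) (Nat.le_succ t) le_rfl ha
      have h2 := grow ha (by linarith) hx hc hall hcmp
      have h3 := ho o a n t t' _ S x ha4 htt' ht' hS hx h2.weak
      have hc3 : 1 ≤ S.card := Finset.card_pos.2 ⟨x, hx⟩
      exact gd_mono h3 le_rfl (by omega) ha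

/-- The bound for the whole jointly pivotal set. -/
theorem whole : ∃ a : ℝ, 1 ≤ a ∧ ∀ (o : Edg) (n : ℕ) (S : Finset Edg),
    S ⊆ boxE n → o ∈ S → (∀ y ∈ S, ds y o ≤ n) → (∃ y ∈ S, ds y o ≠ 0) →
    ∃ (par : Edg → Edg) (rk : Edg → ℕ),
      (∀ y ∈ S, y ≠ o → par y ∈ S ∧ rk (par y) < rk y ∧ ds y (par y) ≤ dm S) ∧
      PQ (1 / 2) ((boxE (2 * n)).erase o) (Qp o S) ≤
        a ^ (4 * S.card) * (∏ y ∈ S.erase o, ps n (ds y (par y))) * ps n (dm S) := by
  classical
  obtain ⟨a, ha, hkey⟩ := key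
  refine ⟨a, by linarith, ?_⟩
  intro o n S hS ho hn hne
  -- the threshold
  have hconn : conn n S := by
    intro A hA hAne hBne
    by_cases hoA : o ∈ A
    · obtain ⟨z, hz⟩ := hBne
      exact ⟨o, hoA, z, hz, by rw [ds_comm]; exact hn z (mem_sdiff.1 hz).1⟩
    · obtain ⟨z, hz⟩ := hAne
      exact ⟨z, hz, o, mem_sdiff.2 ⟨ho, hoA⟩, hn z (hA hz)⟩
  have hex : ∃ t, conn t S := ⟨n, hconn⟩
  obtain ⟨t1, ht1⟩ : ∃ t1, t1 = Nat.find hex := ⟨_, rfl⟩
  have hc1 : conn t1 S := by rw [ht1]; exact Nat.find_spec hex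
  have hmin : ∀ t < t1, ¬ conn t S := by
    intro t ht
    rw [ht1] at ht
    exact Nat.find_min hex ht
  have ht1n : t1 ≤ n := by rw [ht1]; exact Nat.find_min' hex hconn
  have ht1pos : t1 ≠ 0 := by
    intro h0
    rw [h0] at hc1
    obtain ⟨z, hz, hz0⟩ := hne
    obtain ⟨u, hu, v, hv, huv⟩ := hc1 (S.filter (fun y => ds y o = 0)) (Finset.filter_subset _ _)
      ⟨o, Finset.mem_filter.2 ⟨ho, ds_self o⟩⟩
      ⟨z, Finset.mem_sdiff.2 ⟨hz, fun h => hz0 (Finset.mem_filter.1 h).2⟩⟩
    rw [Finset.mem_filter] at hu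
    rw [Finset.mem_sdiff, Finset.mem_filter] at hv
    exact hv.2 ⟨hv.1, ds_zero (Nat.le_zero.1 huv) hu.2⟩
  obtain ⟨t, rfl⟩ : ∃ t, t1 = t + 1 := ⟨t1 - 1, by omega⟩
  have hall : cmp t S o ≠ S := by
    intro h
    apply hmin t (by omega)
    rw [← h]
    exact cmp_conn ho
  have hcmp : ∀ b ∈ S, Gd False o n t (t + 1) (max t (dm (cmp t S b))) a
      (4 * (cmp t S b).card - 3) (cmp t S b) b := by
    intro b hb'
    exact gd_mono (hkey o n t t (cmp t S b) b le_rfl (by omega) ((cmp_sub t S b).trans hS)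
      (self_cmp hb') (cmp_conn hb')) (Nat.le_succ t) le_rfl (by linarith)
  obtain ⟨Ev, par, rk, h1, h2, h3, h4⟩ := grow (by linarith) (by linarith) ho hc1 hall hcmp
  -- the diameter
  have hdm : t + 1 ≤ dm S := by
    by_contra hcon
    apply hmin t (by omega)
    intro A hA hAne hBne
    obtain ⟨y, hy⟩ := hAne
    obtain ⟨z, hz⟩ := hBne
    have := ds_le_dm (hA hy) (mem_sdiff.1 hz).1
    exact ⟨y, hy, z, hz, by omega⟩
  rw [max_eq_right hdm] at h4
  refine ⟨par, rk, fun y hy hyo => ?_, ?_⟩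
  · obtain ⟨g1, g2, g3⟩ := h3 y hy hyo
    exact ⟨g1, g2, g3.trans hdm⟩
  have hok : Ok (fun _ : Edg => (1 / 2 : ℝ)) := fun _ => by norm_num
  calc PQ (1 / 2) ((boxE (2 * n)).erase o) (Qp o S)
      ≤ PQ (1 / 2) ((boxE (2 * n)).erase o) Ev := by
        apply Pr_mono hok
        intro F hF hQ
        refine h2 S (Finset.Subset.refl _) hS (Or.inl trivial) ?_ F
          (hF.trans (Finset.erase_subset _ _)) hQ
        intro v _ w hw
        rw [Finset.sdiff_self] at hw
        exact absurd hw (Finset.notMem_empty w)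
    _ = PQ (1 / 2) (boxE (2 * n)) Ev := by
        refine (Pr_local (Finset.erase_subset _ _) ?_).symm
        intro F hF
        apply h1
        ext e
        simp only [mem_inter, mem_sdiff, mem_erase]
        constructor
        · rintro ⟨g1, g2, g3⟩
          refine ⟨⟨g1, ?_, hF g1⟩, g2, g3⟩
          rintro rfl
          exact g3 ho
        · rintro ⟨⟨g1, -⟩, g2⟩
          exact ⟨g1, g2⟩
    _ ≤ a ^ (4 * S.card - 4) * (∏ y ∈ S.erase o, ps n (ds y (par y))) * ps n (dm S) := h4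
    _ ≤ _ := by
        refine mul_le_mul_of_nonneg_right ?_ (ps_pos _ _).le
        refine mul_le_mul_of_nonneg_right ?_ (Finset.prod_nonneg fun _ _ => (ps_pos _ _).le)
        exact pow_le_pow_right₀ (by linarith) (by omega)

end Pool.Agent.Q218.AL
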