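import Pool.Agent.Q218.AL.Esc
import Pool.Agent.Q218.AL.Ana
import Pool.Agent.W424.NC.NearC

/-! The connection probability in the plane: local expansion at the critical point, and
continuity. -/

set_option autoImplicit false

namespace Pool.Agent.Q218.AL

open H974 H12S Finset Filter Topology
open Pool.Agent.Y554.NE (pos)

/-- the connection probability of the ends of `e0 β` off `e0 β`, in the plane -/
noncomputable def Tl (β : Bool) (q : ℝ) : ℝ := ⨆ n : ℕ, cr (e0 β) (boxE n) q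

theorem Tl_bdd {β : Bool} {q : ℝ} (h0 : 0 ≤ q) (h1 : q ≤ 1) :
    BddAbove (Set.range (fun n => cr (e0 β) (boxE n) q)) :=
  ⟨1, by rintro _ ⟨n, rfl⟩; exact cr_le_one h0 h1⟩

theorem cr_le_Tl {β : Bool} {q : ℝ} (h0 : 0 ≤ q) (h1 : q ≤ 1) (n : ℕ) :
    cr (e0 β) (boxE n) q ≤ Tl β q := le_ciSup (Tl_bdd h0 h1) n

theorem Tl_nonneg {β : Bool} {q : ℝ} (h0 : 0 ≤ q) (h1 : q ≤ 1) : 0 ≤ Tl β q :=
  (cr_nonneg h0 h1).trans (cr_le_Tl h0 h1 0)

theorem Tl_le_one {β : Bool} {q : ℝ} (h0 : 0 ≤ q) (h1 : q ≤ 1) : Tl β q ≤ 1 :=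
  ciSup_le (fun _ => cr_le_one h0 h1)

theorem e0_mem {β : Bool} {n : ℕ} (hn : 1 ≤ n) : e0 β ∈ boxE n := mem_box_of_pos rfl hn

theorem Tl_upper {β : Bool} {q : ℝ} (h0 : 0 ≤ q) (h1 : q ≤ 1) {n : ℕ} (hn : 1 ≤ n) :
    Tl β q ≤ cr (e0 β) (boxE n) q + a4b q n β := by
  refine ciSup_le fun m => ?_
  refine (cr_mono (boxE_mono (le_max_left m n)) h0 h1).trans ?_
  exact (sandwich (a := -(n:ℤ)) (b := n) (c := -(n:ℤ)) (d := n) (e0_mem hn)
    (boxE_mono (le_max_right m n)) (okq h0 h1) (fun _ _ => rfl)).2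

theorem th_close {β : Bool} {s : ℝ} (h0 : 0 ≤ 1 / 2 + s) (h1 : 1 / 2 + s ≤ 1) {n : ℕ}
    (hn : 1 ≤ n) : |Tl β (1 / 2 + s) - th (e0 β) n s| ≤ a4b (1 / 2 + s) n β := by
  have hok : Ok (par n s) := by
    intro e
    unfold par
    split_ifs
    · exact ⟨h0, h1⟩
    · norm_num
  have g1 := cr_le_Tl (β := β) h0 h1 n
  have g2 := Tl_upper (β := β) h0 h1 hn
  obtain ⟨g3, g4⟩ := sandwich (a := -(n:ℤ)) (b := n) (c := -(n:ℤ)) (d := n) (e0_mem (β := β) hn)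
    (U := boxE (2 * n)) (boxE_mono (by omega)) hok (q := 1 / 2 + s) (by
      intro e he
      have he' : e ∈ boxE n := he
      unfold par
      rw [if_pos he'])
  have e1 : PQ (1 / 2 + s) (RE (-(n:ℤ)) n (-(n:ℤ)) n)
      (fun F => A4 (-(n:ℤ)) n (-(n:ℤ)) n (e0 β) ↑F) = a4b (1 / 2 + s) n β := rfl
  have e2 : cr (e0 β) (RE (-(n:ℤ)) n (-(n:ℤ)) n) (1 / 2 + s) =
      cr (e0 β) (boxE n) (1 / 2 + s) := rfl
  rw [e1, e2] at g4
  rw [e2] at g3
  have e3 : Pr (par n s) ((boxE (2 * n)).erase (e0 β))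
      (fun F => Reach (↑F : Set Edg) (src (e0 β)) (tgt (e0 β))) = th (e0 β) n s := rfl
  rw [e3] at g3 g4
  rw [abs_le]
  constructor <;> linarith

/-- **The local expansion of the connection probability at the critical point.** -/
theorem local_exp (β : Bool) : ∃ L C b : ℝ, 0 < b ∧ b ≤ 1 / 4 ∧ 0 ≤ C ∧ ∀ s : ℝ, |s| ≤ b →
    |Tl β (1 / 2 + s) - Tl β (1 / 2) - s * L| ≤ C * |s| ^ (5 / 3 : ℝ) := by
  obtain ⟨C0, hC0, hexp⟩ := expansion
  obtain ⟨κ, b1, c1, C1, hκ, hb1, hc1, hC1, hnear⟩ := Pool.Agent.W424.NC.nearS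
  obtain ⟨b, hb, hbb1, hbC, hb4⟩ : ∃ b : ℝ, 0 < b ∧ b ≤ b1 ∧ C0 * b ≤ 1 ∧ b ≤ 1 / 4 := by
    refine ⟨min b1 (min (1 / C0) (1 / 4)), ?_, min_le_left _ _, ?_,
      (min_le_right _ _).trans (min_le_right _ _)⟩
    · have : 0 < 1 / C0 := by positivity
      exact lt_min hb1 (lt_min this (by norm_num))
    · have h1 : min b1 (min (1 / C0) (1 / 4)) ≤ 1 / C0 := (min_le_right _ _).trans (min_le_left _ _)
      calc C0 * min b1 (min (1 / C0) (1 / 4)) ≤ C0 * (1 / C0) :=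
            mul_le_mul_of_nonneg_left h1 (by linarith)
        _ = 1 := by field_simp
  have hA : ∀ n : ℕ, ∃ L : ℝ, 1 ≤ n → ∀ s : ℝ, C0 * |s| * (n:ℝ) ^ (3 / 4 : ℝ) ≤ 1 →
      |th (e0 β) n s - th (e0 β) n 0 - s * L| ≤ C0 * (s ^ 2 * (n:ℝ) ^ (1 / 4 : ℝ)) := by
    intro n
    by_cases hn : 1 ≤ n
    · obtain ⟨L, hL⟩ := hexp (e0 β) n hn rfl
      exact ⟨L, fun _ => hL⟩
    · exact ⟨0, fun h => absurd h hn⟩
  choose A hA using hA
  obtain ⟨L, C', hC', hL⟩ := scales (T := fun s => Tl β (1 / 2 + s)) (A := A)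
    (C := 2 * C1 + C0) (b := b) (by linarith) hb (by
    intro n hn s hs
    have hn1 : (1:ℝ) ≤ n := by exact_mod_cast hn
    have hn0 : (0:ℝ) < n := by linarith
    have hp : (n:ℝ) ^ (-(3 / 4) : ℝ) ≤ 1 :=
      Real.rpow_le_one_of_one_le_of_nonpos hn1 (by norm_num)
    have hp0 : 0 < (n:ℝ) ^ (-(3 / 4) : ℝ) := by positivity
    have hsb : |s| ≤ b := hs.trans (by nlinarith)
    have hs4 : |s| ≤ 1 / 4 := hsb.trans hb4
    have hs' := abs_le.1 hs4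
    have hpp : (n:ℝ) ^ (-(3 / 4) : ℝ) * (n:ℝ) ^ (3 / 4 : ℝ) = 1 := by
      rw [← Real.rpow_add hn0]; norm_num
    have g1 : C0 * |s| * (n:ℝ) ^ (3 / 4 : ℝ) ≤ 1 := by
      calc C0 * |s| * (n:ℝ) ^ (3 / 4 : ℝ) ≤
            C0 * (b * (n:ℝ) ^ (-(3 / 4) : ℝ)) * (n:ℝ) ^ (3 / 4 : ℝ) := by
            apply mul_le_mul_of_nonneg_right _ (by positivity)
            exact mul_le_mul_of_nonneg_left hs (by linarith)
        _ = C0 * b * ((n:ℝ) ^ (-(3 / 4) : ℝ) * (n:ℝ) ^ (3 / 4 : ℝ)) := by ring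
        _ = C0 * b := by rw [hpp, mul_one]
        _ ≤ 1 := hbC
    have g2 := hA n hn s g1
    have hwin : ∀ t : ℝ, |t| ≤ b * (n:ℝ) ^ (-(3 / 4) : ℝ) → |t| ≤ 1 / 4 →
        |Tl β (1 / 2 + t) - th (e0 β) n t| ≤ C1 * (n:ℝ) ^ (-(5 / 4) : ℝ) := by
      intro t ht ht4
      have ht' := abs_le.1 ht4
      have h3 := (hnear n hn (1 / 2 + t) (by
        rw [add_sub_cancel_left]
        exact ht.trans (mul_le_mul_of_nonneg_right hbb1 hp0.le))).2 n hn le_rfl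
      have h4 := a4b_le (q := 1 / 2 + t) (by linarith) (by linarith) n β
      exact (th_close (by linarith) (by linarith) hn).trans (h4.trans h3.2)
    have g3 := hwin s hs hs4
    have g4 := hwin 0 (by rw [abs_zero]; positivity) (by rw [abs_zero]; norm_num)
    have g5 : s ^ 2 * (n:ℝ) ^ (1 / 4 : ℝ) ≤ (n:ℝ) ^ (-(5 / 4) : ℝ) := by
      have h1 : s ^ 2 ≤ ((n:ℝ) ^ (-(3 / 4) : ℝ)) ^ 2 := by
        rw [← sq_abs s]
        apply pow_le_pow_left₀ (abs_nonneg _)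
        calc |s| ≤ b * (n:ℝ) ^ (-(3 / 4) : ℝ) := hs
          _ ≤ 1 * (n:ℝ) ^ (-(3 / 4) : ℝ) := mul_le_mul_of_nonneg_right (by linarith) hp0.le
          _ = _ := one_mul _
      calc s ^ 2 * (n:ℝ) ^ (1 / 4 : ℝ) ≤ ((n:ℝ) ^ (-(3 / 4) : ℝ)) ^ 2 * (n:ℝ) ^ (1 / 4 : ℝ) :=
            mul_le_mul_of_nonneg_right h1 (by positivity)
        _ = (n:ℝ) ^ (-(5 / 4) : ℝ) := by
            rw [← Real.rpow_natCast, ← Real.rpow_mul hn0.le, ← Real.rpow_add hn0]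
            norm_num
    have e1 : Tl β (1 / 2 + s) - Tl β (1 / 2 + 0) - s * A n =
        (Tl β (1 / 2 + s) - th (e0 β) n s) - (Tl β (1 / 2 + 0) - th (e0 β) n 0) +
          (th (e0 β) n s - th (e0 β) n 0 - s * A n) := by ring
    rw [e1]
    calc |(Tl β (1 / 2 + s) - th (e0 β) n s) - (Tl β (1 / 2 + 0) - th (e0 β) n 0) +
          (th (e0 β) n s - th (e0 β) n 0 - s * A n)| ≤
          |(Tl β (1 / 2 + s) - th (e0 β) n s) - (Tl β (1 / 2 + 0) - th (e0 β) n 0)| +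
            |th (e0 β) n s - th (e0 β) n 0 - s * A n| := abs_add_le _ _
      _ ≤ (|Tl β (1 / 2 + s) - th (e0 β) n s| + |Tl β (1 / 2 + 0) - th (e0 β) n 0|) +
            |th (e0 β) n s - th (e0 β) n 0 - s * A n| := by
            have := abs_sub (Tl β (1 / 2 + s) - th (e0 β) n s) (Tl β (1 / 2 + 0) - th (e0 β) n 0)
            linarith
      _ ≤ (2 * C1 + C0) * (n:ℝ) ^ (-(5 / 4) : ℝ) := by
            have h6 := mul_le_mul_of_nonneg_left g5 (by linarith : 0 ≤ C0)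
            linarith)
  refine ⟨L, C', b, hb, hb4, hC', ?_⟩
  intro s hs
  have := hL s hs
  simp only [add_zero] at this
  exact this

/-! ### continuity -/

theorem cr_continuous (o : Edg) (B : Finset Edg) : Continuous (cr o B) := by
  rw [continuous_iff_continuousAt]
  intro q
  exact (Ex_hasDerivAt (fun q _ => q) (fun _ => 1) q (fun _ => hasDerivAt_id q)
    (B.erase o) _).continuousAt

/-- uniform decay of the four arm probability -/
theorem a4b_unif : ∃ C : ℝ, 0 < C ∧ ∀ (q : ℝ) (β : Bool) (r : ℕ), 1 / 4 ≤ q → q ≤ 3 / 4 → 5 ≤ r →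
    a4b q (5 * r) β ≤ C / r := by
  refine ⟨33 / kap, by have := kap_pos; positivity, ?_⟩
  intro q β r hq1 hq2 hr
  have h0 : 0 ≤ q := by linarith
  have h1 : q ≤ 1 := by linarith
  have hr0 : (0:ℝ) < r := by
    have : 0 < r := by omega
    exact_mod_cast this
  have hk := kap_pos
  have hfa := four_arm (P := fun _ => q) (fun _ => ⟨hq1, hq2⟩) (by
    rcases le_total q (1 / 2) with h | h
    · exact Or.inl (fun _ => h)
    · exact Or.inr (fun _ => h)) (q1 := q) (q2 := 1 - q) (fun _ => le_rfl) (fun _ => le_rfl)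
    h1 (by linarith) hr 0 0
  have harm : Real.sqrt (arm q r * arm (1 - q) r) ≤ 1 := by
    rw [Real.sqrt_le_one]
    have a1 := arm_le_one h0 h1 r
    have a2 := arm_le_one (q := 1 - q) (by linarith) (by linarith) r
    have a3 := arm_nonneg h0 h1 r
    have a4 := arm_nonneg (q := 1 - q) (by linarith) (by linarith) r
    nlinarith
  -- lower bound of the sum
  obtain ⟨G, hG⟩ : ∃ G : Finset Edg, G = (Finset.Ico (-(r:ℤ)) r ×ˢ (Finset.Ico (-(r:ℤ)) r ×ˢ {β})) :=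
    ⟨_, rfl⟩
  have hGC : G ⊆ H974.Cor 0 0 r := by
    rintro ⟨x, y, b⟩ he
    rw [hG, mem_product, mem_product, mem_Ico, mem_Ico, mem_singleton] at he
    simp only at he
    unfold H974.Cor
    cases b
    · rw [mem_RE_false]; omega
    · rw [mem_RE_true]; omega
  have hcard : (G.card : ℝ) = 4 * (r:ℝ) ^ 2 := by
    have : G.card = 2 * r * (2 * r) := by
      rw [hG, card_product, card_product, Int.card_Ico, card_singleton, mul_one]
      have : ((r:ℤ) - -(r:ℤ)).toNat = 2 * r := by omega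
      rw [this]
    rw [this]
    push_cast
    ring
  have hterm : ∀ e ∈ G, a4b q (5 * r) β ≤
      Pr (fun _ => q) ((Lam 0 0 r).erase e) (F4 src tgt (BL 0 0 r) e) := by
    rintro ⟨x, y, b⟩ he
    rw [hG, mem_product, mem_product, mem_Ico, mem_Ico, mem_singleton] at he
    simp only at he
    obtain ⟨hx, hy, rfl⟩ := he
    have hb : RE (x - ((5 * r : ℕ) : ℤ)) (x + ((5 * r : ℕ) : ℤ)) (y - ((5 * r : ℕ) : ℤ))
        (y + ((5 * r : ℕ) : ℤ)) ⊆ RE (x - ((5 * r : ℕ) : ℤ)) (x + ((5 * r : ℕ) : ℤ))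
          (y - ((5 * r : ℕ) : ℤ)) (y + ((5 * r : ℕ) : ℤ)) := Finset.Subset.refl _
    have e1 := pr_A4_ball (q := q) (x := x) (y := y) (k := 5 * r) (b := b) hb
    have e2 : a4b q (5 * r) b = PQ q (RE (x - ((5 * r : ℕ) : ℤ)) (x + ((5 * r : ℕ) : ℤ))
        (y - ((5 * r : ℕ) : ℤ)) (y + ((5 * r : ℕ) : ℤ))) (fun F => A4 (x - ((5 * r : ℕ) : ℤ))
        (x + ((5 * r : ℕ) : ℤ)) (y - ((5 * r : ℕ) : ℤ)) (y + ((5 * r : ℕ) : ℤ)) (x, y, b) ↑F) :=
      e1.symm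
    rw [e2]
    have hmem : ((x, y, b) : Edg) ∈ RE (0 - 4 * (r:ℤ)) (0 + 4 * r) (0 - 4 * (r:ℤ)) (0 + 4 * r) := by
      cases b
      · rw [mem_RE_false]; omega
      · rw [mem_RE_true]; omega
    have hsub : RE (0 - 4 * (r:ℤ)) (0 + 4 * r) (0 - 4 * (r:ℤ)) (0 + 4 * r) ⊆
        RE (x - ((5 * r : ℕ) : ℤ)) (x + ((5 * r : ℕ) : ℤ)) (y - ((5 * r : ℕ) : ℤ))
        (y + ((5 * r : ℕ) : ℤ)) := by
      apply RE_subset <;> push_cast <;> omega
    have h3 : PQ q (RE (x - ((5 * r : ℕ) : ℤ)) (x + ((5 * r : ℕ) : ℤ))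
        (y - ((5 * r : ℕ) : ℤ)) (y + ((5 * r : ℕ) : ℤ))) (fun F => A4 (x - ((5 * r : ℕ) : ℤ))
        (x + ((5 * r : ℕ) : ℤ)) (y - ((5 * r : ℕ) : ℤ)) (y + ((5 * r : ℕ) : ℤ)) (x, y, b) ↑F) ≤
        PQ q (RE (x - ((5 * r : ℕ) : ℤ)) (x + ((5 * r : ℕ) : ℤ))
        (y - ((5 * r : ℕ) : ℤ)) (y + ((5 * r : ℕ) : ℤ))) (fun F =>
          A4 (0 - 4 * (r:ℤ)) (0 + 4 * r) (0 - 4 * (r:ℤ)) (0 + 4 * r) (x, y, b) ↑F) := by
      apply Pr_mono (okq h0 h1)
      intro F _ hF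
      refine A4_sub ?_ ?_ ?_ ?_ hmem hF <;> push_cast <;> omega
    refine h3.trans (le_of_eq ?_)
    -- locality
    have hloc : ∀ F : Finset Edg, A4 (0 - 4 * (r:ℤ)) (0 + 4 * r) (0 - 4 * (r:ℤ)) (0 + 4 * r)
        (x, y, b) (↑F : Set Edg) ↔ F4 src tgt (BL 0 0 r) (x, y, b)
          (F ∩ (Lam 0 0 r).erase (x, y, b)) := by
      intro F
      have e3 : ((↑F : Set Edg) ∩ ↑(RE (0 - 4 * (r:ℤ)) (0 + 4 * r) (0 - 4 * (r:ℤ))
          (0 + 4 * r))) \ {(x, y, b)} = ↑(F ∩ (Lam 0 0 r).erase (x, y, b)) := by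
        unfold Lam
        ext e
        simp only [coe_inter, coe_erase, Set.mem_inter_iff, mem_coe, Set.mem_sdiff,
          Set.mem_singleton_iff]
        tauto
      unfold A4
      rw [e3]
      rfl
    have hsub2 : (Lam 0 0 r).erase (x, y, b) ⊆ RE (x - ((5 * r : ℕ) : ℤ)) (x + ((5 * r : ℕ) : ℤ))
        (y - ((5 * r : ℕ) : ℤ)) (y + ((5 * r : ℕ) : ℤ)) := (erase_subset _ _).trans hsub
    unfold PQ
    rw [Pr_local hsub2 (A := fun F => A4 (0 - 4 * (r:ℤ)) (0 + 4 * r) (0 - 4 * (r:ℤ)) (0 + 4 * r)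
        (x, y, b) (↑F : Set Edg))]
    · apply Pr_congr
      intro F hF
      rw [hloc F, Finset.inter_eq_left.mpr hF]
    · intro F _
      rw [hloc F, hloc (F ∩ _), Finset.inter_assoc, Finset.inter_self]
  have hsum : (G.card : ℝ) * a4b q (5 * r) β ≤
      ∑ e ∈ H974.Cor 0 0 r, Pr (fun _ => q) ((Lam 0 0 r).erase e) (F4 src tgt (BL 0 0 r) e) := by
    calc (G.card : ℝ) * a4b q (5 * r) β = ∑ _e ∈ G, a4b q (5 * r) β := by
          rw [sum_const, nsmul_eq_mul]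
      _ ≤ ∑ e ∈ G, Pr (fun _ => q) ((Lam 0 0 r).erase e) (F4 src tgt (BL 0 0 r) e) :=
          sum_le_sum hterm
      _ ≤ _ := sum_le_sum_of_subset_of_nonneg hGC (fun e _ _ => Pr_nonneg (okq h0 h1) _ _)
  have h5 : 33 / kap * r * Real.sqrt (arm q r * arm (1 - q) r) ≤ 33 / kap * r := by
    have : 0 ≤ 33 / kap * r := by positivity
    nlinarith
  have h6 := (hsum.trans hfa).trans h5
  rw [hcard] at h6
  rw [le_div_iff₀ hr0]
  have h7 : 0 ≤ a4b q (5 * r) β := a4b_nonneg h0 h1 _ _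
  have h8 : 4 * (a4b q (5 * r) β * r) ≤ 33 / kap := by
    have h9 : (4 * (a4b q (5 * r) β * r)) * r ≤ 33 / kap * r := by
      calc (4 * (a4b q (5 * r) β * r)) * r = 4 * (r:ℝ) ^ 2 * a4b q (5 * r) β := by ring
        _ ≤ _ := h6
    exact le_of_mul_le_mul_right h9 hr0
  nlinarith [mul_nonneg h7 hr0.le]

/-- continuity of the connection probability around the critical point -/
theorem Tl_cont (β : Bool) : ContinuousOn (Tl β) (Set.Icc (1 / 4) (3 / 4)) := by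
  obtain ⟨C, hC, hdec⟩ := a4b_unif
  have hunif : TendstoUniformlyOn (fun n q => cr (e0 β) (boxE n) q) (Tl β) atTop
      (Set.Icc (1 / 4) (3 / 4)) := by
    rw [Metric.tendstoUniformlyOn_iff]
    intro ε hε
    obtain ⟨r, hr⟩ := exists_nat_gt (C / ε)
    filter_upwards [eventually_ge_atTop (5 * (r + 5))] with n hn q hq
    have h0 : 0 ≤ q := by linarith [hq.1]
    have h1 : q ≤ 1 := by linarith [hq.2]
    have g1 := cr_le_Tl (β := β) h0 h1 n
    have g2 := Tl_upper (β := β) h0 h1 (n := 5 * (r + 5)) (by omega)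
    have g3 := cr_mono (o := e0 β) (boxE_mono hn) h0 h1
    have g4 := hdec q β (r + 5) hq.1 hq.2 (by omega)
    have g5 : C / ((r + 5 : ℕ) : ℝ) < ε := by
      rw [div_lt_iff₀ (by positivity)]
      rw [div_lt_iff₀ hε] at hr
      push_cast
      nlinarith
    rw [Real.dist_eq, abs_of_nonneg (by linarith)]
    linarith
  exact hunif.continuousOn (Filter.Frequently.of_forall
    (fun n => (cr_continuous _ _).continuousOn))

end Pool.Agent.Q218.AL
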