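import Pool.Agent.Q218.AL.Defs

/-! Start and merge: see `Pool.Agent.Y554.NE.Merge`. -/

set_option autoImplicit false

namespace Pool.Agent.Q218.AL

open H974 H12S H389NS Finset
open Pool.Agent.Y554.NE (ds dm nb conn cap pos cap_mul dm_le_of dm_mono dm_union)
open Pool.Agent.Y239.NE.Dec (okh ds_comm ds_tri mem_blk mem_blk_pos)
open Pool.Agent.Y239.NE.Out (blk_sub mem_blk_of ds_le_dm pos_le)

theorem merge_ps {n t : ℕ} {U R : Finset Edg} {b u : Edg}
    (hu : u ∈ U) (hb : b ∈ R) (hbu : ds b u ≤ t + 1) :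
    ps n (max (t + 1) (dm U)) * ps n (max t (dm R)) ≤
      72 * (ps n (ds b u) * ps n (max (t + 1) (dm (U ∪ R)))) := by
  obtain ⟨M, hM⟩ : ∃ M, M = max (t + 1) (dm U) := ⟨_, rfl⟩
  obtain ⟨M', hM'⟩ : ∃ M', M' = max (t + 1) (dm (U ∪ R)) := ⟨_, rfl⟩
  have h1 := dm_union hu hb hbu
  have h2 : dm U ≤ dm (U ∪ R) := dm_mono subset_union_left
  have h3 : dm R ≤ dm (U ∪ R) := dm_mono subset_union_right
  rw [← hM, ← hM']
  have p0 := (ps_pos n M).le
  have p1 := (ps_pos n (ds b u)).le
  have p2 := (ps_pos n M').le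
  have p3 := (ps_pos n (max t (dm R))).le
  rcases le_total (dm R) M with hc | hc
  · have e1 : ps n M ≤ ((3:ℕ):ℝ) ^ 2 * ps n M' := ps_cmp (by norm_num) (by omega)
    have e2 : ps n (max t (dm R)) ≤ ps n t := ps_anti (le_max_left _ _)
    have e3 : ps n t ≤ ((2:ℕ):ℝ) ^ 2 * ps n (t + 1) := ps_cmp (by norm_num) (by omega)
    have e4 : ps n (t + 1) ≤ ps n (ds b u) := ps_anti hbu
    have e5 : ps n (max t (dm R)) ≤ 4 * ps n (ds b u) := by
      push_cast at e3
      linarith
    push_cast at e1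
    calc ps n M * ps n (max t (dm R)) ≤
          (3 ^ 2 * ps n M') * (4 * ps n (ds b u)) := mul_le_mul e1 e5 p3 (by positivity)
      _ = 36 * (ps n (ds b u) * ps n M') := by ring
      _ ≤ _ := by nlinarith [mul_nonneg p1 p2]
  · have hMt : t + 1 ≤ M := by rw [hM]; exact le_max_left _ _
    have hMU : dm U ≤ M := by rw [hM]; exact le_max_right _ _
    have e0 : max t (dm R) = dm R := max_eq_right (by omega)
    rw [e0]
    have e4 : ps n M ≤ ps n (ds b u) := ps_anti (by omega)
    have e5 : ps n (dm R) ≤ ((3:ℕ):ℝ) ^ 2 * ps n M' := ps_cmp (by norm_num) (by omega)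
    push_cast at e5
    calc ps n M * ps n (dm R) ≤ ps n (ds b u) * (3 ^ 2 * ps n M') :=
          mul_le_mul e4 e5 (ps_pos _ _).le p1
      _ = 9 * (ps n (ds b u) * ps n M') := by ring
      _ ≤ _ := by nlinarith [mul_nonneg p1 p2]

/-- START: change of the radius. -/
theorem start {w : Prop} {o : Edg} {a : ℝ} {n t k : ℕ} {R : Finset Edg} {x : Edg} (ha : 4 ≤ a)
    (h : Gd w o n t (t + 1) (max t (dm R)) a k R x) :
    Gd w o n t (t + 1) (max (t + 1) (dm R)) a (k + 1) R x := by
  obtain ⟨Ev, par, rk, h1, h2, h3, h4⟩ := h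
  refine ⟨Ev, par, rk, h1, h2, h3, h4.trans ?_⟩
  have h5 : ps n (max t (dm R)) ≤ ((2:ℕ):ℝ) ^ 2 * ps n (max (t + 1) (dm R)) :=
    ps_cmp (by norm_num) (by omega)
  have h6 : 0 ≤ a ^ k * ∏ y ∈ R.erase x, ps n (ds y (par y)) :=
    mul_nonneg (pow_nonneg (by linarith) _) (Finset.prod_nonneg (fun y _ => (ps_pos _ _).le))
  have h7 := (ps_pos n (max (t + 1) (dm R))).le
  have h8 : ((2:ℕ):ℝ) ^ 2 * ps n (max (t + 1) (dm R)) ≤ a * ps n (max (t + 1) (dm R)) := by
    apply mul_le_mul_of_nonneg_right _ h7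
    norm_num
    linarith
  calc a ^ k * (∏ y ∈ R.erase x, ps n (ds y (par y))) * ps n (max t (dm R)) ≤
        a ^ k * (∏ y ∈ R.erase x, ps n (ds y (par y))) *
          (a * ps n (max (t + 1) (dm R))) := mul_le_mul_of_nonneg_left (h5.trans h8) h6
    _ = _ := by rw [pow_succ]; ring

/-- MERGE: union of two sets at distance `t + 1`. -/
theorem merge {o : Edg} {a : ℝ} {n t k k' : ℕ} {U R : Finset Edg} {x b u : Edg} (ha : 72 ≤ a)
    (hx : x ∈ U) (hu : u ∈ U) (hb : b ∈ R)
    (hbu : ds b u ≤ t + 1) (hfar : ∀ v ∈ U, ∀ w ∈ R, t < ds v w)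
    (hGU : Gd False o n t (t + 1) (max (t + 1) (dm U)) a k U x)
    (hGR : Gd False o n t (t + 1) (max t (dm R)) a k' R b) :
    Gd True o n t (t + 1) (max (t + 1) (dm (U ∪ R))) a (k + k' + 1) (U ∪ R) x := by
  classical
  obtain ⟨EU, pU, rU, u1, u2, u3, u4⟩ := hGU
  obtain ⟨ER, pR, rR, w1, w2, w3, w4⟩ := hGR
  have hdis : ∀ v ∈ U, v ∉ R := by
    intro v hv hv'
    have h1 := hfar v hv v hv'
    have h2 : ds v v = 0 := by unfold ds; simp
    omega
  have hUR : Disjoint U R := Finset.disjoint_left.2 hdis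
  have hnbU : ∀ e ∈ nb U (t / 2), ∃ v ∈ U, ds e v ≤ t / 2 := by
    intro e he
    unfold nb at he
    obtain ⟨v, hv, h1⟩ := mem_biUnion.1 he
    exact ⟨v, hv, mem_blk_pos h1⟩
  have hnbR : ∀ e ∈ nb R (t / 2), ∃ v ∈ R, ds e v ≤ t / 2 := by
    intro e he
    unfold nb at he
    obtain ⟨v, hv, h1⟩ := mem_biUnion.1 he
    exact ⟨v, hv, mem_blk_pos h1⟩
  have hsubU : nb U (t / 2) \ U ⊆ nb (U ∪ R) (t / 2) \ (U ∪ R) := by
    intro e he
    rw [mem_sdiff] at he ⊢
    obtain ⟨v, hv, h1⟩ := hnbU e he.1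
    refine ⟨?_, ?_⟩
    · unfold nb at he ⊢
      exact Finset.biUnion_subset_biUnion_of_subset_left _ subset_union_left he.1
    · rw [mem_union]
      rintro (h | h)
      · exact he.2 h
      · have h2 := hfar v hv e h
        rw [ds_comm] at h2
        omega
  have hsubR : nb R (t / 2) \ R ⊆ nb (U ∪ R) (t / 2) \ (U ∪ R) := by
    intro e he
    rw [mem_sdiff] at he ⊢
    obtain ⟨v, hv, h1⟩ := hnbR e he.1
    refine ⟨?_, ?_⟩
    · unfold nb at he ⊢
      exact Finset.biUnion_subset_biUnion_of_subset_left _ subset_union_right he.1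
    · rw [mem_union]
      rintro (h | h)
      · have h2 := hfar e h v hv
        omega
      · exact he.2 h
  have hdreg : Disjoint (nb U (t / 2) \ U) (nb R (t / 2) \ R) := by
    rw [Finset.disjoint_left]
    intro e he he'
    obtain ⟨v, hv, h1⟩ := hnbU e (mem_sdiff.1 he).1
    obtain ⟨w, hw, h2⟩ := hnbR e (mem_sdiff.1 he').1
    have h3 := hfar v hv w hw
    have h4 := ds_tri v e w
    rw [ds_comm v e] at h4
    omega
  have hres : ∀ {A B : Finset Edg}, A ⊆ B → ∀ {F F' : Finset Edg}, F ∩ B = F' ∩ B →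
      F ∩ A = F' ∩ A := by
    intro A B hAB F F' h
    have e1 : F ∩ A = (F ∩ B) ∩ A := by
      rw [Finset.inter_assoc, Finset.inter_eq_right.mpr hAB]
    have e2 : F' ∩ A = (F' ∩ B) ∩ A := by
      rw [Finset.inter_assoc, Finset.inter_eq_right.mpr hAB]
    rw [e1, e2, h]
  refine ⟨fun F => EU F ∧ ER F, fun y => if y ∈ U then pU y else if y = b then u else pR y,
    fun y => if y ∈ U then rU y else rR y + rU u + 1, ?_, ?_, ?_, ?_⟩
  · intro F F' hFF
    exact and_congr (u1 F F' (hres hsubU hFF)) (w1 F F' (hres hsubR hFF))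
  · intro S' hS' hS'n _ hS'd F hF hQ
    refine ⟨u2 S' (subset_union_left.trans hS') hS'n
      (Or.inr ⟨b, mem_sdiff.2 ⟨hS' (mem_union_right _ hb), fun h => hdis b h hb⟩⟩) ?_ F hF hQ,
      w2 S' (subset_union_right.trans hS') hS'n
      (Or.inr ⟨x, mem_sdiff.2 ⟨hS' (mem_union_left _ hx), hdis x hx⟩⟩) ?_ F hF hQ⟩
    · intro v hv w hw
      by_cases hwR : w ∈ R
      · exact hfar v hv w hwR
      · refine hS'd v (mem_union_left _ hv) w ?_
        rw [mem_sdiff] at hw ⊢
        refine ⟨hw.1, ?_⟩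
        rw [mem_union]
        rintro (h | h)
        · exact hw.2 h
        · exact hwR h
    · intro v hv w hw
      by_cases hwU : w ∈ U
      · rw [ds_comm]
        exact hfar w hwU v hv
      · refine hS'd v (mem_union_right _ hv) w ?_
        rw [mem_sdiff] at hw ⊢
        refine ⟨hw.1, ?_⟩
        rw [mem_union]
        rintro (h | h)
        · exact hwU h
        · exact hw.2 h
  · intro y hy hyx
    by_cases hyU : y ∈ U
    · obtain ⟨g1, g2, g3⟩ := u3 y hyU hyx
      simp only [if_pos hyU, if_pos g1]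
      exact ⟨mem_union_left _ g1, g2, g3⟩
    · have hyR : y ∈ R := (mem_union.1 hy).resolve_left hyU
      by_cases hyb : y = b
      · simp only [if_neg hyU, if_pos hyb, if_pos hu]
        refine ⟨mem_union_left _ hu, by omega, ?_⟩
        rw [hyb]
        exact hbu
      · obtain ⟨g1, g2, g3⟩ := w3 y hyR hyb
        have g4 : pR y ∉ U := fun h => hdis _ h g1
        simp only [if_neg hyU, if_neg hyb, if_neg g4]
        exact ⟨mem_union_right _ g1, by omega, g3⟩
  · -- the probability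
    have ha0 : 0 ≤ a := by linarith
    have hind : PQ (1 / 2) (boxE (2 * n)) (fun F => EU F ∧ ER F) =
        PQ (1 / 2) (boxE (2 * n)) EU * PQ (1 / 2) (boxE (2 * n)) ER := by
      unfold PQ
      refine Pr_indep (S := (nb U (t / 2) \ U) ∩ boxE (2 * n)) (T := (nb R (t / 2) \ R) ∩ boxE (2 * n))
        inter_subset_right inter_subset_right ?_ ?_ ?_
      · exact hdreg.mono inter_subset_left inter_subset_left
      · intro F hF
        apply u1
        ext e
        simp only [mem_inter]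
        constructor
        · rintro ⟨h1, h2⟩
          exact ⟨⟨h1, h2, hF h1⟩, h2⟩
        · rintro ⟨⟨h1, -⟩, h2⟩
          exact ⟨h1, h2⟩
      · intro F hF
        apply w1
        ext e
        simp only [mem_inter]
        constructor
        · rintro ⟨h1, h2⟩
          exact ⟨⟨h1, h2, hF h1⟩, h2⟩
        · rintro ⟨⟨h1, -⟩, h2⟩
          exact ⟨h1, h2⟩
    rw [hind]
    obtain ⟨PU, hPU⟩ : ∃ PU : ℝ, PU = ∏ y ∈ U.erase x, ps n (ds y (pU y)) := ⟨_, rfl⟩
    obtain ⟨PR, hPR⟩ : ∃ PR : ℝ, PR = ∏ y ∈ R.erase b, ps n (ds y (pR y)) := ⟨_, rfl⟩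
    have hPU0 : 0 ≤ PU := by rw [hPU]; exact Finset.prod_nonneg (fun y _ => (ps_pos _ _).le)
    have hPR0 : 0 ≤ PR := by rw [hPR]; exact Finset.prod_nonneg (fun y _ => (ps_pos _ _).le)
    have hprod : (∏ y ∈ (U ∪ R).erase x,
        ps n (ds y (if y ∈ U then pU y else if y = b then u else pR y))) =
        PU * (ps n (ds b u) * PR) := by
      have e1 : (U ∪ R).erase x = (U.erase x) ∪ R := by
        rw [Finset.erase_union_distrib, Finset.erase_eq_of_notMem (hdis x hx)]
      have e2 : Disjoint (U.erase x) R := hUR.mono_left (Finset.erase_subset _ _)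
      rw [e1, Finset.prod_union e2, hPU]
      congr 1
      · apply Finset.prod_congr rfl
        intro y hy
        rw [if_pos (Finset.mem_of_mem_erase hy)]
      · rw [← Finset.mul_prod_erase R _ hb, hPR]
        have hbU : b ∉ U := fun h => hdis b h hb
        rw [if_neg hbU, if_pos rfl]
        congr 1
        apply Finset.prod_congr rfl
        intro y hy
        rw [if_neg (fun h => hdis y h (Finset.mem_of_mem_erase hy)),
          if_neg (Finset.ne_of_mem_erase hy)]
    rw [hprod]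
    rw [← hPU] at u4
    rw [← hPR] at w4
    have hmp := merge_ps (n := n) hu hb hbu
    have z1 := (ps_pos n (max (t + 1) (dm U))).le
    have z2 := (ps_pos n (max t (dm R))).le
    have z3 := (ps_pos n (ds b u)).le
    have z4 := (ps_pos n (max (t + 1) (dm (U ∪ R)))).le
    have z5 : 0 ≤ PQ (1 / 2) (boxE (2 * n)) ER := Pr_nonneg (fun e => by norm_num) _ _
    have hak : 0 ≤ a ^ k := pow_nonneg ha0 _
    have hak' : 0 ≤ a ^ k' := pow_nonneg ha0 _
    calc PQ (1 / 2) (boxE (2 * n)) EU * PQ (1 / 2) (boxE (2 * n)) ER ≤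
          (a ^ k * PU * ps n (max (t + 1) (dm U))) *
            (a ^ k' * PR * ps n (max t (dm R))) :=
          mul_le_mul u4 w4 z5 (by positivity)
      _ = a ^ k * a ^ k' * PU * PR *
            (ps n (max (t + 1) (dm U)) * ps n (max t (dm R))) := by ring
      _ ≤ a ^ k * a ^ k' * PU * PR *
            (72 * (ps n (ds b u) * ps n (max (t + 1) (dm (U ∪ R))))) :=
          mul_le_mul_of_nonneg_left hmp (by positivity)
      _ ≤ a ^ k * a ^ k' * PU * PR *
            (a * (ps n (ds b u) * ps n (max (t + 1) (dm (U ∪ R))))) := by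
          apply mul_le_mul_of_nonneg_left _ (by positivity)
          exact mul_le_mul_of_nonneg_right ha (mul_nonneg z3 z4)
      _ = _ := by rw [pow_succ, pow_add]; ring

end Pool.Agent.Q218.AL
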