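import Pool.Agent.Q218.AL.Merge
import Pool.Agent.Y100.NE.Base

/-! Base and out: see `Pool.Agent.Y100.NE.Base`, `Pool.Agent.Y239.NE.Out`. -/

set_option autoImplicit false

namespace Pool.Agent.Q218.AL

open H974 H12S H389NS Finset
open Pool.Agent.Y554.NE (ds dm nb conn cap pos cap_mul dm_le_of dm_mono dm_union)
open Pool.Agent.Y239.NE.Dec (okh ds_comm ds_tri mem_blk mem_blk_pos)
open Pool.Agent.Y239.NE.Out (blk_sub mem_blk_of ds_le_dm pos_le)

theorem ps_eq {n s : ℕ} (h1 : 1 ≤ s) (h2 : s ≤ n) : ps n s = (s:ℝ) ^ (-(5 / 4) : ℝ) := by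
  unfold ps
  have : cap n s = s := by unfold cap; omega
  rw [this]

theorem ps_div {n r D : ℕ} (h1 : 1 ≤ r) (h2 : r ≤ D) (h3 : D ≤ n) :
    ps n r * ((r:ℝ) / D) ^ (5 / 4 : ℝ) = ps n D := by
  have hr : (0:ℝ) < r := by exact_mod_cast h1
  have hD : (0:ℝ) < D := by exact_mod_cast (h1.trans h2)
  rw [ps_eq h1 (h2.trans h3), ps_eq (h1.trans h2) h3, Real.div_rpow hr.le hD.le,
    Real.rpow_neg hr.le, Real.rpow_neg hD.le]
  have : 0 < (r:ℝ) ^ (5 / 4 : ℝ) := by positivity
  field_simp

/-- the four arms in an annulus, at the critical point -/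
theorem ann_pr : ∃ C : ℝ, 1 ≤ C ∧ ∀ (n r D : ℕ) (c : ℤ × ℤ), 1 ≤ r → r ≤ D → D ≤ n →
    |c.1| ≤ n → |c.2| ≤ n →
    PQ (1 / 2) (boxE (2 * n)) (fun F => A4a c r D (↑F : Set Edg)) ≤
      C * ((r:ℝ) / D) ^ (5 / 4 : ℝ) := by
  obtain ⟨C, hC, h⟩ := Pool.Agent.Y554.SN.A4a_sharp
  refine ⟨max C 1, le_max_right _ _, ?_⟩
  intro n r D c hr hrD hDn h1 h2
  refine (h c r D hr hrD (boxE (2 * n)) ?_).trans ?_
  · rw [abs_le] at h1 h2
    unfold blk boxE
    apply RE_subset <;> push_cast <;> omega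
  · exact mul_le_mul_of_nonneg_right (le_max_left _ _) (by positivity)

theorem a4a_loc {c : ℤ × ℤ} {r D : ℕ} {F F' : Finset Edg}
    (h : F ∩ (blk c D \ blk c r) = F' ∩ (blk c D \ blk c r)) :
    A4a c r D (↑F : Set Edg) ↔ A4a c r D (↑F' : Set Edg) := by
  have e1 : (↑F : Set Edg) ∩ ↑(blk c D \ blk c r) = (↑F' : Set Edg) ∩ ↑(blk c D \ blk c r) := by
    rw [← Finset.coe_inter, h, Finset.coe_inter]
  unfold A4a
  rw [e1]

theorem hnbm {S : Finset Edg} {i j : ℕ} (hij : i ≤ j) : nb S i ⊆ nb S j := by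
  unfold nb
  apply Finset.biUnion_mono
  intro e _
  apply blk_sub <;> simp <;> omega

/-- BASE: all the edges at one position. -/
theorem base : ∃ C : ℝ, 1 ≤ C ∧ ∀ (o : Edg) (a : ℝ) (n t' : ℕ) (S : Finset Edg) (x : Edg),
    C ≤ a → t' ≤ n → S ⊆ boxE n → x ∈ S → (∀ y ∈ S, ds y x = 0) →
    Gd False o n t' 0 (max t' (dm S)) a 1 S x := by
  obtain ⟨C1, hC1, hpr⟩ := ann_pr
  refine ⟨16 * C1, by linarith, ?_⟩
  intro o a n t' S x hCa ht' hS hx hall
  have hdm : dm S = 0 := by
    unfold dm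
    rw [← Nat.bot_eq_zero, Finset.sup_eq_bot_iff]
    intro a ha
    rw [Finset.sup_eq_bot_iff]
    intro b hb
    exact Pool.Agent.Y100.NE.ds_of_pos ((Pool.Agent.Y100.NE.pos_eq (hall a ha)).trans
      (Pool.Agent.Y100.NE.pos_eq (hall b hb)).symm)
  rw [hdm, max_eq_left (Nat.zero_le _)]
  obtain ⟨p1, p2⟩ := pos_le (hS hx)
  have hprod : ∏ y ∈ S.erase x, ps n (ds y ((fun _ => x) y)) = 1 := by
    refine Finset.prod_eq_one fun y hy => ?_
    have h1 := hall y (Finset.mem_of_mem_erase hy)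
    simp only [h1]
    unfold ps cap
    simp
  have htree : ∀ y ∈ S, y ≠ x → (fun _ => x) y ∈ S ∧
      (fun y => if y = x then 0 else 1) ((fun _ => x) y) < (fun y => if y = x then 0 else 1) y ∧
      ds y ((fun _ => x) y) ≤ 0 := by
    intro y hy hyx
    refine ⟨hx, ?_, (hall y hy).le⟩
    simp [hyx]
  by_cases hD : 1 ≤ t' / 2
  · set D := t' / 2 with hDdef
    have hD1 : 2 * D ≤ t' := Nat.mul_div_le t' 2
    have hD2 : t' ≤ 2 * D + 1 := by omega
    have hDt : D ≤ t' := by omega
    have hSb : S ⊆ blk (pos x) 1 := fun e he => Pool.Agent.Y100.NE.mem_blk_one (hall e he)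
    refine ⟨fun F => A4a (pos x) 1 D (↑F : Set Edg), fun _ => x, fun y => if y = x then 0 else 1,
      ?_, ?_, htree, ?_⟩
    · intro F F' hFF
      apply a4a_loc
      have hsub : blk (pos x) D \ blk (pos x) 1 ⊆ nb S D \ S := by
        intro e he
        rw [Finset.mem_sdiff] at he ⊢
        refine ⟨?_, fun h => he.2 (hSb h)⟩
        unfold nb
        rw [Finset.mem_biUnion]
        exact ⟨x, hx, he.1⟩
      have e1 : F ∩ (blk (pos x) D \ blk (pos x) 1) =
          (F ∩ (nb S D \ S)) ∩ (blk (pos x) D \ blk (pos x) 1) := by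
        rw [Finset.inter_assoc, Finset.inter_eq_right.mpr hsub]
      have e2 : F' ∩ (blk (pos x) D \ blk (pos x) 1) =
          (F' ∩ (nb S D \ S)) ∩ (blk (pos x) D \ blk (pos x) 1) := by
        rw [Finset.inter_assoc, Finset.inter_eq_right.mpr hsub]
      rw [e1, e2, hFF]
    · intro S' hSS' hS'b hw hfar F hF hQ
      refine chain hD hx hSb hSS' (hw.resolve_left id) ?_ hQ
      intro w hw'
      have h1 := hfar x hx w hw'
      have h8 : (pos x).1 = x.1 := rfl
      have h9 : (pos x).2 = x.2.1 := rfl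
      unfold ds at h1
      rw [h8, h9, le_abs, le_abs]
      omega
    · rw [hprod, pow_one, mul_one]
      have h1 := hpr n 1 D (pos x) le_rfl hD (hDt.trans ht') p1 p2
      have h2 := ps_div (n := n) le_rfl hD (hDt.trans ht')
      have h3 : ps n 1 = 1 := by unfold ps cap; simp
      rw [h3, one_mul] at h2
      rw [h2] at h1
      have h4 : ps n D ≤ ((4:ℕ):ℝ) ^ 2 * ps n t' := ps_cmp (by norm_num) (by omega)
      have h5 := ps_pos n t'
      push_cast at h4
      calc PQ (1 / 2) (boxE (2 * n)) _ ≤ C1 * ps n D := h1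
        _ ≤ C1 * (4 ^ 2 * ps n t') := mul_le_mul_of_nonneg_left h4 (by linarith)
        _ = 16 * C1 * ps n t' := by ring
        _ ≤ a * ps n t' := mul_le_mul_of_nonneg_right hCa h5.le
  · refine ⟨fun _ => True, fun _ => x, fun y => if y = x then 0 else 1, ?_, ?_, htree, ?_⟩
    · intro F F' _
      rfl
    · intros
      trivial
    · rw [hprod, pow_one, mul_one]
      have h0 : PQ (1 / 2) (boxE (2 * n)) (fun _ => True) ≤ 1 :=
        Pr_le_one (okq (by norm_num) (by norm_num)) _ _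
      have h3 : ps n 1 = 1 := by unfold ps cap; simp
      have h4 : ps n 1 ≤ ((4:ℕ):ℝ) ^ 2 * ps n t' := ps_cmp (by norm_num) (by omega)
      have h5 := ps_pos n t'
      push_cast at h4
      rw [h3] at h4
      have h6 : (16:ℝ) * ps n t' ≤ a * ps n t' := by
        apply mul_le_mul_of_nonneg_right _ h5.le
        linarith
      linarith

/-- OUT: the annulus around a set. -/
theorem out : ∃ C : ℝ, 1 ≤ C ∧ ∀ (o : Edg) (a : ℝ) (n t t' k : ℕ) (S : Finset Edg) (x : Edg),
    C ≤ a → t + 1 ≤ t' → t' ≤ n → S ⊆ boxE n → x ∈ S →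
    Gd False o n t (t + 1) (max (t + 1) (dm S)) a k S x →
    Gd False o n t' (t + 1) (max t' (dm S)) a (k + 1) S x := by
  classical
  obtain ⟨C1, hC1, hpr⟩ := ann_pr
  refine ⟨144 * C1, by linarith, ?_⟩
  intro o a n t t' k S x ha ht ht' hS hx hG
  have ha0 : 0 ≤ a := by linarith
  obtain ⟨Ev, par, rk, g1, g2, g3, g4⟩ := hG
  set s : ℕ := max (t + 1) (dm S) with hs
  have hs1 : 1 ≤ s := le_trans (by omega) (le_max_left _ _)
  set r : ℕ := dm S + t + 2 with hr
  set D : ℕ := t' / 2 with hD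
  have hprod : 0 ≤ a ^ k * (∏ y ∈ S.erase x, ps n (ds y (par y))) :=
    mul_nonneg (pow_nonneg ha0 k) (Finset.prod_nonneg (fun y _ => (ps_pos _ _).le))
  have hloc : ∀ F F' : Finset Edg, F ∩ (nb S (t' / 2) \ S) = F' ∩ (nb S (t' / 2) \ S) →
      (Ev F ↔ Ev F') := by
    intro F F' hFF
    apply g1
    have hsub : nb S (t / 2) \ S ⊆ nb S (t' / 2) \ S :=
      Finset.sdiff_subset_sdiff (hnbm (by omega)) le_rfl
    have e1 : F ∩ (nb S (t / 2) \ S) = (F ∩ (nb S (t' / 2) \ S)) ∩ (nb S (t / 2) \ S) := by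
      rw [Finset.inter_assoc, Finset.inter_eq_right.mpr hsub]
    have e2 : F' ∩ (nb S (t / 2) \ S) = (F' ∩ (nb S (t' / 2) \ S)) ∩ (nb S (t / 2) \ S) := by
      rw [Finset.inter_assoc, Finset.inter_eq_right.mpr hsub]
    rw [e1, e2, hFF]
  rcases le_or_gt r D with hrD | hrD
  · -- first case
    obtain ⟨p1, p2⟩ := pos_le (hS hx)
    have hDn : D ≤ n := by omega
    have hr1 : 1 ≤ r := by omega
    have hD1 : 1 ≤ D := by omega
    -- regions
    have hSb : S ⊆ blk (pos x) r := by
      intro e he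
      apply mem_blk_of
      have := ds_le_dm he hx
      omega
    have hnbb : nb S (t / 2) ⊆ blk (pos x) r := by
      unfold nb
      rw [Finset.biUnion_subset]
      intro e he
      have := ds_le_dm he hx
      unfold ds at this
      apply blk_sub <;> simp only [pos] <;> omega
    have hbig : blk (pos x) D ⊆ nb S (t' / 2) := by
      exact Finset.subset_biUnion_of_mem (fun e => blk (pos e) (t' / 2)) hx
    have hreg : blk (pos x) D \ blk (pos x) r ⊆ nb S (t' / 2) \ S := by
      intro e he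
      obtain ⟨he1, he2⟩ := mem_sdiff.mp he
      exact mem_sdiff.mpr ⟨hbig he1, fun h => he2 (hSb h)⟩
    obtain ⟨Ch, hCh⟩ : ∃ Ch : Finset Edg → Prop, Ch = fun F : Finset Edg => A4a (pos x) r D (↑F : Set Edg) :=
      ⟨_, rfl⟩
    have c1 : ∀ F F' : Finset Edg, F ∩ (blk (pos x) D \ blk (pos x) r) =
        F' ∩ (blk (pos x) D \ blk (pos x) r) → (Ch F ↔ Ch F') := by
      intro F F' h
      rw [hCh]
      exact a4a_loc h
    have c3 : PQ (1 / 2) (boxE (2 * n)) Ch ≤ C1 * ((r:ℝ) / D) ^ (5 / 4 : ℝ) := by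
      rw [hCh]
      exact hpr n r D (pos x) hr1 hrD hDn p1 p2
    refine ⟨fun F => Ev F ∧ Ch F, par, rk, ?_, ?_, g3, ?_⟩
    · intro F F' hFF
      have e1 := hloc F F' hFF
      have e2 : Ch F ↔ Ch F' := by
        apply c1
        have e1 : F ∩ (blk (pos x) D \ blk (pos x) r) =
            (F ∩ (nb S (t' / 2) \ S)) ∩ (blk (pos x) D \ blk (pos x) r) := by
          rw [Finset.inter_assoc, Finset.inter_eq_right.mpr hreg]
        have e2 : F' ∩ (blk (pos x) D \ blk (pos x) r) =
            (F' ∩ (nb S (t' / 2) \ S)) ∩ (blk (pos x) D \ blk (pos x) r) := by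
          rw [Finset.inter_assoc, Finset.inter_eq_right.mpr hreg]
        rw [e1, e2, hFF]
      exact and_congr e1 e2
    · intro S' hSS' hS' hw hfar F hF hQ
      refine ⟨g2 S' hSS' hS' hw (fun v hv w hw => ?_) F hF hQ, ?_⟩
      · have := hfar v hv w hw
        omega
      · rw [hCh]
        refine chain hrD hx hSb hSS' (hw.resolve_left id) ?_ hQ
        intro w hw'
        have h1 := hfar x hx w hw'
        have h8 : (pos x).1 = x.1 := rfl
        have h9 : (pos x).2 = x.2.1 := rfl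
        unfold ds at h1
        rw [h8, h9, le_abs, le_abs]
        omega
    · -- probability
      have hind : PQ (1 / 2) (boxE (2 * n)) (fun F => Ev F ∧ Ch F) =
          PQ (1 / 2) (boxE (2 * n)) Ev * PQ (1 / 2) (boxE (2 * n)) Ch := by
        refine Pr_indep (S := (nb S (t / 2) \ S) ∩ boxE (2 * n))
          (T := (blk (pos x) D \ blk (pos x) r) ∩ boxE (2 * n)) inter_subset_right
          inter_subset_right ?_ ?_ ?_
        · rw [Finset.disjoint_left]
          intro e he1 he2
          exact (mem_sdiff.mp (mem_inter.mp he2).1).2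
            (hnbb (mem_sdiff.mp (mem_inter.mp he1).1).1)
        · intro F hF
          apply g1
          rw [Finset.inter_assoc, Finset.inter_assoc, Finset.inter_comm (boxE (2 * n)),
            ← Finset.inter_assoc (nb S (t / 2) \ S), Finset.inter_self,
            Finset.inter_comm (nb S (t / 2) \ S), ← Finset.inter_assoc,
            Finset.inter_eq_left.mpr hF]
        · intro F hF
          apply c1
          rw [Finset.inter_assoc, Finset.inter_assoc, Finset.inter_comm (boxE (2 * n)),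
            ← Finset.inter_assoc (blk (pos x) D \ blk (pos x) r), Finset.inter_self,
            Finset.inter_comm (blk (pos x) D \ blk (pos x) r), ← Finset.inter_assoc,
            Finset.inter_eq_left.mpr hF]
      rw [hind]
      have hsr : s ≤ r := by
        rw [hs, hr]; omega
      have hr3 : r ≤ 3 * s := by
        rw [hs, hr]; omega
      have hmax : max t' (dm S) = t' := by
        apply max_eq_left
        omega
      rw [hmax]
      have b1 : ps n s ≤ ((3:ℕ):ℝ) ^ 2 * ps n r := ps_cmp (by norm_num) (by omega)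
      have b2 : ps n D ≤ ((4:ℕ):ℝ) ^ 2 * ps n t' := ps_cmp (by norm_num) (by omega)
      have b3 := ps_div (n := n) hr1 hrD hDn
      push_cast at b1 b2
      have z1 := ps_pos n s
      have z2 : 0 ≤ ((r:ℝ) / D) ^ (5 / 4 : ℝ) := by positivity
      have z4 := ps_pos n t'
      have u3 : ps n s * (C1 * ((r:ℝ) / D) ^ (5 / 4 : ℝ)) ≤ 144 * C1 * ps n t' := by
        calc ps n s * (C1 * ((r:ℝ) / D) ^ (5 / 4 : ℝ))
            ≤ (3 ^ 2 * ps n r) * (C1 * ((r:ℝ) / D) ^ (5 / 4 : ℝ)) :=
              mul_le_mul_of_nonneg_right b1 (by positivity)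
          _ = 9 * C1 * ps n D := by rw [← b3]; ring
          _ ≤ 9 * C1 * (4 ^ 2 * ps n t') := mul_le_mul_of_nonneg_left b2 (by positivity)
          _ = 144 * C1 * ps n t' := by ring
      calc PQ (1 / 2) (boxE (2 * n)) Ev * PQ (1 / 2) (boxE (2 * n)) Ch
          ≤ (a ^ k * (∏ y ∈ S.erase x, ps n (ds y (par y))) * ps n s) *
            (C1 * ((r:ℝ) / D) ^ (5 / 4 : ℝ)) :=
            mul_le_mul g4 c3 (Pr_nonneg okh _ _) (mul_nonneg hprod z1.le)
        _ = a ^ k * (∏ y ∈ S.erase x, ps n (ds y (par y))) *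
            (ps n s * (C1 * ((r:ℝ) / D) ^ (5 / 4 : ℝ))) := by ring
        _ ≤ a ^ k * (∏ y ∈ S.erase x, ps n (ds y (par y))) *
            (144 * C1 * ps n t') := mul_le_mul_of_nonneg_left u3 hprod
        _ ≤ a ^ k * (∏ y ∈ S.erase x, ps n (ds y (par y))) * (a * ps n t') := by
            apply mul_le_mul_of_nonneg_left _ hprod
            exact mul_le_mul_of_nonneg_right ha z4.le
        _ = a ^ (k + 1) * (∏ y ∈ S.erase x, ps n (ds y (par y))) * ps n t' := by
            rw [pow_succ]; ring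
  · -- second case
    refine ⟨Ev, par, rk, hloc, ?_, g3, ?_⟩
    · intro S' hSS' hS' hw hfar F hF hQ
      refine g2 S' hSS' hS' hw (fun v hv w hw => ?_) F hF hQ
      have := hfar v hv w hw
      omega
    · have b1 : ps n s ≤ ((6:ℕ):ℝ) ^ 2 * ps n (max t' (dm S)) := by
        apply ps_cmp (by norm_num)
        have h1 : max 1 s = s := max_eq_right hs1
        rw [h1]
        have hdms : dm S ≤ s := le_max_right _ _
        have hts : t + 1 ≤ s := le_max_left _ _
        apply max_le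
        · omega
        · omega
      push_cast at b1
      have z4 := ps_pos n (max t' (dm S))
      have b2 : ps n s ≤ a * ps n (max t' (dm S)) := by
        refine b1.trans (mul_le_mul_of_nonneg_right ?_ z4.le)
        linarith
      calc PQ (1 / 2) (boxE (2 * n)) Ev
          ≤ a ^ k * (∏ y ∈ S.erase x, ps n (ds y (par y))) * ps n s := g4
        _ ≤ a ^ k * (∏ y ∈ S.erase x, ps n (ds y (par y))) *
            (a * ps n (max t' (dm S))) := mul_le_mul_of_nonneg_left b2 hprod
        _ = a ^ (k + 1) * (∏ y ∈ S.erase x, ps n (ds y (par y))) *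
            ps n (max t' (dm S)) := by rw [pow_succ]; ring

end Pool.Agent.Q218.AL
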