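import Pool.Agent.Q218.AL.Key
import Pool.Agent.Y21.NE.Tree
import Pool.Agent.Y433.NE.Suma

/-! The sum over the jointly pivotal sets. -/

set_option autoImplicit false

namespace Pool.Agent.Q218.AL

open H974 H12S H389NS Finset
open Pool.Agent.Y554.NE (ds dm nb conn cap pos cap_mul dm_le_of dm_mono dm_union)
open Pool.Agent.Y239.NE.Out (blk_sub mem_blk_of ds_le_dm pos_le)
open Pool.Agent.Y968.NE (ds_comm ds_zero ds_self)

theorem ps_le {n s : ℕ} (h1 : 1 ≤ s) (h2 : s ≤ 4 * n) :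
    ps n s ≤ 16 * (s:ℝ) ^ (-(5 / 4) : ℝ) := by
  have hs : (0:ℝ) < s := by exact_mod_cast h1
  have h3 : 4 * n ≤ 4 * max 1 n := by omega
  have h4 : ps n s ≤ ((4:ℕ):ℝ) ^ 2 * (s:ℝ) ^ (-(5 / 4) : ℝ) := by
    have h5 : (cap n s : ℝ) ≥ (s:ℝ) / 4 := by
      have : s ≤ 4 * cap n s := by unfold cap; omega
      have h6 : (s:ℝ) ≤ 4 * (cap n s : ℝ) := by exact_mod_cast this
      linarith
    have h6 : ps n s ≤ ((s:ℝ) / 4) ^ (-(5 / 4) : ℝ) := by
      unfold ps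
      exact Real.rpow_le_rpow_of_nonpos (by positivity) h5 (by norm_num)
    refine h6.trans ?_
    rw [Real.div_rpow hs.le (by norm_num), Real.rpow_neg (by norm_num : (0:ℝ) ≤ 4), div_inv_eq_mul,
      mul_comm]
    refine mul_le_mul_of_nonneg_right ?_ (by positivity)
    calc (4:ℝ) ^ (5 / 4 : ℝ) ≤ (4:ℝ) ^ (2 : ℝ) :=
          Real.rpow_le_rpow_of_exponent_le (by norm_num) (by norm_num)
      _ = ((4:ℕ):ℝ) ^ 2 := by norm_num
  push_cast at h4
  norm_num at h4 ⊢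
  exact h4

/-- the sum of the kernel -/
theorem kersum (n J : ℕ) (hJ : 2 ^ J ≤ 2 * n) (z : Edg) :
    ∑ y ∈ (boxE n).filter (fun y => ds y z < 2 ^ (J + 1)), ps n (ds y z) ≤
      4096 * (((2 : ℕ) ^ J : ℕ) : ℝ) ^ (3 / 4 : ℝ) := by
  classical
  set V := (boxE n).filter (fun y => ds y z < 2 ^ (J + 1)) with hV
  have hmaps : ∀ y ∈ V, Nat.log 2 (max 1 (ds y z)) ∈ range (J + 1) := by
    intro y hy
    rw [hV, mem_filter] at hy
    rw [mem_range]
    apply Nat.log_lt_of_lt_pow (by omega)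
    have : 1 < 2 ^ (J + 1) := Nat.one_lt_two_pow (by omega)
    omega
  rw [← sum_fiberwise_of_maps_to hmaps]
  have hone : ∀ j ∈ range (J + 1), ∑ y ∈ V.filter (fun y => Nat.log 2 (max 1 (ds y z)) = j),
      ps n (ds y z) ≤ 1024 * (((2 : ℕ) ^ j : ℕ) : ℝ) ^ (3 / 4 : ℝ) := by
    intro j hj
    rw [mem_range, Nat.lt_succ_iff] at hj
    set D := 2 ^ j with hDdef
    have hD : 1 ≤ D := Nat.one_le_two_pow
    have hDJ : D ≤ 2 ^ J := Nat.pow_le_pow_right (by norm_num) hj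
    have hD0 : (0 : ℝ) < D := by exact_mod_cast hD
    set G := V.filter (fun y => Nat.log 2 (max 1 (ds y z)) = j) with hG
    have hGp : ∀ y ∈ G, ds y z < 2 * D ∧ D ≤ max 1 (ds y z) := by
      intro y hy
      rw [hG, mem_filter, hV, mem_filter] at hy
      obtain ⟨⟨h1, h2⟩, h3⟩ := hy
      have h4 : max 1 (ds y z) < 2 ^ (j + 1) := by
        rw [← h3]
        exact Nat.lt_pow_succ_log_self (by norm_num) _
      have h5 : D ≤ max 1 (ds y z) := by
        rw [hDdef, ← h3]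
        exact Nat.pow_log_le_self 2 (by omega)
      have h6 : 2 ^ (j + 1) = 2 * D := by rw [hDdef]; ring
      exact ⟨by omega, h5⟩
    have hbd : ∀ y ∈ G, ps n (ds y z) ≤ 16 * (D : ℝ) ^ (-(5 / 4) : ℝ) := by
      intro y hy
      obtain ⟨h1, h2⟩ := hGp y hy
      have h3 : ps n (ds y z) ≤ ps n D := by
        rcases Nat.eq_zero_or_pos (ds y z) with h0 | h0
        · have hD1 : D = 1 := by omega
          rw [h0, hD1]
          unfold ps cap
          have : max 1 (min 0 n) = max 1 (min 1 n) := by omega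
          rw [this]
        · exact ps_anti (by omega)
      exact h3.trans (ps_le hD (by omega))
    have hsub : G ⊆ ((Icc (z.1 - 2 * D + 1) (z.1 + 2 * D - 1)) ×ˢ
        ((Icc (z.2.1 - 2 * D + 1) (z.2.1 + 2 * D - 1)) ×ˢ (univ : Finset Bool))) := by
      intro y hy
      obtain ⟨h1, _⟩ := hGp y hy
      unfold ds at h1
      rw [mem_product, mem_product, mem_Icc, mem_Icc]
      exact ⟨by omega, by omega, mem_univ _⟩
    have hcard : (G.card : ℝ) ≤ 32 * (D:ℝ) ^ 2 := by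
      have h1 := card_le_card hsub
      rw [card_product, card_product, Int.card_Icc, Int.card_Icc, card_univ, Fintype.card_bool] at h1
      have e1 : (z.1 + 2 * (D:ℤ) - 1 + 1 - (z.1 - 2 * D + 1)).toNat ≤ 4 * D := by omega
      have e2 : (z.2.1 + 2 * (D:ℤ) - 1 + 1 - (z.2.1 - 2 * D + 1)).toNat ≤ 4 * D := by omega
      have h2 : G.card ≤ 4 * D * (4 * D * 2) :=
        h1.trans (Nat.mul_le_mul e1 (Nat.mul_le_mul_right 2 e2))
      have h3 : (G.card : ℝ) ≤ ((4 * D * (4 * D * 2) : ℕ) : ℝ) := by exact_mod_cast h2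
      refine h3.trans (le_of_eq ?_)
      push_cast
      ring
    calc ∑ y ∈ G, ps n (ds y z) ≤ ∑ _y ∈ G, 16 * (D : ℝ) ^ (-(5 / 4) : ℝ) := sum_le_sum hbd
      _ = G.card * (16 * (D : ℝ) ^ (-(5 / 4) : ℝ)) := by rw [sum_const, nsmul_eq_mul]
      _ ≤ 32 * (D:ℝ) ^ 2 * (16 * (D : ℝ) ^ (-(5 / 4) : ℝ)) :=
          mul_le_mul_of_nonneg_right hcard (by positivity)
      _ = 512 * ((D:ℝ) ^ (2:ℝ) * (D : ℝ) ^ (-(5 / 4) : ℝ)) := by
          rw [Real.rpow_two]; ring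
      _ = 512 * (D:ℝ) ^ (3 / 4 : ℝ) := by
          rw [← Real.rpow_add hD0]
          norm_num
      _ ≤ 1024 * (D:ℝ) ^ (3 / 4 : ℝ) := by
          have : 0 ≤ (D:ℝ) ^ (3 / 4 : ℝ) := by positivity
          linarith
  refine (sum_le_sum hone).trans ?_
  rw [← mul_sum]
  have h1 := Pool.Agent.Y433.NE.geo J
  linarith

theorem geoq (J : ℕ) : ∑ j ∈ range (J + 1), (((2 : ℕ) ^ j : ℕ) : ℝ) ^ (1 / 4 : ℝ) ≤
    8 * (((2 : ℕ) ^ J : ℕ) : ℝ) ^ (1 / 4 : ℝ) := by
  have hρ : (8 / 7 : ℝ) ≤ (2 : ℝ) ^ (1 / 4 : ℝ) := by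
    have h1 : (8 / 7 : ℝ) = ((8 / 7 : ℝ) ^ (4 : ℝ)) ^ (1 / 4 : ℝ) := by
      rw [← Real.rpow_mul (by norm_num)]
      norm_num
    rw [h1]
    refine Real.rpow_le_rpow (by positivity) ?_ (by norm_num)
    norm_num
  induction J with
  | zero => simp
  | succ J ih =>
    rw [sum_range_succ]
    have h3 : (((2 : ℕ) ^ (J + 1) : ℕ) : ℝ) ^ (1 / 4 : ℝ) =
        (((2 : ℕ) ^ J : ℕ) : ℝ) ^ (1 / 4 : ℝ) * (2 : ℝ) ^ (1 / 4 : ℝ) := by
      rw [← Real.mul_rpow (by positivity) (by norm_num)]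
      congr 1
      push_cast
      ring
    have h4 : 0 ≤ (((2 : ℕ) ^ J : ℕ) : ℝ) ^ (1 / 4 : ℝ) := by positivity
    rw [h3]
    nlinarith

/-- three edges are not at the same position -/
theorem exists_pos_ne {S : Finset Edg} {o : Edg} (hc : 3 ≤ S.card) : ∃ y ∈ S, ds y o ≠ 0 := by
  by_contra hcon
  push Not at hcon
  have hsub : S ⊆ {(o.1, o.2.1, true), (o.1, o.2.1, false)} := by
    intro y hy
    have h := hcon y hy
    unfold ds at h
    obtain ⟨p, q, β⟩ := y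
    simp only at h
    have e1 : p = o.1 := by omega
    have e2 : q = o.2.1 := by omega
    subst e1 e2
    cases β <;> simp
  have := card_le_card hsub
  have h2 : ({(o.1, o.2.1, true), (o.1, o.2.1, false)} : Finset Edg).card ≤ 2 := Finset.card_le_two
  omega

theorem poly : ∃ C : ℝ, 1 ≤ C ∧ ∀ (o : Edg) (n : ℕ) (Y : ℝ), 1 ≤ n → pos o = (0, 0) → 0 ≤ Y →
    C * Y * (n:ℝ) ^ (3 / 4 : ℝ) ≤ 1 →
    ∑ S ∈ (boxE n).powerset.filter (fun S => o ∈ S ∧ 3 ≤ S.card),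
      Y ^ (S.card - 1) * PQ (1 / 2) ((boxE (2 * n)).erase o) (Qp o S) ≤
      C * (Y ^ 2 * (n:ℝ) ^ (1 / 4 : ℝ)) := by
  classical
  obtain ⟨a, ha, hwh⟩ := whole
  obtain ⟨A4, hA4⟩ : ∃ A4 : ℝ, A4 = a ^ 4 := ⟨_, rfl⟩
  have hA41 : 1 ≤ A4 := by rw [hA4]; exact one_le_pow₀ ha
  refine ⟨3 * 4096 * 2 * A4 + 3 * A4 ^ 3 * 9 * 4096 ^ 2 * 16 * 8 * 2, by
    have : (1:ℝ) ≤ A4 ^ 3 := one_le_pow₀ hA41
    nlinarith, ?_⟩
  intro o n Y hn ho hY hsmall
  have hn0 : (0:ℝ) < n := by exact_mod_cast hn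
  have ho1 : o.1 = 0 := congrArg Prod.fst ho
  have ho2 : o.2.1 = 0 := congrArg Prod.snd ho
  have hdo : ∀ y ∈ boxE n, ds y o ≤ n := by
    intro y hy
    obtain ⟨h1, h2⟩ := pos_le hy
    unfold pos at h1 h2
    unfold ds
    rw [ho1, ho2, sub_zero, sub_zero]
    rw [abs_le] at h1 h2
    omega
  have H : ∀ S : Finset Edg, ∃ W : ℝ, 0 ≤ W ∧ (S ⊆ boxE n → o ∈ S → 3 ≤ S.card →
      (∃ (par : Edg → Edg) (rk : Edg → ℕ),
        (∀ y ∈ S, y ≠ o → par y ∈ S ∧ rk (par y) < rk y ∧ ds y (par y) ≤ dm S) ∧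
        W = ∏ y ∈ S.erase o, ps n (ds y (par y))) ∧
      PQ (1 / 2) ((boxE (2 * n)).erase o) (Qp o S) ≤ a ^ (4 * S.card) * W * ps n (dm S)) := by
    intro S
    by_cases hc : S ⊆ boxE n ∧ o ∈ S ∧ 3 ≤ S.card
    · obtain ⟨h1, h2, h3⟩ := hc
      obtain ⟨par, rk, g1, g2⟩ := hwh o n S h1 h2 (fun y hy => hdo y (h1 hy)) (exists_pos_ne h3)
      exact ⟨∏ y ∈ S.erase o, ps n (ds y (par y)),
        Finset.prod_nonneg (fun y _ => (ps_pos _ _).le), fun _ _ _ => ⟨⟨par, rk, g1, rfl⟩, g2⟩⟩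
    · exact ⟨0, le_rfl, fun h1 h2 h3 => absurd ⟨h1, h2, h3⟩ hc⟩
  choose W hW0 hW using H
  have hok : Ok (fun _ : Edg => (1 / 2 : ℝ)) := fun _ => by norm_num
  -- the diameter
  have hdm : ∀ S ∈ (boxE n).powerset.filter (fun S => o ∈ S ∧ 3 ≤ S.card),
      1 ≤ dm S ∧ dm S ≤ 2 * n := by
    intro S hS
    rw [mem_filter, mem_powerset] at hS
    obtain ⟨h1, h2, h3⟩ := hS
    constructor
    · obtain ⟨y, hy, hy0⟩ := exists_pos_ne (o := o) h3
      have := ds_le_dm hy h2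
      omega
    · apply dm_le_of
      intro y hy z hz
      have g1 := hdo y (h1 hy)
      have g2 := hdo z (h1 hz)
      unfold ds at g1 g2 ⊢
      omega
  obtain ⟨J, hJ⟩ : ∃ J : ℕ, J = Nat.log 2 (2 * n) := ⟨_, rfl⟩
  have h2J : 2 ^ J ≤ 2 * n := by rw [hJ]; exact Nat.pow_log_le_self 2 (by omega)
  have hmaps : ∀ S ∈ (boxE n).powerset.filter (fun S => o ∈ S ∧ 3 ≤ S.card),
      Nat.log 2 (dm S) ∈ range (J + 1) := by
    intro S hS
    rw [mem_range, Nat.lt_succ_iff, hJ]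
    exact Nat.log_mono_right (hdm S hS).2
  rw [← sum_fiberwise_of_maps_to hmaps]
  obtain ⟨B, hB⟩ : ∃ B : ℝ, B = 3 * A4 ^ 3 * 9 * 4096 ^ 2 * 16 := ⟨_, rfl⟩
  have hB0 : 0 ≤ B := by rw [hB]; positivity
  have hone : ∀ j ∈ range (J + 1),
      ∑ S ∈ ((boxE n).powerset.filter (fun S => o ∈ S ∧ 3 ≤ S.card)).filter
        (fun S => Nat.log 2 (dm S) = j),
        Y ^ (S.card - 1) * PQ (1 / 2) ((boxE (2 * n)).erase o) (Qp o S) ≤
      B * Y ^ 2 * (((2 : ℕ) ^ j : ℕ) : ℝ) ^ (1 / 4 : ℝ) := by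
    intro j hj
    rw [mem_range, Nat.lt_succ_iff] at hj
    set D := 2 ^ j with hDdef
    have hD : 1 ≤ D := Nat.one_le_two_pow
    have hDJ : D ≤ 2 * n := (Nat.pow_le_pow_right (by norm_num) hj).trans h2J
    have hD0 : (0 : ℝ) < D := by exact_mod_cast hD
    obtain ⟨M, hM⟩ : ∃ M : ℝ, M = 4096 * (D:ℝ) ^ (3 / 4 : ℝ) := ⟨_, rfl⟩
    have hMpos : 0 < M := by rw [hM]; positivity
    obtain ⟨κ, hκ⟩ : ∃ κ : Edg → Edg → ℝ, κ = fun y z => if ds y z < 2 ^ (j + 1) then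
      ps n (ds y z) else 0 := ⟨_, rfl⟩
    have hκ0 : ∀ y z, 0 ≤ κ y z := by
      intro y z
      rw [hκ]
      simp only
      split_ifs
      · exact (ps_pos _ _).le
      · exact le_rfl
    have hκs : ∀ z ∈ boxE n, ∑ y ∈ boxE n, κ y z ≤ M := by
      intro z _
      have h1 := kersum n j hDJ z
      rw [hM]
      refine le_trans (le_of_eq ?_) h1
      rw [hκ, Finset.sum_filter]
    obtain ⟨w, hw⟩ : ∃ w : Finset Edg → Edg → ℝ, w = fun S x =>
      if x = o ∧ S ⊆ boxE n ∧ o ∈ S ∧ 3 ≤ S.card ∧ Nat.log 2 (dm S) = j then W S else 0 :=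
      ⟨_, rfl⟩
    obtain ⟨Z, hZ⟩ : ∃ Z : ℝ, Z = 1 / (3 * M) := ⟨_, rfl⟩
    have hZpos : 0 < Z := by rw [hZ]; positivity
    have hMZ : 3 * M * Z = 1 := by rw [hZ]; field_simp
    have htree := Pool.Agent.Y21.NE.tree (boxE n) κ w M Z hκ0 hκs hZpos.le hMZ.le (by
      intro S hS x hx
      by_cases hc : x = o ∧ S ⊆ boxE n ∧ o ∈ S ∧ 3 ≤ S.card ∧ Nat.log 2 (dm S) = j
      · obtain ⟨c1, c2, c3, c4, c5⟩ := hc
        subst c1
        obtain ⟨⟨par, rk, g1, g2⟩, -⟩ := hW S c2 c3 c4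
        refine ⟨par, rk, fun y hy hyx => ⟨(g1 y hy hyx).1, (g1 y hy hyx).2.1⟩, ?_⟩
        rw [hw]
        simp only
        rw [if_pos ⟨trivial, c2, c3, c4, c5⟩, g2]
        apply le_of_eq
        apply Finset.prod_congr rfl
        intro y hy
        rw [Finset.mem_erase] at hy
        have g3 := (g1 y hy.2 hy.1).2.2
        have g4 : dm S < 2 ^ (j + 1) := by
          rw [← c5]
          exact Nat.lt_pow_succ_log_self (by norm_num) _
        rw [hκ]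
        simp only
        rw [if_pos (by omega)]
      · refine ⟨fun _ => x, fun y => if y = x then 0 else 1, ?_, ?_⟩
        · intro y _ hyx
          simp [hx, hyx]
        · rw [hw]
          simp only
          rw [if_neg hc]
          exact Finset.prod_nonneg (fun y _ => hκ0 _ _)) o (by
      obtain ⟨p, q, β⟩ := o
      simp only at ho1 ho2
      subst ho1 ho2
      unfold boxE
      cases β
      · rw [mem_RE_false]; omega
      · rw [mem_RE_true]; omega)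
    -- comparison of the parameters
    have hYZ : A4 * Y ≤ Z := by
      rw [hZ, le_div_iff₀ (by positivity), hM]
      have h1 : (D:ℝ) ^ (3 / 4 : ℝ) ≤ 2 * (n:ℝ) ^ (3 / 4 : ℝ) := by
        have h2 : (D:ℝ) ≤ 2 * n := by exact_mod_cast hDJ
        calc (D:ℝ) ^ (3 / 4 : ℝ) ≤ (2 * (n:ℝ)) ^ (3 / 4 : ℝ) :=
              Real.rpow_le_rpow hD0.le h2 (by norm_num)
          _ = (2:ℝ) ^ (3 / 4 : ℝ) * (n:ℝ) ^ (3 / 4 : ℝ) := Real.mul_rpow (by norm_num) hn0.le
          _ ≤ 2 * (n:ℝ) ^ (3 / 4 : ℝ) := by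
              refine mul_le_mul_of_nonneg_right ?_ (by positivity)
              calc (2:ℝ) ^ (3 / 4 : ℝ) ≤ (2:ℝ) ^ (1 : ℝ) :=
                    Real.rpow_le_rpow_of_exponent_le (by norm_num) (by norm_num)
                _ = 2 := Real.rpow_one _
      have h3 : A4 * Y * (3 * (4096 * (D:ℝ) ^ (3 / 4 : ℝ))) ≤
          A4 * Y * (3 * (4096 * (2 * (n:ℝ) ^ (3 / 4 : ℝ)))) := by
        apply mul_le_mul_of_nonneg_left _ (by positivity)
        linarith
      refine h3.trans (le_trans ?_ hsmall)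
      have h4 : A4 * Y * (3 * (4096 * (2 * (n:ℝ) ^ (3 / 4 : ℝ)))) =
          3 * 4096 * 2 * A4 * (Y * (n:ℝ) ^ (3 / 4 : ℝ)) := by ring
      rw [h4, mul_assoc _ Y]
      apply mul_le_mul_of_nonneg_right _ (by positivity)
      have : 0 ≤ 3 * A4 ^ 3 * 9 * 4096 ^ 2 * 16 * 8 * 2 := by positivity
      linarith
    have hterm : ∀ S ∈ ((boxE n).powerset.filter (fun S => o ∈ S ∧ 3 ≤ S.card)).filter
        (fun S => Nat.log 2 (dm S) = j),
        Y ^ (S.card - 1) * PQ (1 / 2) ((boxE (2 * n)).erase o) (Qp o S) ≤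
        A4 * (A4 * Y) ^ 2 * (1 / Z ^ 3) * ps n D * (Z ^ S.card * w S o) := by
      intro S hS
      have hS' := hS
      rw [mem_filter, mem_filter, mem_powerset] at hS'
      obtain ⟨⟨c2, c3, c4⟩, c5⟩ := hS'
      have hd1 := hdm S (mem_filter.1 hS).1
      obtain ⟨-, g2⟩ := hW S c2 c3 c4
      have hwS : w S o = W S := by
        rw [hw]
        simp only
        rw [if_pos ⟨trivial, c2, c3, c4, c5⟩]
      rw [hwS]
      have hDdm : D ≤ dm S := by
        rw [hDdef, ← c5]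
        exact Nat.pow_log_le_self 2 (by omega)
      have hps : ps n (dm S) ≤ ps n D := ps_anti hDdm
      have e1 : Y ^ (S.card - 1) * a ^ (4 * S.card) = A4 * (A4 * Y) ^ (S.card - 1) := by
        have : a ^ (4 * S.card) = A4 * A4 ^ (S.card - 1) := by
          rw [hA4, ← pow_succ', ← pow_mul]
          congr 1
          omega
        rw [this, mul_pow]
        ring
      have e2 : (A4 * Y) ^ (S.card - 1) ≤ (A4 * Y) ^ 2 * (1 / Z ^ 3) * Z ^ S.card := by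
        have h1 : S.card - 1 = 2 + (S.card - 3) := by omega
        have h2 : Z ^ S.card = Z ^ 3 * Z ^ (S.card - 3) := by
          rw [← pow_add]; congr 1; omega
        rw [h1, pow_add, h2]
        have h3 : (A4 * Y) ^ (S.card - 3) ≤ Z ^ (S.card - 3) :=
          pow_le_pow_left₀ (by positivity) hYZ _
        have h4 : (A4 * Y) ^ 2 * (1 / Z ^ 3) * (Z ^ 3 * Z ^ (S.card - 3)) =
            (A4 * Y) ^ 2 * Z ^ (S.card - 3) := by field_simp
        rw [h4]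
        exact mul_le_mul_of_nonneg_left h3 (by positivity)
      calc Y ^ (S.card - 1) * PQ (1 / 2) ((boxE (2 * n)).erase o) (Qp o S)
          ≤ Y ^ (S.card - 1) * (a ^ (4 * S.card) * W S * ps n (dm S)) :=
            mul_le_mul_of_nonneg_left g2 (by positivity)
        _ = Y ^ (S.card - 1) * a ^ (4 * S.card) * (W S * ps n (dm S)) := by ring
        _ = A4 * (A4 * Y) ^ (S.card - 1) * (W S * ps n (dm S)) := by rw [e1]
        _ ≤ A4 * ((A4 * Y) ^ 2 * (1 / Z ^ 3) * Z ^ S.card) * (W S * ps n D) := by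
            apply mul_le_mul
            · exact mul_le_mul_of_nonneg_left e2 (by linarith)
            · exact mul_le_mul_of_nonneg_left hps (hW0 S)
            · exact mul_nonneg (hW0 S) (ps_pos _ _).le
            · positivity
        _ = _ := by ring
    have hcoef : 0 ≤ A4 * (A4 * Y) ^ 2 * (1 / Z ^ 3) * ps n D := by
      have := (ps_pos n D).le
      positivity
    have hw0 : ∀ S, 0 ≤ Z ^ S.card * w S o := by
      intro S
      rw [hw]
      simp only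
      split_ifs
      · exact mul_nonneg (by positivity) (hW0 S)
      · simp
    calc ∑ S ∈ ((boxE n).powerset.filter (fun S => o ∈ S ∧ 3 ≤ S.card)).filter
          (fun S => Nat.log 2 (dm S) = j),
          Y ^ (S.card - 1) * PQ (1 / 2) ((boxE (2 * n)).erase o) (Qp o S)
        ≤ ∑ S ∈ ((boxE n).powerset.filter (fun S => o ∈ S ∧ 3 ≤ S.card)).filter
          (fun S => Nat.log 2 (dm S) = j),
          A4 * (A4 * Y) ^ 2 * (1 / Z ^ 3) * ps n D * (Z ^ S.card * w S o) := sum_le_sum hterm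
      _ = A4 * (A4 * Y) ^ 2 * (1 / Z ^ 3) * ps n D *
          ∑ S ∈ ((boxE n).powerset.filter (fun S => o ∈ S ∧ 3 ≤ S.card)).filter
          (fun S => Nat.log 2 (dm S) = j), Z ^ S.card * w S o := by rw [mul_sum]
      _ ≤ A4 * (A4 * Y) ^ 2 * (1 / Z ^ 3) * ps n D *
          ∑ S ∈ (boxE n).powerset.filter (fun S => o ∈ S), Z ^ S.card * w S o := by
          apply mul_le_mul_of_nonneg_left _ hcoef
          apply sum_le_sum_of_subset_of_nonneg
          · intro S hS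
            rw [mem_filter, mem_filter] at hS
            rw [mem_filter]
            exact ⟨hS.1.1, hS.1.2.1⟩
          · intro S _ _
            exact hw0 S
      _ ≤ A4 * (A4 * Y) ^ 2 * (1 / Z ^ 3) * ps n D * (3 * Z) :=
          mul_le_mul_of_nonneg_left htree hcoef
      _ = 3 * A4 ^ 3 * Y ^ 2 * (9 * M ^ 2) * ps n D := by
          rw [hZ]
          field_simp
          ring
      _ ≤ 3 * A4 ^ 3 * Y ^ 2 * (9 * M ^ 2) * (16 * (D:ℝ) ^ (-(5 / 4) : ℝ)) := by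
          apply mul_le_mul_of_nonneg_left (ps_le hD (by omega))
          positivity
      _ = B * Y ^ 2 * (((D:ℝ) ^ (3 / 4 : ℝ)) ^ 2 * (D:ℝ) ^ (-(5 / 4) : ℝ)) := by
          rw [hM, hB]
          ring
      _ = B * Y ^ 2 * (D:ℝ) ^ (1 / 4 : ℝ) := by
          congr 1
          rw [← Real.rpow_natCast, ← Real.rpow_mul hD0.le, ← Real.rpow_add hD0]
          norm_num
  refine (sum_le_sum hone).trans ?_
  rw [← mul_sum]
  have h1 := geoq J
  have h2 : (((2 : ℕ) ^ J : ℕ) : ℝ) ^ (1 / 4 : ℝ) ≤ 2 * (n:ℝ) ^ (1 / 4 : ℝ) := by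
    have h3 : (((2 : ℕ) ^ J : ℕ) : ℝ) ≤ 2 * n := by exact_mod_cast h2J
    calc (((2 : ℕ) ^ J : ℕ) : ℝ) ^ (1 / 4 : ℝ) ≤ (2 * (n:ℝ)) ^ (1 / 4 : ℝ) :=
          Real.rpow_le_rpow (by positivity) h3 (by norm_num)
      _ = (2:ℝ) ^ (1 / 4 : ℝ) * (n:ℝ) ^ (1 / 4 : ℝ) := Real.mul_rpow (by norm_num) hn0.le
      _ ≤ 2 * (n:ℝ) ^ (1 / 4 : ℝ) := by
          refine mul_le_mul_of_nonneg_right ?_ (by positivity)
          calc (2:ℝ) ^ (1 / 4 : ℝ) ≤ (2:ℝ) ^ (1 : ℝ) :=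
                Real.rpow_le_rpow_of_exponent_le (by norm_num) (by norm_num)
            _ = 2 := Real.rpow_one _
  calc B * Y ^ 2 * ∑ j ∈ range (J + 1), (((2 : ℕ) ^ j : ℕ) : ℝ) ^ (1 / 4 : ℝ)
      ≤ B * Y ^ 2 * (8 * (2 * (n:ℝ) ^ (1 / 4 : ℝ))) := by
        apply mul_le_mul_of_nonneg_left _ (by positivity)
        linarith
    _ = (3 * A4 ^ 3 * 9 * 4096 ^ 2 * 16 * 8 * 2) * (Y ^ 2 * (n:ℝ) ^ (1 / 4 : ℝ)) := by
        rw [hB]; ring
    _ ≤ _ := by
        apply mul_le_mul_of_nonneg_right _ (by positivity)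
        have : 0 ≤ 3 * 4096 * 2 * A4 := by positivity
        linarith

end Pool.Agent.Q218.AL
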