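import Pool.Agent.Q218.AL.Sum
import Pool.Agent.Y350.NE.TayA

/-! Taylor expansion of the connection probability at the critical point. -/

set_option autoImplicit false

namespace Pool.Agent.Q218.AL

open H974 H12S H389NS Finset
open Pool.Agent.Y554.NE (ds dm nb conn cap pos cap_mul dm_le_of dm_mono dm_union)
open Pool.Agent.Y239.NE.Out (blk_sub mem_blk_of ds_le_dm pos_le)
open Pool.Agent.Y968.NE (ds_comm ds_zero ds_self)

section Abs

variable {E : Type*} [DecidableEq E]

/-- The coefficient of the expansion at `1 / 2`. -/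
noncomputable def cf (U : Finset E) (f : Finset E → ℝ) (S : Finset E) : ℝ :=
  (1 / 2) ^ (U \ S).card * ∑ F ∈ U.powerset, (-1 : ℝ) ^ (S \ F).card * f F

theorem expandR (V F : Finset E) (hF : F ⊆ V) (z : E → ℝ) :
    (∏ e ∈ F, (1 / 2 + z e)) * (∏ e ∈ V \ F, (1 - (1 / 2 + z e))) =
      ∑ S ∈ V.powerset, (∏ e ∈ S, z e) * (1 / 2) ^ (V \ S).card * (-1) ^ (S \ F).card := by
  classical
  have h1 : (∏ e ∈ F, (1 / 2 + z e)) * (∏ e ∈ V \ F, (1 - (1 / 2 + z e))) =
      ∏ e ∈ V, ((if e ∈ F then z e else -z e) + 1 / 2) := by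
    rw [← Finset.prod_sdiff hF, mul_comm]
    congr 1
    · refine Finset.prod_congr rfl fun e he => ?_
      rw [if_neg (Finset.mem_sdiff.1 he).2]
      ring
    · refine Finset.prod_congr rfl fun e he => ?_
      rw [if_pos he]
      ring
  rw [h1, Finset.prod_add]
  refine Finset.sum_congr rfl fun S hS => ?_
  rw [Finset.prod_const]
  have h2 : ∏ e ∈ S, (if e ∈ F then z e else -z e) = (∏ e ∈ S, z e) * (-1) ^ (S \ F).card := by
    have h3 : ∀ e ∈ S, (if e ∈ F then z e else -z e) = z e * (if e ∈ S \ F then -1 else 1) := by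
      intro e he
      by_cases h : e ∈ F
      · simp [h]
      · simp [h, he]
    rw [Finset.prod_congr rfl h3, Finset.prod_mul_distrib]
    congr 1
    rw [Finset.prod_ite_mem, Finset.inter_eq_right.2 Finset.sdiff_subset, Finset.prod_const]
  rw [h2]
  ring

theorem Ex_expand (U : Finset E) (f : Finset E → ℝ) (z : E → ℝ) :
    Ex (fun e => 1 / 2 + z e) U f = ∑ S ∈ U.powerset, (∏ e ∈ S, z e) * cf U f S := by
  unfold Ex cf
  have e2 : ∀ F ∈ U.powerset, (∏ e ∈ F, (1 / 2 + z e)) * (∏ e ∈ U \ F, (1 - (1 / 2 + z e))) * f F =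
      ∑ S ∈ U.powerset, (∏ e ∈ S, z e) * (1 / 2) ^ (U \ S).card * ((-1) ^ (S \ F).card * f F) := by
    intro F hF
    rw [expandR U F (Finset.mem_powerset.1 hF) z, Finset.sum_mul]
    refine Finset.sum_congr rfl fun S _ => ?_
    ring
  rw [Finset.sum_congr rfl e2, Finset.sum_comm]
  refine Finset.sum_congr rfl fun S _ => ?_
  rw [Finset.mul_sum, Finset.mul_sum]
  refine Finset.sum_congr rfl fun F _ => ?_
  ring

theorem cf_bound [Nonempty E] (U S : Finset E) (hSU : S ⊆ U) (f : Finset E → ℝ)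
    (Pv : E → Finset E → Prop) (h1 : ∀ F, |f F| ≤ 1)
    (h2 : ∀ e F, ¬ Pv e F → f (insert e F) = f (F.erase e)) :
    |cf U f S| ≤ 2 ^ S.card *
      Pr (fun _ : E => (1 / 2 : ℝ)) U (fun F => ∀ e ∈ S, ∃ T ⊆ S, Pv e ((F \ S) ∪ T)) := by
  classical
  unfold cf
  rw [Pool.Agent.Y350.NE.TayA.Pr_half, abs_mul, abs_of_nonneg (by positivity)]
  have e5 : U.card = S.card + (U \ S).card := by
    rw [Finset.card_sdiff_of_subset hSU, Nat.add_sub_cancel' (Finset.card_le_card hSU)]
  have e6 : (2 : ℝ) ^ S.card * (1 / 2) ^ S.card = 1 := by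
    rw [← mul_pow]
    norm_num
  have e4 : (2:ℝ) ^ S.card * ((1 / 2 : ℝ) ^ U.card *
      ((U.powerset.filter fun F => ∀ e ∈ S, ∃ T ⊆ S, Pv e ((F \ S) ∪ T)).card : ℝ)) =
      (1 / 2) ^ (U \ S).card *
      ((U.powerset.filter fun F => ∀ e ∈ S, ∃ T ⊆ S, Pv e ((F \ S) ∪ T)).card : ℝ) := by
    rw [e5, pow_add]
    linear_combination ((1 / 2) ^ (U \ S).card *
      ((U.powerset.filter fun F => ∀ e ∈ S, ∃ T ⊆ S, Pv e ((F \ S) ∪ T)).card : ℝ)) * e6
  rw [e4]
  exact mul_le_mul_of_nonneg_left
    (Pool.Agent.Y350.NE.TayA.sign_sum U S hSU f Pv h1 h2) (by positivity)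

end Abs

/-- the parameters: `1 / 2 + s` in the box, `1 / 2` outside -/
noncomputable def par (n : ℕ) (s : ℝ) (e : Edg) : ℝ := 1 / 2 + (if e ∈ boxE n then s else 0)

/-- the connection probability of the ends of `o` off `o`, in the box of radius `2 n`, with the
parameter `1 / 2 + s` in the box of radius `n` and `1 / 2` outside -/
noncomputable def th (o : Edg) (n : ℕ) (s : ℝ) : ℝ :=
  Pr (par n s) ((boxE (2 * n)).erase o) (fun F => Reach (↑F : Set Edg) (src o) (tgt o))

theorem boxE_mono {m n : ℕ} (h : m ≤ n) : boxE m ⊆ boxE n := by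
  unfold boxE
  apply RE_subset <;> omega

theorem mem_box_of_pos {o : Edg} (ho : pos o = (0, 0)) {n : ℕ} (hn : 1 ≤ n) : o ∈ boxE n := by
  obtain ⟨p, q, β⟩ := o
  unfold pos at ho
  simp only [Prod.mk.injEq] at ho
  obtain ⟨rfl, rfl⟩ := ho
  unfold boxE
  cases β
  · rw [mem_RE_false]; omega
  · rw [mem_RE_true]; omega

theorem reach_cn {F : Set Edg} {u v : Vtx} : Cn {u} {v} F ↔ Reach F u v := by
  constructor
  · rintro ⟨a, ha, b, hb, h⟩
    rw [Set.mem_singleton_iff] at ha hb
    subst ha hb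
    exact h
  · intro h
    exact ⟨u, rfl, v, rfl, h⟩

/-- **Taylor expansion of order one.** -/
theorem expansion : ∃ C : ℝ, 1 ≤ C ∧ ∀ (o : Edg) (n : ℕ), 1 ≤ n → pos o = (0, 0) →
    ∃ L : ℝ, ∀ s : ℝ, C * |s| * (n:ℝ) ^ (3 / 4 : ℝ) ≤ 1 →
      |th o n s - th o n 0 - s * L| ≤ C * (s ^ 2 * (n:ℝ) ^ (1 / 4 : ℝ)) := by
  classical
  obtain ⟨C, hC, hpoly⟩ := poly
  refine ⟨4 * C, by linarith, ?_⟩
  intro o n hn ho
  obtain ⟨U, hU⟩ : ∃ U, U = (boxE (2 * n)).erase o := ⟨_, rfl⟩
  obtain ⟨f, hf⟩ : ∃ f : Finset Edg → ℝ, f = fun F : Finset Edg =>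
    ind (Reach (↑F : Set Edg) (src o) (tgt o)) := ⟨_, rfl⟩
  have hon : o ∈ boxE n := mem_box_of_pos ho hn
  have hon2 : boxE n ⊆ boxE (2 * n) := boxE_mono (by omega)
  obtain ⟨P1, hP1⟩ : ∃ P1 : Finset (Finset Edg), P1 = ((boxE n).erase o).powerset := ⟨_, rfl⟩
  have hP1U : P1 ⊆ U.powerset := by
    rw [hP1, hU]
    exact Finset.powerset_mono.2 (Finset.erase_subset_erase _ hon2)
  have hth : ∀ s, th o n s = ∑ S ∈ P1, s ^ S.card * cf U f S := by
    intro s
    have h1 : th o n s = Ex (fun e => 1 / 2 + (fun e => if e ∈ boxE n then s else 0) e) U f := by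
      rw [hU, hf]
      rfl
    rw [h1, Ex_expand]
    refine (Finset.sum_subset_zero_on_sdiff hP1U ?_ ?_).symm
    · intro S hS
      rw [mem_sdiff, mem_powerset, hP1, mem_powerset] at hS
      have h2 : ∃ e ∈ S, e ∉ boxE n := by
        by_contra hcon
        push Not at hcon
        apply hS.2
        intro e he
        refine mem_erase.2 ⟨?_, hcon e he⟩
        rintro rfl
        have := hS.1 he
        rw [hU] at this
        exact (notMem_erase _ _) this
      obtain ⟨e, he, hen⟩ := h2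
      rw [Finset.prod_eq_zero he (by rw [if_neg hen]), zero_mul]
    · intro S hS
      rw [hP1, mem_powerset] at hS
      rw [Finset.prod_congr rfl (fun e he => if_pos (mem_of_mem_erase (hS he))), prod_const]
  refine ⟨∑ S ∈ P1.filter (fun S => S.card = 1), cf U f S, ?_⟩
  intro s hs
  have hempty : (∅ : Finset Edg) ∈ P1 := by rw [hP1]; exact empty_mem_powerset _
  have h0 : th o n 0 = cf U f ∅ := by
    rw [hth 0]
    rw [Finset.sum_eq_single_of_mem ∅ hempty]
    · simp
    · intro S _ hne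
      have : S.card ≠ 0 := by rwa [Ne, Finset.card_eq_zero]
      rw [zero_pow this, zero_mul]
  have hsplit : th o n s = cf U f ∅ + s * (∑ S ∈ P1.filter (fun S => S.card = 1), cf U f S) +
      ∑ S ∈ P1.filter (fun S => 2 ≤ S.card), s ^ S.card * cf U f S := by
    rw [hth s, ← Finset.sum_filter_add_sum_filter_not P1 (fun S => 2 ≤ S.card), add_comm]
    congr 1
    rw [← Finset.sum_filter_add_sum_filter_not (P1.filter (fun S => ¬ 2 ≤ S.card))
      (fun S => S.card = 1), add_comm]
    congr 1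
    · have e1 : (P1.filter (fun S => ¬ 2 ≤ S.card)).filter (fun S => ¬ S.card = 1) = {∅} := by
        ext S
        rw [mem_filter, mem_filter, mem_singleton]
        constructor
        · rintro ⟨⟨-, h1⟩, h2⟩
          rw [← Finset.card_eq_zero]
          omega
        · rintro rfl
          exact ⟨⟨hempty, by simp⟩, by simp⟩
      rw [e1, sum_singleton]
      simp
    · have e1 : (P1.filter (fun S => ¬ 2 ≤ S.card)).filter (fun S => S.card = 1) =
          P1.filter (fun S => S.card = 1) := by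
        ext S
        rw [mem_filter, mem_filter, mem_filter]
        constructor
        · rintro ⟨⟨h0, h1⟩, h2⟩
          exact ⟨h0, h2⟩
        · rintro ⟨h0, h2⟩
          exact ⟨⟨h0, by omega⟩, h2⟩
      rw [e1, mul_sum]
      refine Finset.sum_congr rfl fun S hS => ?_
      rw [(mem_filter.1 hS).2, pow_one]
  have e0 : th o n s - th o n 0 - s * (∑ S ∈ P1.filter (fun S => S.card = 1), cf U f S) =
      ∑ S ∈ P1.filter (fun S => 2 ≤ S.card), s ^ S.card * cf U f S := by
    rw [hsplit, h0]; ring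
  rw [e0]
  -- the bound of the terms
  have hterm : ∀ S ∈ P1.filter (fun S => 2 ≤ S.card), |s ^ S.card * cf U f S| ≤
      (2 * |s|) ^ ((insert o S).card - 1) * PQ (1 / 2) U (Qp o (insert o S)) := by
    intro S hS
    rw [mem_filter, hP1, mem_powerset] at hS
    have hoS : o ∉ S := fun h => (notMem_erase o _) (hS.1 h)
    have hSU : S ⊆ U := by
      rw [hU]; exact hS.1.trans (Finset.erase_subset_erase _ hon2)
    have hb := cf_bound U S hSU f (fun e F => Pv {src o} {tgt o} e (↑F : Set Edg)) (by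
      intro F
      rw [hf, abs_of_nonneg (ind_nonneg _)]
      exact ind_le_one _) (by
      intro e F h
      rw [hf]
      refine ind_congr ⟨fun h1 => ?_, fun h1 => ?_⟩
      · by_contra h2
        refine h ⟨?_, ?_⟩
        · rw [reach_cn]
          rwa [← Finset.coe_insert]
        · rw [reach_cn]
          rwa [← Finset.coe_erase]
      · refine h1.mono ?_
        exact_mod_cast (Finset.erase_subset e F).trans (Finset.subset_insert e F))
    have hcard : (insert o S).card - 1 = S.card := by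
      rw [card_insert_of_notMem hoS]; rfl
    rw [hcard, abs_mul, abs_pow, mul_pow]
    have hmono : Pr (fun _ : Edg => (1 / 2 : ℝ)) U
        (fun F => ∀ e ∈ S, ∃ T ⊆ S, Pv {src o} {tgt o} e (↑((F \ S) ∪ T) : Set Edg)) ≤
        PQ (1 / 2) U (Qp o (insert o S)) := by
      apply Pr_mono (fun _ => by norm_num)
      intro F hF h
      refine ⟨mem_insert_self _ _, fun e he heo => ?_⟩
      have heS : e ∈ S := (mem_insert.1 he).resolve_left heo
      obtain ⟨T, hT, hP⟩ := h e heS
      refine ⟨T, ?_, ?_⟩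
      · rw [erase_insert hoS]; exact hT
      · have : F \ insert o S = F \ S := by
          ext g
          rw [mem_sdiff, mem_sdiff, mem_insert]
          constructor
          · rintro ⟨g1, g2⟩
            exact ⟨g1, fun h => g2 (Or.inr h)⟩
          · rintro ⟨g1, g2⟩
            refine ⟨g1, ?_⟩
            rintro (rfl | h)
            · have := hF g1
              rw [hU] at this
              exact (notMem_erase _ _) this
            · exact g2 h
        rw [this]
        exact hP
    calc |s| ^ S.card * |cf U f S| ≤ |s| ^ S.card * (2 ^ S.card *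
          Pr (fun _ : Edg => (1 / 2 : ℝ)) U
            (fun F => ∀ e ∈ S, ∃ T ⊆ S, Pv {src o} {tgt o} e (↑((F \ S) ∪ T) : Set Edg))) :=
          mul_le_mul_of_nonneg_left hb (by positivity)
      _ ≤ |s| ^ S.card * (2 ^ S.card * PQ (1 / 2) U (Qp o (insert o S))) := by
          apply mul_le_mul_of_nonneg_left _ (by positivity)
          exact mul_le_mul_of_nonneg_left hmono (by positivity)
      _ = _ := by ring
  have hsum2 := hpoly o n (2 * |s|) hn ho (by positivity) (by
    have h1 : 0 ≤ C * |s| * (n:ℝ) ^ (3 / 4 : ℝ) := by positivity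
    nlinarith)
  calc |∑ S ∈ P1.filter (fun S => 2 ≤ S.card), s ^ S.card * cf U f S|
      ≤ ∑ S ∈ P1.filter (fun S => 2 ≤ S.card), |s ^ S.card * cf U f S| :=
        Finset.abs_sum_le_sum_abs _ _
    _ ≤ ∑ S ∈ P1.filter (fun S => 2 ≤ S.card),
        (2 * |s|) ^ ((insert o S).card - 1) * PQ (1 / 2) U (Qp o (insert o S)) :=
        sum_le_sum hterm
    _ = ∑ S ∈ (boxE n).powerset.filter (fun S => o ∈ S ∧ 3 ≤ S.card),
        (2 * |s|) ^ (S.card - 1) * PQ (1 / 2) U (Qp o S) := by
        refine Finset.sum_bij' (fun S _ => insert o S) (fun S _ => S.erase o) ?_ ?_ ?_ ?_ ?_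
        · intro S hS
          rw [mem_filter, hP1, mem_powerset] at hS
          have hoS : o ∉ S := fun h => (notMem_erase o _) (hS.1 h)
          rw [mem_filter, mem_powerset, card_insert_of_notMem hoS]
          exact ⟨insert_subset hon (hS.1.trans (erase_subset _ _)), mem_insert_self _ _, by omega⟩
        · intro S hS
          rw [mem_filter, mem_powerset] at hS
          rw [mem_filter, hP1, mem_powerset, card_erase_of_mem hS.2.1]
          exact ⟨erase_subset_erase _ hS.1, by omega⟩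
        · intro S hS
          rw [mem_filter, hP1, mem_powerset] at hS
          exact erase_insert (fun h => (notMem_erase o _) (hS.1 h))
        · intro S hS
          rw [mem_filter] at hS
          exact insert_erase hS.2.1
        · intro S _
          rfl
    _ ≤ C * ((2 * |s|) ^ 2 * (n:ℝ) ^ (1 / 4 : ℝ)) := by rw [hU]; exact hsum2
    _ = 4 * C * (s ^ 2 * (n:ℝ) ^ (1 / 4 : ℝ)) := by rw [mul_pow, sq_abs]; ring

end Pool.Agent.Q218.AL
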